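import Mathlib
import Pool.Agent.Lib.MP_8effdd_an.CM.Defs

section

set_option autoImplicit false

open MeasureTheory Filter Topology Metric Set
open scoped ENNReal

namespace Pool.Agent.Lib.MP_8effdd_an.CM

/-- One of `N` disjoint subsets has at most the average measure. -/
theorem pigeon (ν : Measure E3) {N : ℕ} (hN : 0 < N) (A : ℕ → Set E3) (B : Set E3)
    (hA : ∀ q < N, MeasurableSet (A q)) (hd : ∀ q < N, ∀ q' < N, q ≠ q' → Disjoint (A q) (A q'))
    (hs : ∀ q < N, A q ⊆ B) (hB : ν B ≠ ⊤) :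
    ∃ q < N, (ν (A q)).toReal ≤ (ν B).toReal / N := by
  by_contra hcon
  push Not at hcon
  have h1 : ∑ q ∈ Finset.range N, ν (A q) ≤ ν B := by
    rw [← measure_biUnion_finset]
    · exact measure_mono (iUnion₂_subset fun q hq => hs q (Finset.mem_range.mp hq))
    · intro q hq q' hq' hne
      exact hd q (by simpa using hq) q' (by simpa using hq') hne
    · intro q hq
      exact hA q (Finset.mem_range.mp hq)
  have hfin : ∀ q ∈ Finset.range N, ν (A q) ≠ ⊤ := fun q hq =>
    ne_top_of_le_ne_top hB (measure_mono (hs q (Finset.mem_range.mp hq)))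
  have h2 : ∑ q ∈ Finset.range N, (ν (A q)).toReal ≤ (ν B).toReal := by
    rw [← ENNReal.toReal_sum hfin]
    exact ENNReal.toReal_mono hB h1
  have h3 : ∑ q ∈ Finset.range N, (ν B).toReal / N < ∑ q ∈ Finset.range N, (ν (A q)).toReal := by
    apply Finset.sum_lt_sum_of_nonempty (Finset.nonempty_range_iff.mpr hN.ne')
    intro q hq
    exact hcon q (Finset.mem_range.mp hq)
  rw [Finset.sum_const, Finset.card_range, nsmul_eq_mul] at h3
  have h4 : (N : ℝ) * ((ν B).toReal / N) = (ν B).toReal := by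
    have : (N : ℝ) ≠ 0 := by exact_mod_cast hN.ne'
    field_simp
  linarith

end Pool.Agent.Lib.MP_8effdd_an.CM
end

section

set_option autoImplicit false

open MeasureTheory Filter Topology Metric Set
open scoped ENNReal

namespace Pool.Agent.Lib.MP_8effdd_an.CM

/-- the number of slabs -/
theorem slab_number {R s K : ℝ} (hK : 0 < K) (hK' : K ≤ 160) (hs : 0 < s) (hsR : 1000 * s ≤ R) :
    ∃ N : ℕ, 0 < N ∧ (N : ℝ) * (K * s) ≤ R ∧ 1 / (N : ℝ) ≤ 1000 * s / R := by
  have hKs : 0 < K * s := mul_pos hK hs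
  have hR : 0 < R := by nlinarith
  have h1 : 6 ≤ R / (K * s) := by
    rw [le_div_iff₀ hKs]
    nlinarith [mul_le_mul_of_nonneg_right hK' hs.le]
  refine ⟨⌊R / (K * s)⌋₊, ?_, ?_, ?_⟩
  · exact Nat.floor_pos.2 (by linarith)
  · have h2 : (⌊R / (K * s)⌋₊ : ℝ) ≤ R / (K * s) := Nat.floor_le (by positivity)
    calc (⌊R / (K * s)⌋₊ : ℝ) * (K * s) ≤ R / (K * s) * (K * s) := by gcongr
      _ = R := by field_simp
  · have h3 : R / (K * s) - 1 < (⌊R / (K * s)⌋₊ : ℝ) := Nat.sub_one_lt_floor _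
    have h4 : R / (1000 * s) ≤ (⌊R / (K * s)⌋₊ : ℝ) := by
      have h5 : R / (160 * s) ≤ R / (K * s) := by
        gcongr
      have h6 : R / (1000 * s) ≤ R / (160 * s) - 1 := by
        have h7 : 1 ≤ R / (1000 * s) := by
          rw [le_div_iff₀ (by positivity)]; linarith
        have h8 : R / (160 * s) = 1000 / 160 * (R / (1000 * s)) := by
          field_simp
        rw [h8]; linarith
      linarith
    have h9 : 0 < R / (1000 * s) := by positivity
    rw [div_le_div_iff₀ (by linarith) hR]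
    rw [div_le_iff₀ (by positivity)] at h4
    linarith

theorem abs_slab {x y z s : ℝ} (h1 : |z - x| ≤ 8 * s) (h2 : |z - y| ≤ 8 * s) :
    |x - y| ≤ 16 * s := by
  rw [abs_le] at *
  constructor <;> linarith [h1.1, h1.2, h2.1, h2.2]

theorem slab_disj {s w : ℝ} (hs : 0 < s) {q q' : ℕ} (h : q ≠ q') {z : ℝ}
    (h1 : |z - (w + 20 * s * q)| ≤ 8 * s) (h2 : |z - (w + 20 * s * q')| ≤ 8 * s) : False := by
  have h3 := abs_slab h1 h2
  have h4 : w + 20 * s * q - (w + 20 * s * q') = 20 * s * ((q : ℝ) - q') := by ring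
  rw [h4, abs_mul, abs_of_pos (by positivity)] at h3
  have h5 : (1 : ℝ) ≤ |(q : ℝ) - q'| := by
    have h6 : (1 : ℤ) ≤ |(q : ℤ) - q'| := Int.one_le_abs (by omega)
    exact_mod_cast h6
  nlinarith

theorem coord_cont (m : Fin 3) : Continuous fun z : E3 => z m := by fun_prop

/-- A plane whose slab has small energy. -/
theorem good_slab (ν : Measure E3) (hν : ∀ x l, ν (cube x l) ≠ ⊤) (i : Fin 3) (a : E3) {R s : ℝ}
    (hs : 0 < s) (hsR : 1000 * s ≤ R) : ∃ c ∈ Icc (a i) (a i + R / 4),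
      (ν {z | |z i - c| ≤ 8 * s ∧ ∀ m, a m - R ≤ z m ∧ z m ≤ a m + 2 * R}).toReal ≤
        1000 * s / R * (ν {z | ∀ m, a m - R ≤ z m ∧ z m ≤ a m + 2 * R}).toReal := by
  have hR : 0 < R := by linarith
  obtain ⟨N, hN, hN1, hN2⟩ := slab_number (K := 80) (by norm_num) (by norm_num) hs hsR
  have hBcl : IsClosed {z : E3 | ∀ m, a m - R ≤ z m ∧ z m ≤ a m + 2 * R} := by
    simp only [Set.ofPred_forall, Set.ofPred_and]
    exact isClosed_iInter fun m => (isClosed_le continuous_const (coord_cont m)).inter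
      (isClosed_le (coord_cont m) continuous_const)
  have hB : ν {z : E3 | ∀ m, a m - R ≤ z m ∧ z m ≤ a m + 2 * R} ≠ ⊤ := by
    refine ne_top_of_le_ne_top (hν a (2 * R)) (measure_mono ?_)
    intro z hz m
    rw [abs_le]
    constructor <;> linarith [(hz m).1, (hz m).2]
  obtain ⟨q, hq, hq1⟩ := pigeon ν hN
    (fun q => {z : E3 | |z i - (a i + 20 * s * q)| ≤ 8 * s ∧
      ∀ m, a m - R ≤ z m ∧ z m ≤ a m + 2 * R})
    {z : E3 | ∀ m, a m - R ≤ z m ∧ z m ≤ a m + 2 * R}
    (by
      intro q _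
      refine IsClosed.measurableSet ?_
      rw [Set.ofPred_and]
      exact (isClosed_le ((coord_cont i).sub continuous_const).abs continuous_const).inter hBcl)
    (by
      intro q _ q' _ hqq
      rw [Set.disjoint_left]
      intro z hz hz'
      exact slab_disj hs hqq hz.1 hz'.1)
    (fun q _ z hz => hz.2) hB
  refine ⟨a i + 20 * s * q, ⟨?_, ?_⟩, ?_⟩
  · have : 0 ≤ 20 * s * (q : ℝ) := by positivity
    linarith
  · have h1 : (q : ℝ) ≤ N := by exact_mod_cast hq.le
    have h2 : 20 * s * (q : ℝ) ≤ 20 * s * N := by gcongr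
    have h3 : (N : ℝ) * (80 * s) ≤ R := hN1
    linarith
  · refine hq1.trans ?_
    rw [div_eq_mul_one_div, mul_comm]
    exact mul_le_mul_of_nonneg_right hN2 ENNReal.toReal_nonneg

/-- In the plane `x i = c`, for the direction `d ≠ i` and the third coordinate `e`: among the segments
of direction `d`, length `r`, whose `e` coordinate is in `[w, w + r / 8]`, there is one whose tube
has small energy. `b` is the starting point up to the `e` coordinate. -/
theorem good_seg (ν : Measure E3) (hν : ∀ x l, ν (cube x l) ≠ ⊤) {i d e : Fin 3} (hid : i ≠ d)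
    (hie : i ≠ e) (hde : d ≠ e) (a : E3) {R s r c : ℝ} (hs : 0 < s) (hsr : 1000 * s ≤ r)
    (hrR : r ≤ R) (b : E3) (hbi : b i = c) (hbd : a d ≤ b d) (hbd' : b d + r ≤ a d + R) (w : ℝ)
    (hw : a e ≤ w) (hw' : w + r / 8 ≤ a e + R) (hc : a i ≤ c) (hc' : c ≤ a i + R / 4) :
    ∃ t ∈ Icc w (w + r / 8), ∀ b' : E3, b' i = b i → b' d = b d → b' e = t →
      (ν (tube d b' r s)).toReal ≤ 1000 * s / r *
        (ν {z | |z i - c| ≤ 8 * s ∧ ∀ m, a m - R ≤ z m ∧ z m ≤ a m + 2 * R}).toReal := by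
  have hr : 0 < r := by linarith
  have hR : 0 < R := by linarith
  have hm3 : ∀ m : Fin 3, m = i ∨ m = d ∨ m = e := by
    revert hid hie hde
    clear * -
    revert i d e
    decide
  obtain ⟨N, hN, hN1, hN2⟩ := slab_number (K := 160) (by norm_num) (by norm_num) hs hsr
  have hBfin : ν {z : E3 | |z i - c| ≤ 8 * s ∧ ∀ m, a m - R ≤ z m ∧ z m ≤ a m + 2 * R} ≠ ⊤ := by
    refine ne_top_of_le_ne_top (hν a (2 * R)) (measure_mono ?_)
    intro z hz m
    rw [abs_le]
    constructor <;> linarith [(hz.2 m).1, (hz.2 m).2]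
  have hsub : ∀ q < N, {z : E3 | |z i - c| ≤ 8 * s ∧ |z e - (w + 20 * s * q)| ≤ 8 * s ∧
      b d - 8 * s ≤ z d ∧ z d ≤ b d + r + 8 * s} ⊆
      {z : E3 | |z i - c| ≤ 8 * s ∧ ∀ m, a m - R ≤ z m ∧ z m ≤ a m + 2 * R} := by
    intro q hq z hz
    obtain ⟨h1, h2, h3, h4⟩ := hz
    have hqN : (q : ℝ) ≤ N := by exact_mod_cast hq.le
    have hq0 : 0 ≤ 20 * s * (q : ℝ) := by positivity
    have hq1 : 20 * s * (q : ℝ) ≤ r / 8 := by
      have : 20 * s * (q : ℝ) ≤ 20 * s * N := by gcongr
      linarith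
    refine ⟨h1, ?_⟩
    rw [abs_le] at h1 h2
    intro m
    rcases hm3 m with rfl | rfl | rfl
    · constructor <;> linarith [h1.1, h1.2]
    · constructor <;> linarith
    · constructor <;> linarith [h2.1, h2.2]
  obtain ⟨q, hq, hq1⟩ := pigeon ν hN
    (fun q => {z : E3 | |z i - c| ≤ 8 * s ∧ |z e - (w + 20 * s * q)| ≤ 8 * s ∧
      b d - 8 * s ≤ z d ∧ z d ≤ b d + r + 8 * s})
    {z : E3 | |z i - c| ≤ 8 * s ∧ ∀ m, a m - R ≤ z m ∧ z m ≤ a m + 2 * R}
    (by
      intro q _
      refine IsClosed.measurableSet ?_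
      simp only [Set.ofPred_and]
      exact (isClosed_le ((coord_cont i).sub continuous_const).abs continuous_const).inter
        ((isClosed_le ((coord_cont e).sub continuous_const).abs continuous_const).inter
        ((isClosed_le continuous_const (coord_cont d)).inter
        (isClosed_le (coord_cont d) continuous_const))))
    (by
      intro q _ q' _ hqq
      rw [Set.disjoint_left]
      intro z hz hz'
      exact slab_disj hs hqq hz.2.1 hz'.2.1)
    hsub hBfin
  refine ⟨w + 20 * s * q, ⟨?_, ?_⟩, ?_⟩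
  · have : 0 ≤ 20 * s * (q : ℝ) := by positivity
    linarith
  · have h1 : (q : ℝ) ≤ N := by exact_mod_cast hq.le
    have h2 : 20 * s * (q : ℝ) ≤ 20 * s * N := by gcongr
    have h3 : (N : ℝ) * (160 * s) ≤ r := hN1
    linarith
  · intro b' hb1 hb2 hb3
    have htube : tube d b' r s ⊆ {z : E3 | |z i - c| ≤ 8 * s ∧ |z e - (w + 20 * s * q)| ≤ 8 * s ∧
        b d - 8 * s ≤ z d ∧ z d ≤ b d + r + 8 * s} := by
      intro z hz
      obtain ⟨h1, h2, h3⟩ := hz
      refine ⟨?_, ?_, ?_, ?_⟩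
      · have := h1 i hid
        rwa [hb1, hbi] at this
      · have := h1 e hde.symm
        rwa [hb3] at this
      · rwa [hb2] at h2
      · rwa [hb2] at h3
    calc (ν (tube d b' r s)).toReal ≤ (ν {z : E3 | |z i - c| ≤ 8 * s ∧
          |z e - (w + 20 * s * q)| ≤ 8 * s ∧ b d - 8 * s ≤ z d ∧ z d ≤ b d + r + 8 * s}).toReal :=
          ENNReal.toReal_mono (ne_top_of_le_ne_top hBfin (measure_mono (hsub q hq)))
            (measure_mono htube)
      _ ≤ _ := hq1
      _ ≤ _ := by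
        rw [div_eq_mul_one_div, mul_comm]
        exact mul_le_mul_of_nonneg_right hN2 ENNReal.toReal_nonneg

end Pool.Agent.Lib.MP_8effdd_an.CM
end

section

set_option autoImplicit false

open MeasureTheory Filter Topology Metric Set
open scoped ENNReal

namespace Pool.Agent.Lib.MP_8effdd_an.CM

/-- chaining in a square along good lines -/
theorem face_chain {X : Type*} [PseudoMetricSpace X] (F : ℝ → ℝ → X) {A B R : ℝ} (hR : 0 < R)
    (g : ℕ → ℝ) (I : ℕ) (t : ℝ)
    (H1 : ∀ m < I, ∀ u v : ℝ, A ≤ u → u + R / 8 ^ m / 8 ≤ A + R → B ≤ v → v + R / 8 ^ m ≤ B + R →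
      ∃ p ∈ Icc u (u + R / 8 ^ m / 8), ∀ q ∈ Icc v (v + R / 8 ^ m), ∀ q' ∈ Icc v (v + R / 8 ^ m),
        dist (F p q) (F p q') ≤ g m)
    (H2 : ∀ m < I, ∀ u v : ℝ, A ≤ u → u + R / 8 ^ m ≤ A + R → B ≤ v → v + R / 8 ^ m / 8 ≤ B + R →
      ∃ q ∈ Icc v (v + R / 8 ^ m / 8), ∀ p ∈ Icc u (u + R / 8 ^ m), ∀ p' ∈ Icc u (u + R / 8 ^ m),
        dist (F p q) (F p' q) ≤ g m)
    (H0 : ∀ p ∈ Icc A (A + R), ∀ p' ∈ Icc A (A + R), ∀ q ∈ Icc B (B + R), ∀ q' ∈ Icc B (B + R),
      |p - p'| ≤ R / 8 ^ I → |q - q'| ≤ R / 8 ^ I → dist (F p q) (F p' q') ≤ t)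
    (hI : 0 < I) :
    ∀ p ∈ Icc A (A + R), ∀ p' ∈ Icc A (A + R), ∀ q ∈ Icc B (B + R), ∀ q' ∈ Icc B (B + R),
      dist (F p q) (F p' q') ≤ 2 * (t + ∑ m ∈ Finset.range I, g m) + g 0 := by
  -- the statement at level m
  have key : ∀ n ≤ I, ∀ u v : ℝ, A ≤ u → u + R / 8 ^ (I - n) ≤ A + R → B ≤ v →
      v + R / 8 ^ (I - n) ≤ B + R → ∀ a ∈ Icc u (u + R / 8 ^ (I - n)),
      ∀ b ∈ Icc v (v + R / 8 ^ (I - n)),
      (∀ p ∈ Icc u (u + R / 8 ^ (I - n)), ∃ q ∈ Icc v (v + R / 8 ^ (I - n)),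
        dist (F a b) (F p q) ≤ t + ∑ m ∈ Finset.Ico (I - n) I, g m) ∧
      (∀ q ∈ Icc v (v + R / 8 ^ (I - n)), ∃ p ∈ Icc u (u + R / 8 ^ (I - n)),
        dist (F a b) (F p q) ≤ t + ∑ m ∈ Finset.Ico (I - n) I, g m) := by
    intro n
    induction n with
    | zero =>
      intro _ u v hu hu' hv hv' a ha b hb
      simp only [Nat.sub_zero, Finset.Ico_self, Finset.sum_empty, add_zero] at *
      have hp : 0 ≤ R / 8 ^ I := by positivity
      refine ⟨fun p hp1 => ⟨b, hb, ?_⟩, fun q hq1 => ⟨a, ha, ?_⟩⟩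
      · refine H0 a ⟨by linarith [ha.1], by linarith [ha.2]⟩ p ⟨by linarith [hp1.1], by linarith [hp1.2]⟩
          b ⟨by linarith [hb.1], by linarith [hb.2]⟩ b ⟨by linarith [hb.1], by linarith [hb.2]⟩ ?_ ?_
        · rw [abs_le]; constructor <;> linarith [ha.1, ha.2, hp1.1, hp1.2]
        · simpa using hp
      · refine H0 a ⟨by linarith [ha.1], by linarith [ha.2]⟩ a ⟨by linarith [ha.1], by linarith [ha.2]⟩
          b ⟨by linarith [hb.1], by linarith [hb.2]⟩ q ⟨by linarith [hq1.1], by linarith [hq1.2]⟩ ?_ ?_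
        · simpa using hp
        · rw [abs_le]; constructor <;> linarith [hb.1, hb.2, hq1.1, hq1.2]
    | succ n ih =>
      intro hn u v hu hu' hv hv' a ha b hb
      have hnI : n ≤ I := by omega
      obtain ⟨m, hm⟩ : ∃ m, m = I - (n + 1) := ⟨_, rfl⟩
      have hm1 : I - n = m + 1 := by omega
      have hmI : m < I := by omega
      rw [← hm] at hu' hv' ha hb ⊢
      rw [hm1] at ih
      have hr : (0:ℝ) < R / 8 ^ m := by positivity
      have hr8 : R / 8 ^ (m + 1) = R / 8 ^ m / 8 := by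
        rw [pow_succ, div_div]
      rw [hr8] at ih
      -- the subsquare
      set r := R / 8 ^ m with hrdef
      obtain ⟨u', hu1, hu2, hu3, hu4⟩ : ∃ u', u ≤ u' ∧ u' + r / 8 ≤ u + r ∧ u' ≤ a ∧ a ≤ u' + r / 8 := by
        rcases le_total u (a - r / 8) with h | h
        · exact ⟨a - r / 8, h, by linarith [ha.2], by linarith, by linarith⟩
        · exact ⟨u, le_rfl, by linarith, ha.1, by linarith⟩
      obtain ⟨v', hv1, hv2, hv3, hv4⟩ : ∃ v', v ≤ v' ∧ v' + r / 8 ≤ v + r ∧ v' ≤ b ∧ b ≤ v' + r / 8 := by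
        rcases le_total v (b - r / 8) with h | h
        · exact ⟨b - r / 8, h, by linarith [hb.2], by linarith, by linarith⟩
        · exact ⟨v, le_rfl, by linarith, hb.1, by linarith⟩
      obtain ⟨ih1, ih2⟩ := ih hnI u' v' (by linarith) (by linarith) (by linarith) (by linarith) a
        ⟨hu3, hu4⟩ b ⟨hv3, hv4⟩
      have hsum : ∑ m' ∈ Finset.Ico m I, g m' = g m + ∑ m' ∈ Finset.Ico (m + 1) I, g m' :=
        Finset.sum_eq_sum_Ico_succ_bot hmI g
      rw [hsum]
      constructor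
      · intro p hp
        obtain ⟨q, hq, hq2⟩ := H2 m hmI u v' hu hu' (by linarith) (by linarith)
        obtain ⟨p', hp', hp'2⟩ := ih2 q hq
        refine ⟨q, ⟨by linarith [hq.1], by linarith [hq.2]⟩, ?_⟩
        have h1 := hq2 p' ⟨by linarith [hp'.1], by linarith [hp'.2]⟩ p hp
        calc dist (F a b) (F p q) ≤ dist (F a b) (F p' q) + dist (F p' q) (F p q) :=
              dist_triangle _ _ _
          _ ≤ _ := by linarith
      · intro q hq
        obtain ⟨p, hp, hp2⟩ := H1 m hmI u' v (by linarith) (by linarith) hv hv'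
        obtain ⟨q', hq', hq'2⟩ := ih1 p hp
        refine ⟨p, ⟨by linarith [hp.1], by linarith [hp.2]⟩, ?_⟩
        have h1 := hp2 q' ⟨by linarith [hq'.1], by linarith [hq'.2]⟩ q hq
        calc dist (F a b) (F p q) ≤ dist (F a b) (F p q') + dist (F p q') (F p q) :=
              dist_triangle _ _ _
          _ ≤ _ := by linarith
  intro p hp p' hp' q hq q' hq'
  have k0 := key I le_rfl A B le_rfl (by simp) le_rfl (by simp)
  simp only [Nat.sub_self, pow_zero, div_one, ← Finset.range_eq_Ico] at k0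
  obtain ⟨p0, hp0, hp02⟩ := H1 0 hI A B le_rfl (by simp; linarith) le_rfl (by simp)
  simp only [pow_zero, div_one] at hp0 hp02
  have hp0' : p0 ∈ Icc A (A + R) := ⟨hp0.1, by linarith [hp0.2]⟩
  obtain ⟨q1, hq1, h1⟩ := (k0 p hp q hq).1 p0 hp0'
  obtain ⟨q2, hq2, h2⟩ := (k0 p' hp' q' hq').1 p0 hp0'
  have h3 := hp02 q1 hq1 q2 hq2
  calc dist (F p q) (F p' q') ≤ dist (F p q) (F p0 q1) + dist (F p0 q1) (F p0 q2)
        + dist (F p0 q2) (F p' q') := dist_triangle4 _ _ _ _
    _ ≤ _ := by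
      rw [dist_comm (F p0 q2)]
      linarith

/-- Morrey type induction in a square, from good horizontal and vertical segments. -/
theorem morrey2 (F : ℝ → ℝ → E3) {R : ℝ} (hR : 0 < R) (N : ℕ) (g : ℕ → ℝ) (ω : ℝ)
    (hg : ∀ m, 0 ≤ g m)
    (hH : ∀ m ≤ N, ∀ u v w : ℝ, 0 ≤ u → u + R / 8 ^ m ≤ R → 0 ≤ v → v + R / 8 ^ m ≤ R → v ≤ w →
      w + R / 8 ^ (m + 1) ≤ v + R / 8 ^ m → ∃ y ∈ Icc w (w + R / 8 ^ (m + 1)),
        ∀ x ∈ Icc u (u + R / 8 ^ m), ∀ x' ∈ Icc u (u + R / 8 ^ m), dist (F x y) (F x' y) ≤ g m)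
    (hV : ∀ m ≤ N, ∀ u v w : ℝ, 0 ≤ u → u + R / 8 ^ m ≤ R → 0 ≤ v → v + R / 8 ^ m ≤ R → u ≤ w →
      w + R / 8 ^ (m + 1) ≤ u + R / 8 ^ m → ∃ x ∈ Icc w (w + R / 8 ^ (m + 1)),
        ∀ y ∈ Icc v (v + R / 8 ^ m), ∀ y' ∈ Icc v (v + R / 8 ^ m), dist (F x y) (F x y') ≤ g m)
    (hω : ∀ x ∈ Icc 0 R, ∀ y ∈ Icc 0 R, ∀ x' ∈ Icc 0 R, ∀ y' ∈ Icc 0 R, |x - x'| ≤ R / 8 ^ N →
      |y - y'| ≤ R / 8 ^ N → dist (F x y) (F x' y') ≤ ω) :
    ∀ x ∈ Icc 0 R, ∀ y ∈ Icc 0 R, ∀ x' ∈ Icc 0 R, ∀ y' ∈ Icc 0 R,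
      dist (F x y) (F x' y') ≤ 2 * (ω + ∑ m ∈ Finset.range N, g m) + g 0 := by
  have h8 : ∀ m : ℕ, R / 8 ^ m / 8 = R / 8 ^ (m + 1) := by
    intro m; rw [pow_succ, div_div]
  have hpos : ∀ m : ℕ, 0 < R / 8 ^ m := fun m => by positivity
  have hle : ∀ m : ℕ, R / 8 ^ m ≤ R := by
    intro m
    exact div_le_self hR.le (one_le_pow₀ (by norm_num))
  have sub : ∀ m : ℕ, ∀ w : ℝ, 0 ≤ w → w + R / 8 ^ m / 8 ≤ 0 + R →
      ∃ u, 0 ≤ u ∧ u + R / 8 ^ m ≤ R ∧ u ≤ w ∧ w + R / 8 ^ (m + 1) ≤ u + R / 8 ^ m := by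
    intro m w hw hw'
    have h1 := hle m
    have h2 := hpos m
    have h3 := h8 m
    rcases le_total w (R - R / 8 ^ m) with h | h
    · exact ⟨w, hw, by linarith, le_rfl, by rw [← h3]; linarith⟩
    · exact ⟨R - R / 8 ^ m, by linarith, by linarith, h, by rw [← h3]; linarith⟩
  rcases Nat.eq_zero_or_pos N with hN | hN
  · intro x hx y hy x' hx' y' hy'
    have h1 := hω x hx y hy x' hx' y' hy' (by
      rw [hN, pow_zero, div_one, abs_le]; constructor <;> linarith [hx.1, hx.2, hx'.1, hx'.2]) (by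
      rw [hN, pow_zero, div_one, abs_le]; constructor <;> linarith [hy.1, hy.2, hy'.1, hy'.2])
    have h2 : 0 ≤ ω := dist_nonneg.trans h1
    rw [hN, Finset.range_zero, Finset.sum_empty, add_zero]
    have := hg 0
    linarith
  · intro x hx y hy x' hx' y' hy'
    refine face_chain (A := 0) (B := 0) F hR g N ω ?_ ?_ ?_ hN x (by simpa using hx) x'
      (by simpa using hx') y (by simpa using hy) y' (by simpa using hy')
    · intro m hm u v hu hu' hv hv'
      obtain ⟨u0, a1, a2, a3, a4⟩ := sub m u hu hu'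
      obtain ⟨p, hp, hp2⟩ := hV m hm.le u0 v u a1 a2 hv (by linarith) a3 a4
      exact ⟨p, by rw [h8]; exact hp, hp2⟩
    · intro m hm u v hu hu' hv hv'
      obtain ⟨v0, a1, a2, a3, a4⟩ := sub m v hv hv'
      obtain ⟨q, hq, hq2⟩ := hH m hm.le u v0 v hu (by linarith) a1 a2 a3 a4
      exact ⟨q, by rw [h8]; exact hq, hq2⟩
    · intro p hp p' hp' q hq q' hq' h1 h2
      exact hω p (by simpa using hp) q (by simpa using hq) p' (by simpa using hp') q'
        (by simpa using hq') h1 h2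

end Pool.Agent.Lib.MP_8effdd_an.CM
end

section

set_option autoImplicit false

open MeasureTheory Filter Topology Metric Set
open scoped ENNReal

namespace Pool.Agent.Lib.MP_8effdd_an.CM

namespace FaceAux

/-- the big box -/
def QQ (a : E3) (R : ℝ) : Set E3 := {z | ∀ m, a m - R ≤ z m ∧ z m ≤ a m + 2 * R}

theorem QQ_compact (a : E3) (R : ℝ) : IsCompact (QQ a R) := by
  have h : QQ a R = (EuclideanSpace.equiv (Fin 3) ℝ).symm ''
      (Icc (fun m => a m - R) (fun m => a m + 2 * R)) := by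
    ext z
    simp only [QQ, mem_ofPred_eq, mem_image, mem_Icc, Pi.le_def]
    constructor
    · intro hz
      exact ⟨EuclideanSpace.equiv (Fin 3) ℝ z, ⟨fun m => (hz m).1, fun m => (hz m).2⟩, by simp⟩
    · rintro ⟨w, ⟨h1, h2⟩, rfl⟩ m
      exact ⟨h1 m, h2 m⟩
  rw [h]
  exact isCompact_Icc.image (EuclideanSpace.equiv (Fin 3) ℝ).symm.continuous

/-- point of the plane -/
noncomputable def P (i d : Fin 3) (a : E3) (c x y : ℝ) : E3 :=
  pt (fun m => if m = i then c else if m = d then a m + x else a m + y)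

theorem P_i (i d : Fin 3) (a : E3) (c x y : ℝ) : P i d a c x y i = c := by simp [P]

theorem P_d {i d : Fin 3} (h : i ≠ d) (a : E3) (c x y : ℝ) : P i d a c x y d = a d + x := by
  simp [P, h.symm]

theorem P_e {i d e : Fin 3} (h : i ≠ e) (h' : d ≠ e) (a : E3) (c x y : ℝ) :
    P i d a c x y e = a e + y := by
  simp [P, h.symm, h'.symm]

theorem fin3 {i d e : Fin 3} (h : i ≠ d) (h' : i ≠ e) (h'' : d ≠ e) (m : Fin 3) :
    m = i ∨ m = d ∨ m = e := by
  revert i d e m
  decide

theorem sum3 {i d e : Fin 3} (h : i ≠ d) (h' : i ≠ e) (h'' : d ≠ e) (g : Fin 3 → ℝ) :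
    ∑ m, g m = g i + g d + g e := by
  have : (Finset.univ : Finset (Fin 3)) = {i, d, e} := by
    revert i d e
    decide
  rw [this, Finset.sum_insert, Finset.sum_insert, Finset.sum_singleton]
  · ring
  · simpa using h''
  · simp [h, h']

theorem dist_P {i d e : Fin 3} (h : i ≠ d) (h' : i ≠ e) (h'' : d ≠ e) (a : E3) (c x y x' y' : ℝ) :
    dist (P i d a c x y) (P i d a c x' y') ≤ |x - x'| + |y - y'| := by
  rw [EuclideanSpace.dist_eq, sum3 h h' h'']
  simp only [P_i, P_d h, P_e h' h'', Real.dist_eq]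
  apply Real.sqrt_le_iff.mpr
  constructor
  · positivity
  · have h1 : a d + x - (a d + x') = x - x' := by ring
    have h2 : a e + y - (a e + y') = y - y' := by ring
    rw [h1, h2]
    have : 0 ≤ |x - x'| * |y - y'| := by positivity
    simp only [sub_self, abs_zero]
    nlinarith

theorem eq_P {i d e : Fin 3} (h : i ≠ d) (h' : i ≠ e) (h'' : d ≠ e) (a : E3) {c : ℝ} {x : E3}
    (hx : x i = c) : x = P i d a c (x d - a d) (x e - a e) := by
  ext m
  rcases fin3 h h' h'' m with rfl | rfl | rfl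
  · rw [P_i, hx]
  · rw [P_d h]; ring
  · rw [P_e h' h'']; ring

theorem rpow_bound {V r R s : ℝ} (m : ℕ) (hV : 0 ≤ V) (hR : 0 < R) (hs : 0 < s)
    (hr : r = R / 8 ^ m) {E : ℝ} (hE0 : 0 ≤ E) (hE : E ≤ 1000 * s / r * (1000 * s / R * V)) :
    ((r / s) ^ 2 * E) ^ (1 / 3 : ℝ) ≤ 100 * (1 / 2) ^ m * V ^ (1 / 3 : ℝ) := by
  have hr0 : 0 < r := by rw [hr]; positivity
  have h1 : (r / s) ^ 2 * E ≤ (100 * (1 / 2) ^ m) ^ 3 * V := by
    calc (r / s) ^ 2 * E ≤ (r / s) ^ 2 * (1000 * s / r * (1000 * s / R * V)) := by gcongr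
      _ = 1000000 * (r / R) * V := by field_simp; ring
      _ = (100 * (1 / 2) ^ m) ^ 3 * V := by
        have : r / R = ((1 / 2) ^ m) ^ 3 := by
          rw [hr, ← pow_mul, mul_comm m 3, pow_mul]
          field_simp
          norm_num
          rw [← mul_pow]
          norm_num
        rw [this]; ring
  calc ((r / s) ^ 2 * E) ^ (1 / 3 : ℝ) ≤ ((100 * (1 / 2) ^ m) ^ 3 * V) ^ (1 / 3 : ℝ) := by
        apply Real.rpow_le_rpow _ h1 (by norm_num)
        positivity
    _ = 100 * (1 / 2) ^ m * V ^ (1 / 3 : ℝ) := by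
        rw [Real.mul_rpow (by positivity) hV, ← Real.rpow_natCast, ← Real.rpow_mul (by positivity)]
        norm_num

end FaceAux

open FaceAux

/-- Morrey type bound on a face. -/
theorem face_bound {C : ℝ} (hC : 0 < C) : ∃ C' : ℝ, 0 < C' ∧ ∀ (f : E3 → E3) (ν : Measure E3),
    Continuous f → (∀ x l, ν (cube x l) ≠ ⊤) → RowIneq f ν C →
    ∀ (i : Fin 3) (a : E3) (R ε : ℝ), 0 < R → 0 < ε → ∃ c ∈ Icc (a i) (a i + R / 4),
      ∀ x y : E3, x i = c → y i = c → (∀ m, m ≠ i → a m ≤ x m ∧ x m ≤ a m + R) →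
        (∀ m, m ≠ i → a m ≤ y m ∧ y m ≤ a m + R) →
        dist (f x) (f y) ≤
          C' * ((ν {z | ∀ m, a m - R ≤ z m ∧ z m ≤ a m + 2 * R}).toReal) ^ (1 / 3 : ℝ) + ε := by
  refine ⟨500 * C, by positivity, fun f ν hf hν hrow i a R ε hR hε => ?_⟩
  obtain ⟨d, e, hid, hie, hde⟩ : ∃ d e : Fin 3, i ≠ d ∧ i ≠ e ∧ d ≠ e := by
    revert i
    decide
  set V : ℝ := (ν {z | ∀ m, a m - R ≤ z m ∧ z m ≤ a m + 2 * R}).toReal with hVdef
  have hV : 0 ≤ V := ENNReal.toReal_nonneg
  -- uniform continuity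
  have hK := QQ_compact a R
  have huc := hK.uniformContinuousOn_of_continuous hf.continuousOn
  rw [Metric.uniformContinuousOn_iff] at huc
  obtain ⟨δ₀, hδ₀, huc⟩ := huc (ε / 8) (by positivity)
  obtain ⟨B, hB⟩ := hK.isBounded.subset_closedBall (0 : E3)
  -- number of steps
  obtain ⟨N, hN⟩ : ∃ N : ℕ, 2 * (R / 8 ^ N) < δ₀ := by
    obtain ⟨N, hN⟩ := exists_pow_lt_of_lt_one (show 0 < δ₀ / (2 * R) by positivity)
      (show (1 / 8 : ℝ) < 1 by norm_num)
    refine ⟨N, ?_⟩
    rw [lt_div_iff₀ (by positivity)] at hN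
    calc 2 * (R / 8 ^ N) = (1 / 8) ^ N * (2 * R) := by rw [one_div, inv_pow]; ring
      _ < δ₀ := hN
  set ε' : ℝ := ε / (8 * (N + 1)) with hε'
  have hε'0 : 0 < ε' := by positivity
  obtain ⟨s, hs, hsδ, hrow⟩ := hrow B ε' hε'0 (R / 8 ^ N / 1000) (by positivity)
  have hsN : 1000 * s ≤ R / 8 ^ N := by
    rw [lt_div_iff₀ (by norm_num)] at hsδ
    linarith
  have hpow : ∀ m ≤ N, R / 8 ^ N ≤ R / 8 ^ m := fun m hm => by
    have : (8 : ℝ) ^ m ≤ 8 ^ N := pow_le_pow_right₀ (by norm_num) hm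
    gcongr
  have hpow1 : ∀ m : ℕ, R / 8 ^ m ≤ R := fun m => by
    apply div_le_self hR.le
    exact one_le_pow₀ (by norm_num)
  obtain ⟨c, hc, hslab⟩ := good_slab ν hν i a hs (hsN.trans (hpow1 N))
  refine ⟨c, hc, ?_⟩
  set W : ℝ := (ν {z | |z i - c| ≤ 8 * s ∧ ∀ m, a m - R ≤ z m ∧ z m ≤ a m + 2 * R}).toReal
    with hWdef
  have hpow8 : ∀ m : ℕ, R / 8 ^ (m + 1) = R / 8 ^ m / 8 := fun m => by
    rw [pow_succ]; field_simp
  -- the energy of a good tube
  have hseg : ∀ (m : ℕ), m ≤ N → ∀ (d' : Fin 3) (b' : E3), b' i = c → d' ≠ i →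
      (∀ m', m' ≠ i → m' ≠ d' → a m' ≤ b' m' ∧ b' m' ≤ a m' + R) → a d' ≤ b' d' →
      b' d' + R / 8 ^ m ≤ a d' + R →
      (ν (tube d' b' (R / 8 ^ m) s)).toReal ≤ 1000 * s / (R / 8 ^ m) * W →
      ∀ x ∈ seg d' b' (R / 8 ^ m), ∀ y ∈ seg d' b' (R / 8 ^ m), dist (f x) (f y) ≤
        100 * C * (1 / 2) ^ m * V ^ (1 / 3 : ℝ) + ε' := by
    intro m hm d' b' hbi hdi hb h1 h2 hen x hx y hy
    have hsub : seg d' b' (R / 8 ^ m) ⊆ closedBall 0 B := by
      refine Subset.trans ?_ hB
      intro z hz m'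
      have hpm := hpow1 m
      have hpm0 : 0 < R / 8 ^ m := by positivity
      by_cases hm' : m' = d'
      · subst hm'
        have := hz.2
        constructor <;> linarith
      · rw [hz.1 m' hm']
        by_cases hmi : m' = i
        · subst hmi
          rw [hbi]
          have h3 := hc.1
          have h4 := hc.2
          constructor <;> linarith
        · have := hb m' hmi hm'
          constructor <;> linarith
    have h3 := hrow d' b' (R / 8 ^ m) (by
      have := hpow m hm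
      linarith) hsub x hx y hy
    have h4 := rpow_bound (V := V) (r := R / 8 ^ m) (R := R) (s := s) m hV hR hs rfl
      (E := (ν (tube d' b' (R / 8 ^ m) s)).toReal) ENNReal.toReal_nonneg (hen.trans (by gcongr))
    calc dist (f x) (f y) ≤ C * ((R / 8 ^ m / s) ^ 2 *
          (ν (tube d' b' (R / 8 ^ m) s)).toReal) ^ (1 / 3 : ℝ) + ε' := h3
      _ ≤ C * (100 * (1 / 2) ^ m * V ^ (1 / 3 : ℝ)) + ε' := by gcongr
      _ = _ := by ring
  have key := morrey2 (fun x y => f (P i d a c x y)) hR N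
    (fun m => 100 * C * (1 / 2) ^ m * V ^ (1 / 3 : ℝ) + ε') (ε / 8) (fun m => by positivity)
    ?_ ?_ ?_
  · intro x y hx hy hx' hy'
    have h1 := key (x d - a d) ?_ (x e - a e) ?_ (y d - a d) ?_ (y e - a e) ?_
    · rw [eq_P hid hie hde a hx, eq_P hid hie hde a hy]
      refine h1.trans ?_
      rw [Finset.sum_add_distrib, Finset.sum_const, Finset.card_range, nsmul_eq_mul,
        ← Finset.sum_mul, ← Finset.mul_sum]
      have h2 : ∑ m ∈ Finset.range N, (1 / 2 : ℝ) ^ m ≤ 2 := by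
        rw [geom_sum_eq (by norm_num)]
        have : (0 : ℝ) < (1 / 2) ^ N := by positivity
        norm_num
        linarith
      have hV3 : 0 ≤ V ^ (1 / 3 : ℝ) := by positivity
      have h3 : 100 * C * (∑ m ∈ Finset.range N, (1 / 2 : ℝ) ^ m) * V ^ (1 / 3 : ℝ) ≤
          100 * C * 2 * V ^ (1 / 3 : ℝ) := by gcongr
      have h4 : (2 * N + 1) * ε' ≤ ε / 4 := by
        rw [hε']
        rw [mul_div_assoc', div_le_iff₀ (by positivity)]
        nlinarith [show (0 : ℝ) ≤ N from Nat.cast_nonneg N]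
      simp only [pow_zero]
      nlinarith
    · have := hx' d hid.symm; constructor <;> linarith
    · have := hx' e hie.symm; constructor <;> linarith
    · have := hy' d hid.symm; constructor <;> linarith
    · have := hy' e hie.symm; constructor <;> linarith
  · -- horizontal
    intro m hm u v w hu huR hv hvR hvw hw
    rw [hpow8] at hw
    obtain ⟨t, ht, hseg'⟩ := good_seg ν hν hid hie hde a (R := R) (s := s) (r := R / 8 ^ m)
      (c := c) hs (hsN.trans (hpow m hm)) (hpow1 m) (P i d a c u 0) (P_i _ _ _ _ _ _)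
      (by rw [P_d hid]; linarith) (by rw [P_d hid]; linarith) (a e + w) (by linarith)
      (by linarith) hc.1 hc.2
    refine ⟨t - a e, ?_, ?_⟩
    · rw [hpow8]
      constructor
      · linarith [ht.1]
      · linarith [ht.2]
    · intro x hx x' hx'
      have hen := hseg' (P i d a c u (t - a e)) (by rw [P_i, P_i]) (by rw [P_d hid, P_d hid])
        (by rw [P_e hie hde]; ring)
      apply hseg m hm d (P i d a c u (t - a e)) (P_i _ _ _ _ _ _) hid.symm ?_ ?_ ?_ hen
      · refine ⟨?_, ?_, ?_⟩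
        · intro m' hm'
          rcases fin3 hid hie hde m' with rfl | rfl | rfl
          · rw [P_i, P_i]
          · exact absurd rfl hm'
          · rw [P_e hie hde, P_e hie hde]
        · rw [P_d hid, P_d hid]; linarith [hx.1]
        · rw [P_d hid, P_d hid]; linarith [hx.2]
      · refine ⟨?_, ?_, ?_⟩
        · intro m' hm'
          rcases fin3 hid hie hde m' with rfl | rfl | rfl
          · rw [P_i, P_i]
          · exact absurd rfl hm'
          · rw [P_e hie hde, P_e hie hde]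
        · rw [P_d hid, P_d hid]; linarith [hx'.1]
        · rw [P_d hid, P_d hid]; linarith [hx'.2]
      · intro m' h1 h2
        rcases fin3 hid hie hde m' with rfl | rfl | rfl
        · exact absurd rfl h1
        · exact absurd rfl h2
        · rw [P_e hie hde]
          have h3 := ht.1
          have h4 := ht.2
          constructor <;> linarith
      · rw [P_d hid]; linarith
      · rw [P_d hid]; linarith
  · -- vertical
    intro m hm u v w hu huR hv hvR huw hw
    rw [hpow8] at hw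
    obtain ⟨t, ht, hseg'⟩ := good_seg ν hν hie hid hde.symm a (R := R) (s := s) (r := R / 8 ^ m)
      (c := c) hs (hsN.trans (hpow m hm)) (hpow1 m) (P i d a c 0 v) (P_i _ _ _ _ _ _)
      (by rw [P_e hie hde]; linarith) (by rw [P_e hie hde]; linarith) (a d + w) (by linarith)
      (by linarith) hc.1 hc.2
    refine ⟨t - a d, ?_, ?_⟩
    · rw [hpow8]
      constructor
      · linarith [ht.1]
      · linarith [ht.2]
    · intro y hy y' hy'
      have hen := hseg' (P i d a c (t - a d) v) (by rw [P_i, P_i])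
        (by rw [P_e hie hde, P_e hie hde]) (by rw [P_d hid]; ring)
      apply hseg m hm e (P i d a c (t - a d) v) (P_i _ _ _ _ _ _) hie.symm ?_ ?_ ?_ hen
      · refine ⟨?_, ?_, ?_⟩
        · intro m' hm'
          rcases fin3 hid hie hde m' with rfl | rfl | rfl
          · rw [P_i, P_i]
          · rw [P_d hid, P_d hid]
          · exact absurd rfl hm'
        · rw [P_e hie hde, P_e hie hde]; linarith [hy.1]
        · rw [P_e hie hde, P_e hie hde]; linarith [hy.2]
      · refine ⟨?_, ?_, ?_⟩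
        · intro m' hm'
          rcases fin3 hid hie hde m' with rfl | rfl | rfl
          · rw [P_i, P_i]
          · rw [P_d hid, P_d hid]
          · exact absurd rfl hm'
        · rw [P_e hie hde, P_e hie hde]; linarith [hy'.1]
        · rw [P_e hie hde, P_e hie hde]; linarith [hy'.2]
      · intro m' h1 h2
        rcases fin3 hid hie hde m' with rfl | rfl | rfl
        · exact absurd rfl h1
        · rw [P_d hid]
          have h3 := ht.1
          have h4 := ht.2
          constructor <;> linarith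
        · exact absurd rfl h2
      · rw [P_e hie hde]; linarith
      · rw [P_e hie hde]; linarith
  · -- modulus of continuity
    intro x hx y hy x' hx' y' hy' hxx hyy
    have hin : ∀ x ∈ Icc (0 : ℝ) R, ∀ y ∈ Icc (0 : ℝ) R, P i d a c x y ∈ QQ a R := by
      intro x hx y hy m
      have h3 := hc.1
      have h4 := hc.2
      have h5 := hx.1
      have h6 := hx.2
      have h7 := hy.1
      have h8 := hy.2
      rcases fin3 hid hie hde m with rfl | rfl | rfl
      · rw [P_i]; constructor <;> linarith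
      · rw [P_d hid]; constructor <;> linarith
      · rw [P_e hie hde]; constructor <;> linarith
    refine (huc _ (hin x hx y hy) _ (hin x' hx' y' hy') ?_).le
    refine (dist_P hid hie hde a c x y x' y').trans_lt ?_
    linarith

end Pool.Agent.Lib.MP_8effdd_an.CM
end

section

set_option autoImplicit false

open MeasureTheory Filter Topology Metric Set
open scoped ENNReal

namespace Pool.Agent.Lib.MP_8effdd_an.CM

/-- there is no continuous logarithm on the circle -/
theorem wind_no_log (k : Circle → ℂ) (hk : Continuous k) (hke : ∀ z : Circle, Complex.exp (k z) = z) :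
    False := by
  have hI : (2 * (Real.pi : ℂ) * Complex.I) ≠ 0 := Complex.two_pi_I_ne_zero
  obtain ⟨r, hr⟩ : ∃ r : ℝ → ℝ, r = fun θ : ℝ =>
      ((k (Circle.exp θ) - θ * Complex.I) / (2 * (Real.pi : ℂ) * Complex.I)).re := ⟨_, rfl⟩
  have hrc : Continuous r := by
    rw [hr]
    refine Complex.continuous_re.comp ?_
    refine Continuous.div_const ?_ _
    refine Continuous.sub (hk.comp Circle.exp.continuous) ?_
    exact (Complex.continuous_ofReal).mul continuous_const
  have hint : ∀ θ : ℝ, ∃ n : ℤ, r θ = n := by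
    intro θ
    have h1 : Complex.exp (k (Circle.exp θ) - θ * Complex.I) = 1 := by
      rw [Complex.exp_sub, hke, Circle.coe_exp, div_self (Complex.exp_ne_zero _)]
    obtain ⟨n, hn⟩ := Complex.exp_eq_one_iff.mp h1
    refine ⟨n, ?_⟩
    rw [hr]
    show ((k (Circle.exp θ) - θ * Complex.I) / (2 * (Real.pi : ℂ) * Complex.I)).re = n
    rw [hn, mul_div_assoc, div_self hI, mul_one, Complex.intCast_re]
  have hdiff : r (2 * Real.pi) = r 0 - 1 := by
    rw [hr]
    show ((k (Circle.exp (2 * Real.pi)) - ((2 * Real.pi : ℝ) : ℂ) * Complex.I) /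
      (2 * (Real.pi : ℂ) * Complex.I)).re =
      ((k (Circle.exp 0) - ((0 : ℝ) : ℂ) * Complex.I) / (2 * (Real.pi : ℂ) * Complex.I)).re - 1
    rw [Circle.exp_two_pi, Circle.exp_zero]
    have : ((2 * Real.pi : ℝ) : ℂ) * Complex.I = 2 * (Real.pi : ℂ) * Complex.I := by
      push_cast
      ring
    rw [this, sub_div, div_self hI, Complex.sub_re, Complex.one_re]
    simp
  obtain ⟨n, hn⟩ := hint 0
  have hiv := intermediate_value_Icc' (show (0 : ℝ) ≤ 2 * Real.pi by positivity) hrc.continuousOn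
  have hmem : (n : ℝ) - 1 / 2 ∈ Icc (r (2 * Real.pi)) (r 0) := by
    rw [hdiff, hn]
    constructor <;> linarith
  obtain ⟨θ, -, hθ⟩ := hiv hmem
  obtain ⟨m, hm⟩ := hint θ
  rw [hm] at hθ
  have h2 : (2 * m : ℝ) = 2 * n - 1 := by linarith
  have h3 : (2 * m : ℤ) = 2 * n - 1 := by exact_mod_cast h2
  omega

/-- A homotopy in the punctured plane starting at a constant loop cannot end at a loop which is
within the half plane around the identity loop. -/
theorem wind (G : unitInterval × Circle → ℂ) (hG : Continuous G) (h0 : ∀ x, G x ≠ 0) (c : ℂ)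
    (hc : ∀ z, G (0, z) = c) :
    ¬ ∀ z : Circle, 0 < (G (1, z) * (starRingEnd ℂ) (z : ℂ)).re := by
  intro hre
  have hc0 : c ≠ 0 := by
    rw [← hc 1]
    exact h0 _
  let H : C(unitInterval × Circle, {z : ℂ // z ≠ 0}) := ⟨fun x => ⟨G x, h0 x⟩, hG.subtype_mk _⟩
  let f : C(Circle, ℂ) := ContinuousMap.const _ (Complex.log c)
  have H0 : ∀ a, H (0, a) = (fun z : ℂ ↦ (⟨_, z.exp_ne_zero⟩ : {z : ℂ // z ≠ 0})) (f a) := by
    intro a
    apply Subtype.ext
    show G (0, a) = Complex.exp (Complex.log c)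
    rw [hc, Complex.exp_log hc0]
  let L := Complex.isCoveringMap_exp.liftHomotopy H f H0
  have hL : ∀ z, Complex.exp (L (1, z)) = G (1, z) := by
    intro z
    have := congrFun (Complex.isCoveringMap_exp.liftHomotopy_lifts H f H0) (1, z)
    exact congrArg Subtype.val this
  have hG1 : Continuous fun z : Circle => G (1, z) * (starRingEnd ℂ) (z : ℂ) :=
    (hG.comp (Continuous.prodMk_right 1)).mul (Complex.continuous_conj.comp continuous_subtype_val)
  refine wind_no_log
    (fun z => L (1, z) - Complex.log (G (1, z) * (starRingEnd ℂ) (z : ℂ))) ?_ fun z => ?_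
  · refine Continuous.sub (L.continuous.comp (Continuous.prodMk_right 1)) ?_
    exact hG1.clog fun z => Or.inl (hre z)
  · have hne : G (1, z) * (starRingEnd ℂ) (z : ℂ) ≠ 0 := by
      intro e
      have := hre z
      rw [e] at this
      simp at this
    rw [Complex.exp_sub, hL, Complex.exp_log hne]
    have h1 : (z : ℂ) * (starRingEnd ℂ) (z : ℂ) = 1 := by
      rw [Complex.mul_conj, Circle.normSq_coe]
      simp
    rw [div_eq_iff hne]
    linear_combination (- G (1, z)) * h1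

end Pool.Agent.Lib.MP_8effdd_an.CM
end

section

set_option autoImplicit false

open MeasureTheory Filter Topology Metric Set
open scoped ENNReal

namespace Pool.Agent.Lib.MP_8effdd_an.CM

/-- Linking lemma. -/
theorem link (f : E3 ≃ₜ E3) (γ : Circle → E3) (hγ : Continuous γ) (φ : E3 → ℂ)
    (hφ : Continuous φ) (hpos : ∀ z : Circle, 0 < (φ (γ z) * (starRingEnd ℂ) (z : ℂ)).re)
    (p : E3) (L : ℝ) (hb : ∀ z, f (γ z) ∈ closedBall p L) :
    ∃ x, φ x = 0 ∧ f x ∈ closedBall p L := by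
  by_contra hcon
  push Not at hcon
  refine wind (fun x => φ (f.symm (p + (x.1 : ℝ) • (f (γ x.2) - p)))) ?_ ?_ (φ (f.symm p)) ?_ ?_
  · refine hφ.comp (f.symm.continuous.comp ?_)
    refine continuous_const.add (Continuous.smul (continuous_subtype_val.comp continuous_fst) ?_)
    exact (f.continuous.comp (hγ.comp continuous_snd)).sub continuous_const
  · rintro ⟨s, z⟩ e
    refine hcon _ e ?_
    rw [Homeomorph.apply_symm_apply, mem_closedBall, dist_eq_norm, add_sub_cancel_left, norm_smul]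
    have h1 : ‖((s : ℝ))‖ ≤ 1 := by
      rw [Real.norm_eq_abs, abs_of_nonneg s.2.1]
      exact s.2.2
    have h2 : ‖f (γ z) - p‖ ≤ L := by
      rw [← dist_eq_norm]
      exact hb z
    calc ‖(s : ℝ)‖ * ‖f (γ z) - p‖ ≤ 1 * ‖f (γ z) - p‖ :=
          mul_le_mul_of_nonneg_right h1 (norm_nonneg _)
      _ ≤ L := by rw [one_mul]; exact h2
  · intro z
    simp
  · intro z
    have e : p + ((1 : unitInterval) : ℝ) • (f (γ z) - p) = f (γ z) := by simp
    show 0 < (φ (f.symm (p + ((1 : unitInterval) : ℝ) • (f (γ z) - p))) *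
      (starRingEnd ℂ) (z : ℂ)).re
    rw [e, Homeomorph.symm_apply_apply]
    exact hpos z

end Pool.Agent.Lib.MP_8effdd_an.CM
end

section

set_option autoImplicit false

open MeasureTheory Filter Topology Metric Set
open scoped ENNReal

namespace Pool.Agent.Lib.MP_8effdd_an.CM

/-- In an open set of `E3` no point has maximal distance from a given point. -/
theorem exists_farther {O : Set E3} (hO : IsOpen O) {p q : E3} (hq : q ∈ O) :
    ∃ w ∈ O, dist q p < dist w p := by
  obtain ⟨ε, hε, hball⟩ := Metric.isOpen_iff.mp hO q hq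
  rcases eq_or_ne q p with rfl | hne
  · obtain ⟨w, hw⟩ : ∃ w : E3, ‖w‖ = ε / 2 := by
      refine ⟨EuclideanSpace.single 0 (ε / 2), ?_⟩
      simp [abs_of_pos hε]
    refine ⟨q + w, hball ?_, ?_⟩
    · rw [mem_ball, dist_eq_norm]
      simp only [add_sub_cancel_left, hw]
      linarith
    · rw [dist_self, dist_eq_norm]
      simp only [add_sub_cancel_left, hw]
      positivity
  · have hd : 0 < dist q p := dist_pos.mpr hne
    set t : ℝ := ε / (2 * dist q p) with ht
    have htpos : 0 < t := by positivity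
    refine ⟨q + t • (q - p), hball ?_, ?_⟩
    · rw [mem_ball, dist_eq_norm]
      simp only [add_sub_cancel_left, norm_smul, ← dist_eq_norm, Real.norm_eq_abs,
        abs_of_pos htpos]
      have : t * dist q p = ε / 2 := by rw [ht]; field_simp
      linarith
    · have e : q + t • (q - p) - p = (1 + t) • (q - p) := by
        rw [add_smul, one_smul]; abel
      rw [dist_eq_norm (q + t • (q - p)) p, e, norm_smul, ← dist_eq_norm, Real.norm_eq_abs,
        abs_of_pos (by positivity)]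
      nlinarith

/-- The sphere is nonempty. -/
theorem sphere_point (x : E3) {r : ℝ} (hr : 0 ≤ r) : ∃ y : E3, dist y x = r := by
  refine ⟨x + EuclideanSpace.single 0 r, ?_⟩
  simp [dist_eq_norm, abs_of_nonneg hr]

/-- A homeomorphism of bounded distortion on one sphere: image of the ball. -/
theorem ball_image (f : E3 ≃ₜ E3) {H : ℝ} {x : E3} {r : ℝ} (hr : 0 < r)
    (h : ∀ y z : E3, dist y x = r → dist z x = r → dist (f y) (f x) ≤ H * dist (f z) (f x)) :
    ∃ l : ℝ, 0 < l ∧ ball (f x) l ⊆ f '' ball x r ∧ f '' closedBall x r ⊆ closedBall (f x) (H * l) := by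
  have hcont : Continuous fun z => dist (f z) (f x) := by fun_prop
  obtain ⟨z₀, hz₀, hmin⟩ := (isCompact_sphere x r).exists_isMinOn
    (by obtain ⟨y, hy⟩ := sphere_point x hr.le; exact ⟨y, hy⟩) hcont.continuousOn
  have hz₀x : z₀ ≠ x := by
    rintro rfl
    rw [mem_sphere, dist_self] at hz₀
    exact hr.ne hz₀
  refine ⟨dist (f z₀) (f x), dist_pos.mpr fun hh => hz₀x (f.injective hh), ?_, ?_⟩
  · -- the connected set `f ⁻¹ ball` does not meet the sphere
    set V : Set E3 := f ⁻¹' ball (f x) (dist (f z₀) (f x)) with hV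
    have hVc : IsPreconnected V := by
      have : V = f.symm '' ball (f x) (dist (f z₀) (f x)) := by
        rw [hV, f.symm.image_eq_preimage_symm]; rfl
      rw [this]
      exact (convex_ball _ _).isPreconnected.image _ f.symm.continuous.continuousOn
    have hxV : x ∈ V := by
      simp only [hV, mem_preimage, mem_ball, dist_self]
      exact dist_pos.mpr fun hh => hz₀x (f.injective hh)
    have hsub : V ⊆ ball x r := by
      by_contra hcon
      rw [not_subset] at hcon
      obtain ⟨w, hwV, hw⟩ := hcon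
      rw [mem_ball, not_lt] at hw
      have hd : ContinuousOn (fun z => dist z x) V := by fun_prop
      have := hVc.intermediate_value hxV hwV hd
      obtain ⟨z, hzV, hz⟩ := this ⟨by simpa using hr.le, hw⟩
      have h1 : dist (f z) (f x) < dist (f z₀) (f x) := hzV
      have h2 := hmin (show z ∈ sphere x r from hz)
      simp only [mem_ofPred_eq] at h2
      linarith
    intro w hw
    refine ⟨f.symm w, hsub ?_, by simp⟩
    simpa [hV] using hw
  · -- maximum on the sphere
    obtain ⟨w, hw, hmax⟩ := (isCompact_closedBall x r).exists_isMaxOn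
      ⟨x, mem_closedBall_self hr.le⟩ hcont.continuousOn
    have hwS : dist w x = r := by
      by_contra hne
      have hlt : w ∈ ball x r := lt_of_le_of_ne hw hne
      obtain ⟨v, hv, hv'⟩ := exists_farther (f.isOpenMap _ isOpen_ball)
        (mem_image_of_mem f hlt) (p := f x)
      obtain ⟨u, hu, rfl⟩ := hv
      have := hmax (ball_subset_closedBall hu)
      simp only [mem_ofPred_eq] at this
      linarith
    rintro _ ⟨v, hv, rfl⟩
    rw [mem_closedBall]
    have h1 := hmax hv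
    simp only [mem_ofPred_eq] at h1
    exact h1.trans (h w z₀ hwS hz₀)

end Pool.Agent.Lib.MP_8effdd_an.CM
end

section

set_option autoImplicit false

open MeasureTheory Filter Topology Metric Set
open scoped ENNReal

namespace Pool.Agent.Lib.MP_8effdd_an.CM

/-- The diameter of a connected set is at most the sum of the diameters of the covering sets which
meet it. -/
theorem diam_le_sum {α : Type*} (S : Set E3) (hS : IsPreconnected S) (J : Finset α)
    (B : α → Set E3) (c : α → E3) (D : α → ℝ) (hB : ∀ j ∈ J, B j ⊆ closedBall (c j) (D j))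
    (hD : ∀ j ∈ J, 0 ≤ D j) (P : α → Prop) [DecidablePred P]
    (hP : ∀ j ∈ J, (B j ∩ S).Nonempty → P j) (cov : S ⊆ ⋃ j ∈ J, B j) :
    diam S ≤ ∑ j ∈ J with P j, 2 * D j := by
  have hnn : 0 ≤ ∑ j ∈ J with P j, 2 * D j :=
    Finset.sum_nonneg fun j hj => mul_nonneg zero_le_two (hD j (Finset.mem_filter.mp hj).1)
  refine diam_le_of_forall_dist_le hnn fun q hq p hp => ?_
  have h1 : Icc 0 (dist q p) ⊆ (fun x => dist x p) '' S := by
    refine (hS.image (fun x => dist x p) (by fun_prop)).Icc_subset ⟨p, hp, dist_self p⟩ ⟨q, hq, rfl⟩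
  have h2 : Icc 0 (dist q p) ⊆
      ⋃ j ∈ J.filter P, Icc (dist (c j) p - D j) (dist (c j) p + D j) := by
    intro t ht
    obtain ⟨x, hx, rfl⟩ := h1 ht
    obtain ⟨j, hj, hxj⟩ := mem_iUnion₂.mp (cov hx)
    have hPj : P j := hP j hj ⟨x, hxj, hx⟩
    refine mem_iUnion₂.mpr ⟨j, Finset.mem_filter.mpr ⟨hj, hPj⟩, ?_⟩
    have h3 : dist x (c j) ≤ D j := hB j hj hxj
    have h4 := dist_triangle x (c j) p
    have h5 := dist_triangle (c j) x p
    rw [dist_comm (c j) x] at h5
    exact ⟨by linarith, by linarith⟩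
  have h3 : volume (Icc 0 (dist q p)) ≤ ∑ j ∈ J.filter P,
      volume (Icc (dist (c j) p - D j) (dist (c j) p + D j)) :=
    (measure_mono h2).trans (measure_biUnion_finset_le _ _)
  have h4 : ∀ j ∈ J.filter P, volume (Icc (dist (c j) p - D j) (dist (c j) p + D j)) =
      ENNReal.ofReal (2 * D j) := by
    intro j _
    rw [Real.volume_Icc]
    congr 1
    ring
  rw [Finset.sum_congr rfl h4, Real.volume_Icc, sub_zero, ← ENNReal.ofReal_sum_of_nonneg
    fun j hj => mul_nonneg zero_le_two (hD j (Finset.mem_filter.mp hj).1)] at h3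
  exact (ENNReal.ofReal_le_ofReal_iff hnn).mp h3

end Pool.Agent.Lib.MP_8effdd_an.CM
end
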