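import Mathlib
import Pool.Agent.Lib.MP_8effdd_an.CM.Defs
import Pool.Agent.Lib.MP_8effdd_an.CM.Cube
import Pool.Agent.Lib.MP_8effdd_an.Mg.G001

section

set_option autoImplicit false

open MeasureTheory Filter Topology Metric Set
open scoped ENNReal

namespace Pool.Agent.Lib.MP_8effdd_an.CM

/-- A ray from a point of a compact set meets the frontier. -/
theorem exists_ray_frontier {K : Set E3} (hK : IsCompact K) {p e : E3} (hp : p ∈ K)
    (he : ‖e‖ = 1) : ∃ t : ℝ, 0 ≤ t ∧ p + t • e ∈ frontier K := by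
  have hcont : Continuous (fun t : ℝ => p + t • e) := by fun_prop
  set S : Set ℝ := {t : ℝ | 0 ≤ t} ∩ (fun t : ℝ => p + t • e) ⁻¹' K with hS
  have hSc : IsClosed S := (isClosed_le continuous_const continuous_id).inter
    (hK.isClosed.preimage hcont)
  obtain ⟨M, hM⟩ := hK.isBounded.subset_closedBall p
  have hSb : S ⊆ Icc 0 M := by
    rintro t ⟨ht0, htK⟩
    refine ⟨ht0, ?_⟩
    have h1 := hM htK
    rw [mem_closedBall, dist_eq_norm] at h1
    have h2 : p + t • e - p = t • e := by abel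
    have ht0' : 0 ≤ t := ht0
    simp only [h2, norm_smul, he, mul_one, Real.norm_eq_abs, abs_of_nonneg ht0'] at h1
    exact h1
  have hScomp : IsCompact S := isCompact_Icc.of_isClosed_subset hSc hSb
  have hSne : S.Nonempty := ⟨0, le_refl (0:ℝ), by simpa using hp⟩
  obtain ⟨t, ht, htmax⟩ := hScomp.exists_isGreatest hSne
  refine ⟨t, ht.1, ?_⟩
  rw [hK.isClosed.frontier_eq]
  refine ⟨ht.2, fun hint => ?_⟩
  have h3 : ∀ᶠ s in 𝓝 t, p + s • e ∈ K := by
    have := hcont.continuousAt (x := t)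
    exact this.eventually (mem_interior_iff_mem_nhds.1 hint)
  obtain ⟨δ, hδ, hδ'⟩ := Metric.eventually_nhds_iff.1 h3
  have h4 : p + (t + δ / 2) • e ∈ K := by
    apply hδ'
    rw [Real.dist_eq]
    have : t + δ / 2 - t = δ / 2 := by ring
    rw [this, abs_of_pos (by positivity)]
    linarith
  have h5 : t + δ / 2 ≤ t := htmax ⟨by
    have := ht.1
    simp only [mem_ofPred_eq] at this ⊢
    linarith, h4⟩
  linarith

/-- The diameter of a compact set is controlled by its frontier. -/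
theorem dist_le_of_frontier {K : Set E3} (hK : IsCompact K) {D : ℝ}
    (hD : ∀ x ∈ frontier K, ∀ y ∈ frontier K, dist x y ≤ D) {u v : E3} (hu : u ∈ K) (hv : v ∈ K) :
    dist u v ≤ D := by
  by_cases huv : u = v
  · -- degenerate case
    subst huv
    obtain ⟨t, -, ht⟩ := exists_ray_frontier hK hu (e := EuclideanSpace.single 0 1) (by simp)
    have := hD _ ht _ ht
    simpa using this
  · set e : E3 := ‖u - v‖⁻¹ • (u - v) with he
    have hne : ‖u - v‖ ≠ 0 := by
      rw [norm_ne_zero_iff]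
      exact sub_ne_zero.2 huv
    have he1 : ‖e‖ = 1 := by
      rw [he, norm_smul, norm_inv, norm_norm, inv_mul_cancel₀ hne]
    obtain ⟨t, ht0, ht⟩ := exists_ray_frontier hK hu he1
    obtain ⟨t', ht0', ht'⟩ := exists_ray_frontier hK hv (e := -e) (by rw [norm_neg, he1])
    have h1 := hD _ ht _ ht'
    have h2 : (u + t • e) - (v + t' • (-e)) = (‖u - v‖ + t + t') • e := by
      have h3 : u - v = ‖u - v‖ • e := by
        rw [he, smul_smul, mul_inv_cancel₀ hne, one_smul]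
      have h4 : (u + t • e) - (v + t' • (-e)) = (u - v) + t • e + t' • e := by
        rw [smul_neg]; abel
      rw [h4, add_smul, add_smul, ← h3]
    rw [dist_eq_norm, h2, norm_smul, he1, mul_one, Real.norm_eq_abs,
      abs_of_nonneg (by positivity)] at h1
    rw [dist_eq_norm]
    linarith

/-- box with given lower and upper coordinates -/
def bx (lo hi : Fin 3 → ℝ) : Set E3 := {z | ∀ m, lo m ≤ z m ∧ z m ≤ hi m}

theorem bx_isClosed (lo hi : Fin 3 → ℝ) : IsClosed (bx lo hi) := by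
  have : bx lo hi = ⋂ m : Fin 3, ({z : E3 | lo m ≤ z m} ∩ {z : E3 | z m ≤ hi m}) := by
    ext z; simp [bx, mem_iInter]
  rw [this]
  refine isClosed_iInter fun m => ?_
  have hm : Continuous (fun z : E3 => z m) := by fun_prop
  exact (isClosed_le continuous_const hm).inter (isClosed_le hm continuous_const)

theorem bx_frontier {lo hi : Fin 3 → ℝ} {z : E3} (hz : z ∈ frontier (bx lo hi)) :
    z ∈ bx lo hi ∧ ∃ m, z m = lo m ∨ z m = hi m := by
  rw [(bx_isClosed lo hi).frontier_eq] at hz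
  refine ⟨hz.1, ?_⟩
  by_contra hcon
  push Not at hcon
  apply hz.2
  have hopen : IsOpen {z : E3 | ∀ m, lo m < z m ∧ z m < hi m} := by
    have : {z : E3 | ∀ m, lo m < z m ∧ z m < hi m} =
        ⋂ m : Fin 3, ({z : E3 | lo m < z m} ∩ {z : E3 | z m < hi m}) := by
      ext z; simp [mem_iInter]
    rw [this]
    refine isOpen_iInter_of_finite fun m => ?_
    have hm : Continuous (fun z : E3 => z m) := by fun_prop
    exact (isOpen_lt continuous_const hm).inter (isOpen_lt hm continuous_const)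
  refine mem_interior.2 ⟨_, ?_, hopen, ?_⟩
  · intro w hw m
    exact ⟨(hw m).1.le, (hw m).2.le⟩
  · intro m
    exact ⟨lt_of_le_of_ne (hz.1 m).1 (Ne.symm (hcon m).1), lt_of_le_of_ne (hz.1 m).2 (hcon m).2⟩

/-- Bound for the diameter of the image of a cube. -/
theorem box_bound {C : ℝ} (hC : 0 < C) : ∃ C' : ℝ, 0 < C' ∧ ∀ (f : E3 ≃ₜ E3) (ν : Measure E3),
    (∀ x l, ν (cube x l) ≠ ⊤) → RowIneq f ν C → ∀ (x₀ : E3) (l : ℝ), 0 < l →
      diam (f '' cube x₀ l) ^ 3 ≤ C' * (ν (cube x₀ (10 * l))).toReal := by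
  obtain ⟨C₁, hC₁, hface⟩ := face_bound hC
  refine ⟨(4 * C₁) ^ 3, by positivity, fun f ν hν hrow x₀ l hl => ?_⟩
  set N : ℝ := (ν (cube x₀ (10 * l))).toReal with hN
  have hN0 : 0 ≤ N := ENNReal.toReal_nonneg
  -- the main bound with ε
  have key : ∀ ε > 0, diam (f '' cube x₀ l) ≤ 4 * (C₁ * N ^ (1 / 3 : ℝ)) + 4 * ε := by
    intro ε hε
    -- coordinates of the faces
    have hlo : ∀ i : Fin 3, ∃ c, x₀ i - 2 * l ≤ c ∧ c ≤ x₀ i - l ∧
        ∀ x y : E3, x i = c → y i = c → (∀ m, m ≠ i → |x m - x₀ m| ≤ 2 * l) →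
          (∀ m, m ≠ i → |y m - x₀ m| ≤ 2 * l) →
          dist (f x) (f y) ≤ C₁ * N ^ (1 / 3 : ℝ) + ε := by
      intro i
      obtain ⟨c, hc, hcb⟩ := hface f ν f.continuous hν hrow i (pt fun m => x₀ m - 2 * l)
        (4 * l) ε (by positivity) hε
      simp only at hc hcb
      refine ⟨c, hc.1, by linarith [hc.2], fun x y hx hy hxm hym => ?_⟩
      refine (hcb x y hx hy (fun m hm => ?_) (fun m hm => ?_)).trans ?_
      · have := abs_le.1 (hxm m hm)
        constructor <;> linarith [this.1, this.2]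
      · have := abs_le.1 (hym m hm)
        constructor <;> linarith [this.1, this.2]
      · gcongr
        refine ENNReal.toReal_mono (hν _ _) (measure_mono ?_)
        intro z hz m
        have := hz m
        rw [abs_le]
        constructor <;> linarith [this.1, this.2]
    have hhi : ∀ i : Fin 3, ∃ c, x₀ i + l ≤ c ∧ c ≤ x₀ i + 2 * l ∧
        ∀ x y : E3, x i = c → y i = c → (∀ m, m ≠ i → |x m - x₀ m| ≤ 2 * l) →
          (∀ m, m ≠ i → |y m - x₀ m| ≤ 2 * l) →
          dist (f x) (f y) ≤ C₁ * N ^ (1 / 3 : ℝ) + ε := by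
      intro i
      obtain ⟨c, hc, hcb⟩ := hface f ν f.continuous hν hrow i
        (pt fun m => if m = i then x₀ m + l else x₀ m - 2 * l)
        (4 * l) ε (by positivity) hε
      simp only [if_true] at hc hcb
      refine ⟨c, hc.1, by linarith [hc.2], fun x y hx hy hxm hym => ?_⟩
      refine (hcb x y hx hy (fun m hm => ?_) (fun m hm => ?_)).trans ?_
      · have := abs_le.1 (hxm m hm)
        rw [if_neg hm]
        constructor <;> linarith [this.1, this.2]
      · have := abs_le.1 (hym m hm)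
        rw [if_neg hm]
        constructor <;> linarith [this.1, this.2]
      · gcongr
        refine ENNReal.toReal_mono (hν _ _) (measure_mono ?_)
        intro z hz m
        have := hz m
        rw [abs_le]
        split_ifs at this <;> constructor <;> linarith [this.1, this.2]
    choose lo hlo1 hlo2 hlo3 using hlo
    choose hi hhi1 hhi2 hhi3 using hhi
    set D : ℝ := C₁ * N ^ (1 / 3 : ℝ) + ε with hD
    have hD0 : 0 ≤ D := by positivity
    -- points of the box
    have hbox : ∀ z ∈ bx lo hi, ∀ m, |z m - x₀ m| ≤ 2 * l := by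
      intro z hz m
      have := hz m
      rw [abs_le]
      constructor <;> linarith [this.1, this.2, hlo1 m, hhi2 m]
    -- the base corner
    have hP : pt lo ∈ bx lo hi := by
      intro m
      simp only [le_refl, true_and]
      linarith [hlo2 m, hhi1 m]
    -- distances from the base corner
    have hbase : ∀ z ∈ frontier (bx lo hi), dist (f z) (f (pt lo)) ≤ 2 * D := by
      intro z hz
      obtain ⟨hzb, m, hm⟩ := bx_frontier hz
      rcases hm with hm | hm
      · refine (hlo3 m z (pt lo) hm rfl (fun k _ => hbox z hzb k)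
          (fun k _ => hbox _ hP k)).trans ?_
        linarith
      · -- the corner with the coordinate `m` raised
        have hQ : pt (fun k => if k = m then hi k else lo k) ∈ bx lo hi := by
          intro k
          simp only
          split_ifs
          · exact ⟨by linarith [hlo2 k, hhi1 k], le_rfl⟩
          · exact ⟨le_rfl, by linarith [hlo2 k, hhi1 k]⟩
        have h1 : dist (f z) (f (pt (fun k => if k = m then hi k else lo k))) ≤ D :=
          hhi3 m z _ hm (by simp) (fun k _ => hbox z hzb k) (fun k _ => hbox _ hQ k)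
        have h2 : dist (f (pt (fun k => if k = m then hi k else lo k))) (f (pt lo)) ≤ D := by
          have hm1 : m + 1 ≠ m := by
            fin_cases m <;> simp
          exact hlo3 (m + 1) _ _ (by simp [hm1]) rfl (fun k _ => hbox _ hQ k)
            (fun k _ => hbox _ hP k)
        calc dist (f z) (f (pt lo)) ≤ _ + _ := dist_triangle _ _ _
          _ ≤ 2 * D := by linarith
    have hbd : IsCompact (bx lo hi) := by
      refine (cube_compact x₀ (2 * l)).of_isClosed_subset (bx_isClosed lo hi) ?_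
      intro z hz m
      exact hbox z hz m
    have hK : IsCompact (f '' bx lo hi) := hbd.image f.continuous
    have hall : ∀ u ∈ f '' bx lo hi, ∀ v ∈ f '' bx lo hi, dist u v ≤ 4 * D := by
      intro u hu v hv
      refine dist_le_of_frontier hK ?_ hu hv
      rw [← f.image_frontier]
      rintro _ ⟨z, hz, rfl⟩ _ ⟨w, hw, rfl⟩
      calc dist (f z) (f w) ≤ dist (f z) (f (pt lo)) + dist (f w) (f (pt lo)) :=
            dist_triangle_right _ _ _
        _ ≤ 4 * D := by linarith [hbase z hz, hbase w hw]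
    have hsub : cube x₀ l ⊆ bx lo hi := by
      intro z hz m
      have := abs_le.1 (hz m)
      constructor <;> linarith [this.1, this.2, hlo2 m, hhi1 m]
    have h4 : diam (f '' cube x₀ l) ≤ 4 * D :=
      Metric.diam_le_of_forall_dist_le (by positivity) fun u hu v hv =>
        hall u (image_mono hsub hu) v (image_mono hsub hv)
    rw [hD] at h4
    linarith
  have key2 : diam (f '' cube x₀ l) ≤ 4 * (C₁ * N ^ (1 / 3 : ℝ)) := by
    refine le_of_forall_pos_le_add fun ε hε => ?_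
    have := key (ε / 4) (by positivity)
    linarith
  have h3 : (N ^ (1 / 3 : ℝ)) ^ 3 = N := by
    rw [← Real.rpow_natCast, ← Real.rpow_mul hN0]
    norm_num
  calc diam (f '' cube x₀ l) ^ 3 ≤ (4 * (C₁ * N ^ (1 / 3 : ℝ))) ^ 3 := by
        gcongr
    _ = (4 * C₁) ^ 3 * (N ^ (1 / 3 : ℝ)) ^ 3 := by ring
    _ = (4 * C₁) ^ 3 * N := by rw [h3]

end Pool.Agent.Lib.MP_8effdd_an.CM
end

section

set_option autoImplicit false

open MeasureTheory Filter Topology Metric Set
open scoped ENNReal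

namespace Pool.Agent.Lib.MP_8effdd_an.CM

theorem geo_coord (x y : E3) (m : Fin 3) : |x m - y m| ≤ dist x y := by
  rw [EuclideanSpace.dist_eq]
  have h : dist (x m) (y m) ^ 2 ≤ ∑ i, dist (x i) (y i) ^ 2 :=
    Finset.single_le_sum (f := fun i => dist (x i) (y i) ^ 2) (fun i _ => sq_nonneg _)
      (Finset.mem_univ m)
  calc |x m - y m| = √(dist (x m) (y m) ^ 2) := by
        rw [Real.sqrt_sq dist_nonneg, Real.dist_eq]
    _ ≤ _ := Real.sqrt_le_sqrt h

theorem geo_abs (a b c : ℝ) : |(|a - c| - |b - c|)| ≤ |a - b| := by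
  have := abs_abs_sub_abs_le_abs_sub (a - c) (b - c)
  rwa [show a - c - (b - c) = a - b by ring] at this

/-- `rad` is 1-Lipschitz. -/
theorem rad_lip (i j : Fin 3) (c : Fin 3 → ℝ) (x y : E3) :
    |rad i j c x - rad i j c y| ≤ dist x y := by
  unfold rad
  refine (abs_max_sub_max_le_max _ _ _ _).trans (max_le ?_ ?_)
  · exact (geo_abs _ _ _).trans (geo_coord x y i)
  · exact (geo_abs _ _ _).trans (geo_coord x y j)

/-- `gau` is 1-Lipschitz. -/
theorem gau_lip (i j k : Fin 3) (c : Fin 3 → ℝ) (s : ℝ) (x y : E3) :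
    |gau i j k c s x - gau i j k c s y| ≤ dist x y := by
  unfold gau
  refine (abs_max_sub_max_le_max _ _ _ _).trans (max_le ?_ ?_)
  · exact (geo_abs _ _ _).trans (rad_lip i j c x y)
  · exact (geo_abs _ _ _).trans (geo_coord x y k)

theorem rad_cont (i j : Fin 3) (c : Fin 3 → ℝ) : Continuous (rad i j c) := by
  unfold rad
  fun_prop

theorem g_cont (ι : Idx) (s : ℝ) : Continuous (ι.g s) := by
  have : Continuous (rad ι.d ι.j (ι.ctr s)) := rad_cont _ _ _
  unfold Idx.g gau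
  fun_prop

theorem fr_open (ι : Idx) (s η : ℝ) : IsOpen (ι.fr s η) :=
  isOpen_lt (g_cont ι s) continuous_const

theorem idx_cases (ι : Idx) (m : Fin 3) : m = ι.d ∨ m = ι.j ∨ m = ι.k := by
  obtain ⟨d, n, p, q⟩ := ι
  simp only [Idx.j, Idx.k]
  by_cases h : Even n
  · simp only [h, if_true]
    fin_cases d <;> fin_cases m <;> simp
  · simp only [h, if_false]
    fin_cases d <;> fin_cases m <;> simp

/-- all coordinates of points of a (thick) frame are within `s` of the center -/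
theorem fr_sub (ι : Idx) {s : ℝ} (hs : 0 < s) {x : E3} (hx : x ∈ ι.fr s (1 / 4)) (m : Fin 3) :
    |x m - ι.ctr s m| < s := by
  simp only [Idx.fr, Idx.g, gau, mem_ofPred_eq, max_lt_iff, abs_lt] at hx
  obtain ⟨⟨h1, h2⟩, h3⟩ := hx
  have h4 : rad ι.d ι.j (ι.ctr s) x < s := by linarith
  unfold rad at h4
  rw [max_lt_iff] at h4
  rcases idx_cases ι m with rfl | rfl | rfl
  · exact h4.1
  · exact h4.2
  · rw [abs_lt]
    constructor <;> linarith [h3.1, h3.2]

theorem fr_diam (ι : Idx) {s : ℝ} (hs : 0 < s) {x y : E3} (hx : x ∈ ι.fr s (1 / 4))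
    (hy : y ∈ ι.fr s (1 / 4)) : dist x y ≤ 4 * s := by
  rw [EuclideanSpace.dist_eq]
  apply Real.sqrt_le_iff.mpr
  refine ⟨by positivity, ?_⟩
  have h : ∀ i, dist (x i) (y i) ^ 2 ≤ (2 * s) ^ 2 := by
    intro i
    have h1 := abs_lt.mp (fr_sub ι hs hx i)
    have h2 := abs_lt.mp (fr_sub ι hs hy i)
    rw [Real.dist_eq]
    refine pow_le_pow_left₀ (abs_nonneg _) ?_ 2
    rw [abs_le]
    constructor <;> linarith [h1.1, h1.2, h2.1, h2.2]
  calc ∑ i, dist (x i) (y i) ^ 2 ≤ ∑ _i : Fin 3, (2 * s) ^ 2 := Finset.sum_le_sum fun i _ => h i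
    _ = 12 * s ^ 2 := by simp; ring
    _ ≤ (4 * s) ^ 2 := by nlinarith [sq_nonneg s]

theorem fr_mono (ι : Idx) {s η η' : ℝ} (hs : 0 < s) (h : η ≤ η') : ι.fr s η ⊆ ι.fr s η' := by
  intro x hx
  have hx' : ι.g s x < η * s := hx
  have : η * s ≤ η' * s := by gcongr
  exact lt_of_lt_of_le hx' this

theorem mail_open (s : ℝ) : IsOpen (mail s) := isOpen_iUnion fun ι => fr_open ι s _

theorem EE_closed : IsClosed EE := (isOpen_iUnion fun _ => mail_open _).isClosed_compl

theorem mail_sub (k : ℕ) : mail (sc k) ⊆ EEᶜ := by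
  intro x hx
  simp only [EE, compl_compl]
  exact mem_iUnion_of_mem k hx

/-- volume of a frame -/
theorem fr_volume (ι : Idx) {s : ℝ} (hs : 0 < s) :
    volume (ι.fr s (1 / 8)) ≤ ENNReal.ofReal (8 * s ^ 3) := by
  have hsub : ι.fr s (1 / 8) ⊆ (WithLp.ofLp : E3 → (Fin 3 → ℝ)) ⁻¹'
      Icc (fun m => ι.ctr s m - s) (fun m => ι.ctr s m + s) := by
    intro x hx
    have hx' := fr_mono ι hs (show (1:ℝ) / 8 ≤ 1 / 4 by norm_num) hx
    constructor
    · intro m
      have := abs_lt.mp (fr_sub ι hs hx' m)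
      simp only
      linarith [this.1]
    · intro m
      have := abs_lt.mp (fr_sub ι hs hx' m)
      simp only
      linarith [this.2]
  refine (measure_mono hsub).trans ?_
  have hmp := (EuclideanSpace.volume_preserving_symm_measurableEquiv_toLp (Fin 3))
  have := (PiLp.volume_preserving_ofLp (Fin 3)).measure_preimage
    (measurableSet_Icc (a := fun m => ι.ctr s m - s) (b := fun m => ι.ctr s m + s)).nullMeasurableSet
  rw [this, Real.volume_Icc_pi]
  simp only [add_sub_sub_cancel, Finset.prod_const, Finset.card_univ, Fintype.card_fin]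
  rw [← ENNReal.ofReal_pow (by positivity)]
  apply le_of_eq
  congr 1
  ring

end Pool.Agent.Lib.MP_8effdd_an.CM
end

section

set_option autoImplicit false

open MeasureTheory Filter Topology Metric Set
open scoped ENNReal

namespace Pool.Agent.Lib.MP_8effdd_an.CM

/-- the test path -/
def segPath (v : Fin 2 → ℝ) (t : ℝ) : E3 := pt ![20 * t, v 0, v 1]

theorem segPath_dist (v : Fin 2 → ℝ) (s t : ℝ) :
    dist (segPath v s) (segPath v t) = 20 * |s - t| := by
  rw [EuclideanSpace.dist_eq, Fin.sum_univ_three]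
  simp only [segPath, Real.dist_eq]
  simp only [Matrix.cons_val_zero, Matrix.cons_val_one, Matrix.cons_val]
  rw [sub_self, sub_self, ← mul_sub, abs_mul]
  simp only [abs_zero]
  rw [show (|(20:ℝ)| * |s - t|) ^ 2 + (0:ℝ) ^ 2 + (0:ℝ) ^ 2 = (20 * |s - t|) ^ 2 by
    rw [abs_of_pos (by norm_num : (0:ℝ) < 20)]; ring]
  exact Real.sqrt_sq (by positivity)

theorem segPath_lip (v : Fin 2 → ℝ) : LipschitzWith 20 (segPath v) := by
  apply LipschitzWith.of_dist_le_mul
  intro s t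
  rw [segPath_dist, Real.dist_eq]
  norm_num

theorem segPath_var (v : Fin 2 → ℝ) {b : ℝ} (hb : 0 ≤ b) :
    eVariationOn (segPath v) (Set.Icc 0 b) = ENNReal.ofReal (20 * b) := by
  apply le_antisymm
  · have h1 := ((segPath_lip v).lipschitzOnWith (s := Set.univ)).comp_eVariationOn_le
      (g := fun t : ℝ => t) (s := Set.Icc 0 b) (mapsTo_univ _ _)
    have h2 : eVariationOn (fun t : ℝ => t) (Set.Icc 0 b) ≤ ENNReal.ofReal (b - 0) := by
      have := (monotone_id.monotoneOn (Set.Icc (0:ℝ) b)).eVariationOn_eq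
        (left_mem_Icc.2 hb) (right_mem_Icc.2 hb)
      rw [Set.inter_self] at this
      exact this.le
    have h3 : (segPath v) ∘ (fun t : ℝ => t) = segPath v := rfl
    rw [h3] at h1
    refine h1.trans ((mul_le_mul_right h2 _).trans ?_)
    rw [sub_zero, ENNReal.ofReal_mul (by norm_num : (0:ℝ) ≤ 20)]
    simp
  · have h := eVariationOn.edist_le (segPath v) (left_mem_Icc.2 hb) (right_mem_Icc.2 hb)
    refine le_trans ?_ h
    rw [edist_dist, segPath_dist, zero_sub, abs_neg, abs_of_nonneg hb]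

theorem meas_le {f : ℝ → ℝ} (hf : Monotone f) (h2 : ∀ t, f t = 20 * max 0 (min t 1)) :
    hf.stieltjesFunction.measure ≤ (20 : NNReal) • (volume : Measure ℝ) := by
  have hcont : Continuous f := by
    rw [show f = fun t => 20 * max 0 (min t 1) from funext h2]
    fun_prop
  have heq : ∀ x, hf.stieltjesFunction x = f x := by
    intro x
    rw [hf.stieltjesFunction_eq]
    exact hf.continuousWithinAt_Ioi_iff_rightLim_eq.1 hcont.continuousWithinAt
  have hmono : Monotone (fun x : ℝ => 20 * x - f x) := by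
    intro x y hxy
    simp only [h2]
    rcases le_total x 0 with hx | hx <;> rcases le_total y 0 with hy | hy <;>
      rcases le_total x 1 with hx' | hx' <;> rcases le_total y 1 with hy' | hy' <;>
      simp [*] <;> linarith
  let g : StieltjesFunction ℝ :=
    { toFun := fun x => 20 * x - f x
      mono' := hmono
      right_continuous' := fun x => by
        apply Continuous.continuousWithinAt
        fun_prop }
  have hg : ∀ x, g x = 20 * x - f x := fun x => rfl
  have hsum : hf.stieltjesFunction + g = (20 : NNReal) • StieltjesFunction.id := by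
    ext x
    rw [StieltjesFunction.add_apply, heq, hg]
    change f x + (20 * x - f x) = ((20 : NNReal) : ℝ) * x
    simp
  have h3 : hf.stieltjesFunction.measure + g.measure = (20 : NNReal) • (volume : Measure ℝ) := by
    rw [← StieltjesFunction.measure_add, hsum, StieltjesFunction.measure_smul,
      Real.volume_eq_stieltjes_id]
  rw [← h3]
  exact Measure.le_add_right le_rfl

theorem seg_bound (ρ : EuclideanSpace ℝ (Fin 3) → ℝ≥0∞) (hρ : Measurable ρ)
    (hadm : ∀ γ : ℝ → EuclideanSpace ℝ (Fin 3), ContinuousOn γ (Set.Icc 0 1) →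
              γ 0 ∈ cube 0 1 → γ 1 ∈ cube far 1 → eVariationOn γ (Set.Icc 0 1) ≠ ⊤ →
              ∀ h : Monotone (fun t : ℝ => (eVariationOn γ (Set.Icc 0 (max 0 (min t 1)))).toReal),
                1 ≤ ∫⁻ t in Set.Icc (0:ℝ) 1, ρ (γ t) ∂h.stieltjesFunction.measure)
    (v : Fin 2 → ℝ) (hv : v ∈ Set.Icc (fun _ => (-1:ℝ)) (fun _ => (1:ℝ))) :
    1 ≤ 8000 * ∫⁻ t in Set.Icc (0:ℝ) 1, ρ (segPath v t) ^ 3 := by
  have hval : ∀ t : ℝ, (eVariationOn (segPath v) (Set.Icc 0 (max 0 (min t 1)))).toReal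
      = 20 * max 0 (min t 1) := by
    intro t
    rw [segPath_var v (le_max_left _ _), ENNReal.toReal_ofReal (by positivity)]
  have hmon : Monotone (fun t : ℝ =>
      (eVariationOn (segPath v) (Set.Icc 0 (max 0 (min t 1)))).toReal) := by
    intro s t hst
    simp only [hval]
    have : max 0 (min s 1) ≤ max 0 (min t 1) := max_le_max le_rfl (min_le_min hst le_rfl)
    linarith
  have hv0 := hv.1
  have hv1 := hv.2
  have h1 := hadm (segPath v) (segPath_lip v).continuous.continuousOn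
    (by
      intro m
      fin_cases m
      · simp [segPath]
      · simpa [segPath, abs_le] using ⟨hv0 0, hv1 0⟩
      · simpa [segPath, abs_le] using ⟨hv0 1, hv1 1⟩)
    (by
      intro m
      fin_cases m
      · simp [segPath, far]
      · simpa [segPath, far, abs_le] using ⟨hv0 0, hv1 0⟩
      · simpa [segPath, far, abs_le] using ⟨hv0 1, hv1 1⟩)
    (by rw [segPath_var v zero_le_one]; exact ENNReal.ofReal_ne_top) hmon
  have h2 : (∫⁻ t in Set.Icc (0:ℝ) 1, ρ (segPath v t) ∂hmon.stieltjesFunction.measure)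
      ≤ 20 * ∫⁻ t in Set.Icc (0:ℝ) 1, ρ (segPath v t) := by
    have h3 : hmon.stieltjesFunction.measure.restrict (Set.Icc (0:ℝ) 1) ≤
        ((20 : NNReal) • (volume : Measure ℝ)).restrict (Set.Icc (0:ℝ) 1) :=
      Measure.restrict_mono_measure (meas_le hmon hval) _
    refine (lintegral_mono' h3 le_rfl).trans ?_
    rw [Measure.restrict_smul, lintegral_smul_measure]
    rfl
  have h4 : (∫⁻ t in Set.Icc (0:ℝ) 1, ρ (segPath v t)) ≤
      (∫⁻ t in Set.Icc (0:ℝ) 1, ρ (segPath v t) ^ (3:ℝ)) ^ (1 / (3:ℝ)) := by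
    have hpq : (3:ℝ).HolderConjugate (3 / 2) := by
      rw [Real.holderConjugate_iff]
      norm_num
    have := ENNReal.lintegral_mul_le_Lp_mul_Lq (volume.restrict (Set.Icc (0:ℝ) 1)) hpq
      (f := fun t => ρ (segPath v t)) (g := fun _ => 1)
      (hρ.comp (segPath_lip v).continuous.measurable).aemeasurable aemeasurable_const
    simpa using this
  have h5 : (1 : ℝ≥0∞) ≤ 20 * (∫⁻ t in Set.Icc (0:ℝ) 1, ρ (segPath v t) ^ (3:ℝ)) ^ (1 / (3:ℝ)) :=
    (h1.trans h2).trans (mul_le_mul_right h4 _)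
  have h6 : (1 : ℝ≥0∞) ^ (3:ℝ) ≤
      (20 * (∫⁻ t in Set.Icc (0:ℝ) 1, ρ (segPath v t) ^ (3:ℝ)) ^ (1 / (3:ℝ))) ^ (3:ℝ) :=
    ENNReal.rpow_le_rpow h5 (by norm_num)
  rw [ENNReal.one_rpow, ENNReal.mul_rpow_of_nonneg _ _ (by norm_num : (0:ℝ) ≤ 3),
    ← ENNReal.rpow_mul] at h6
  norm_num at h6
  refine h6.trans (le_of_eq ?_)
  congr 1

/-- The modulus of the curves joining the two cubes is positive. -/
theorem mod_pos :
    (⨅ (ρ : EuclideanSpace ℝ (Fin 3) → ℝ≥0∞) (_ : Measurable ρ)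
            (_ : ∀ γ : ℝ → EuclideanSpace ℝ (Fin 3), ContinuousOn γ (Set.Icc 0 1) →
              γ 0 ∈ cube 0 1 → γ 1 ∈ cube far 1 → eVariationOn γ (Set.Icc 0 1) ≠ ⊤ →
              ∀ h : Monotone (fun t : ℝ => (eVariationOn γ (Set.Icc 0 (max 0 (min t 1)))).toReal),
                1 ≤ ∫⁻ t in Set.Icc (0:ℝ) 1, ρ (γ t) ∂h.stieltjesFunction.measure),
            ∫⁻ x, ρ x ^ 3) ≠ 0 := by
  have key : ∀ (ρ : EuclideanSpace ℝ (Fin 3) → ℝ≥0∞) (_ : Measurable ρ)
            (_ : ∀ γ : ℝ → EuclideanSpace ℝ (Fin 3), ContinuousOn γ (Set.Icc 0 1) →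
              γ 0 ∈ cube 0 1 → γ 1 ∈ cube far 1 → eVariationOn γ (Set.Icc 0 1) ≠ ⊤ →
              ∀ h : Monotone (fun t : ℝ => (eVariationOn γ (Set.Icc 0 (max 0 (min t 1)))).toReal),
                1 ≤ ∫⁻ t in Set.Icc (0:ℝ) 1, ρ (γ t) ∂h.stieltjesFunction.measure),
            (1 : ℝ≥0∞) ≤ 8000 * ∫⁻ x, ρ x ^ 3 := by
    intro ρ hρ hadm
    set F : E3 → ℝ≥0∞ := fun x => ρ x ^ 3 with hF
    have hFm : Measurable F := hρ.pow_const 3
    set e := MeasurableEquiv.piFinSuccAbove (fun _ : Fin 3 => ℝ) 0 with he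
    have hemp : MeasurePreserving e := volume_preserving_piFinSuccAbove (fun _ : Fin 3 => ℝ) 0
    have hmp := PiLp.volume_preserving_toLp (Fin 3)
    have e1 : ∫⁻ x, F x = ∫⁻ w : Fin 3 → ℝ, F (WithLp.toLp 2 w) :=
      (hmp.lintegral_comp hFm).symm
    have hG : Measurable (fun w : Fin 3 → ℝ => F (WithLp.toLp 2 w)) := hFm.comp hmp.measurable
    have e2 : ∫⁻ w : Fin 3 → ℝ, F (WithLp.toLp 2 w)
        = ∫⁻ p : ℝ × (Fin 2 → ℝ), F (WithLp.toLp 2 (e.symm p)) :=
      (hemp.symm.lintegral_comp hG).symm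
    have hG2 : Measurable (fun p : ℝ × (Fin 2 → ℝ) => F (WithLp.toLp 2 (e.symm p))) :=
      hG.comp e.symm.measurable
    have e3 : ∫⁻ p : ℝ × (Fin 2 → ℝ), F (WithLp.toLp 2 (e.symm p))
        = ∫⁻ v : Fin 2 → ℝ, ∫⁻ x : ℝ, F (WithLp.toLp 2 (e.symm (x, v))) := by
      rw [Measure.volume_eq_prod, lintegral_prod_symm _ hG2.aemeasurable]
    have hpt : ∀ (v : Fin 2 → ℝ) (t : ℝ), WithLp.toLp 2 (e.symm (20 * t, v)) = segPath v t := by
      intro v t
      unfold segPath pt
      congr 1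
      funext m
      fin_cases m <;> rfl
    have inner : ∀ v : Fin 2 → ℝ, v ∈ Set.Icc (fun _ => (-1:ℝ)) (fun _ => (1:ℝ)) →
        (1 : ℝ≥0∞) ≤ 400 * ∫⁻ x : ℝ, F (WithLp.toLp 2 (e.symm (x, v))) := by
      intro v hv
      have h1 := seg_bound ρ hρ hadm v hv
      have hGv : Measurable (fun x : ℝ => F (WithLp.toLp 2 (e.symm (x, v)))) :=
        hG2.comp (measurable_id.prodMk measurable_const)
      have h2 : ∫⁻ t : ℝ, F (segPath v t)
          = ENNReal.ofReal (1 / 20) * ∫⁻ x : ℝ, F (WithLp.toLp 2 (e.symm (x, v))) := by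
        have h3 := lintegral_map (μ := (volume : Measure ℝ)) hGv
          (measurable_const_mul (20:ℝ))
        rw [Real.map_volume_mul_left (by norm_num : (20:ℝ) ≠ 0), lintegral_smul_measure] at h3
        simp only [hpt] at h3
        rw [← h3]
        norm_num [abs_of_pos]
      have h4 : ∫⁻ t in Set.Icc (0:ℝ) 1, ρ (segPath v t) ^ 3 ≤ ∫⁻ t : ℝ, F (segPath v t) :=
        setLIntegral_le_lintegral _ _
      refine (h1.trans (mul_le_mul_right (h4.trans h2.le) _)).trans (le_of_eq ?_)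
      rw [← mul_assoc]
      congr 1
      rw [show (8000 : ℝ≥0∞) = ENNReal.ofReal 8000 by norm_num,
        ← ENNReal.ofReal_mul (by norm_num)]
      norm_num
    have outer : (4 : ℝ≥0∞) ≤ ∫⁻ v : Fin 2 → ℝ,
        400 * ∫⁻ x : ℝ, F (WithLp.toLp 2 (e.symm (x, v))) := by
      have hvol : volume (Set.Icc (fun _ : Fin 2 => (-1:ℝ)) (fun _ => (1:ℝ))) = 4 := by
        rw [Real.volume_Icc_pi]
        simp
        norm_num
      calc (4 : ℝ≥0∞) = ∫⁻ _ in Set.Icc (fun _ : Fin 2 => (-1:ℝ)) (fun _ => (1:ℝ)), 1 := by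
            rw [setLIntegral_one, hvol]
        _ ≤ ∫⁻ v in Set.Icc (fun _ : Fin 2 => (-1:ℝ)) (fun _ => (1:ℝ)),
            400 * ∫⁻ x : ℝ, F (WithLp.toLp 2 (e.symm (x, v))) :=
          setLIntegral_mono' measurableSet_Icc inner
        _ ≤ _ := setLIntegral_le_lintegral _ _
    have hin : Measurable (fun v : Fin 2 → ℝ => ∫⁻ x : ℝ, F (WithLp.toLp 2 (e.symm (x, v)))) :=
      hG2.lintegral_prod_left'
    rw [lintegral_const_mul _ hin] at outer
    rw [← e3, ← e2, ← e1] at outer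
    calc (1 : ℝ≥0∞) ≤ 4 := by norm_num
      _ ≤ 400 * ∫⁻ x, F x := outer
      _ ≤ 8000 * ∫⁻ x, F x := by gcongr; norm_num
  intro h0
  have h1 : (8000 : ℝ≥0∞)⁻¹ ≤ 0 := by
    rw [← h0]
    refine le_iInf fun ρ => le_iInf fun hρ => le_iInf fun hadm => ?_
    have := key ρ hρ hadm
    rw [ENNReal.inv_le_iff_le_mul (fun _ => by norm_num) (fun h => absurd h (by norm_num))]
    exact this
  have h2 : (8000 : ℝ≥0∞)⁻¹ ≠ 0 := by simp
  exact h2 (le_antisymm h1 zero_le)

end Pool.Agent.Lib.MP_8effdd_an.CM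
end

section

set_option autoImplicit false

open MeasureTheory Filter Topology Metric Set
open scoped ENNReal

namespace Pool.Agent.Lib.MP_8effdd_an.CM

theorem abs_coord_le (x y : E3) (m : Fin 3) : |x m - y m| ≤ dist x y := by
  rw [EuclideanSpace.dist_eq]
  have h : dist (x m) (y m) ^ 2 ≤ ∑ i, dist (x i) (y i) ^ 2 :=
    Finset.single_le_sum (f := fun i => dist (x i) (y i) ^ 2) (fun i _ => sq_nonneg _)
      (Finset.mem_univ m)
  calc |x m - y m| = √(dist (x m) (y m) ^ 2) := by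
        rw [Real.sqrt_sq dist_nonneg, Real.dist_eq]
    _ ≤ _ := Real.sqrt_le_sqrt h

theorem cube_sub_closedBall (x₀ : E3) {l : ℝ} (hl : 0 ≤ l) : cube x₀ l ⊆ closedBall x₀ (2 * l) := by
  intro x hx
  rw [mem_closedBall, EuclideanSpace.dist_eq]
  apply Real.sqrt_le_iff.mpr
  refine ⟨by positivity, ?_⟩
  have h : ∀ i, dist (x i) (x₀ i) ^ 2 ≤ l ^ 2 := by
    intro i
    rw [Real.dist_eq]
    exact pow_le_pow_left₀ (abs_nonneg _) (hx i) 2
  calc ∑ i, dist (x i) (x₀ i) ^ 2 ≤ ∑ _i : Fin 3, l ^ 2 := Finset.sum_le_sum fun i _ => h i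
    _ = 3 * l ^ 2 := by simp
    _ ≤ (2 * l) ^ 2 := by nlinarith [sq_nonneg l]

theorem closedBall_sub_cube (x₀ : E3) (l : ℝ) : closedBall x₀ l ⊆ cube x₀ l := by
  intro x hx m
  exact (abs_coord_le x x₀ m).trans hx

theorem cube_mono {x₀ : E3} {l l' : ℝ} (h : l ≤ l') : cube x₀ l ⊆ cube x₀ l' :=
  fun _ hx m => (hx m).trans h

theorem image_cube_bounded (f : E3 ≃ₜ E3) (x₀ : E3) (l : ℝ) :
    Bornology.IsBounded (f '' cube x₀ l) := by
  rcases le_or_gt 0 l with hl | hl
  · refine Bornology.IsBounded.subset ?_ (image_mono (cube_sub_closedBall x₀ hl))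
    exact ((isCompact_closedBall x₀ (2 * l)).image f.continuous).isBounded
  · have : cube x₀ l = ∅ := by
      ext x
      simp only [cube, mem_ofPred_eq, mem_empty_iff_false, iff_false, not_forall, not_le]
      exact ⟨0, lt_of_lt_of_le hl (abs_nonneg _)⟩
    rw [this, image_empty]
    exact Bornology.isBounded_empty

/-- Derivative zero from the decay of the diameters. -/
theorem fderiv_zero (f : E3 ≃ₜ E3) (x₀ : E3) {l₀ : ℝ} (hl₀ : 0 < l₀)
    (h : ∀ l, 0 < l → l ≤ l₀ → diam (f '' cube x₀ l) ≤ diam (f '' cube x₀ (10 * l)) / 20) :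
    HasFDerivAt f (0 : E3 →L[ℝ] E3) x₀ := by
  set M := diam (f '' cube x₀ l₀) with hM
  have hM0 : 0 ≤ M := diam_nonneg
  have hP : ∀ j : ℕ, ∀ l, 0 < l → l ≤ (1 / 10) ^ j * l₀ →
      diam (f '' cube x₀ l) ≤ (1 / 20) ^ j * M := by
    intro j
    induction j with
    | zero =>
      intro l hl hl'
      simp only [pow_zero, one_mul] at hl' ⊢
      exact diam_mono (image_mono (cube_mono hl')) (image_cube_bounded _ _ _)
    | succ j ih =>
      intro l hl hl'
      have h10 : (10 * l) ≤ (1 / 10) ^ j * l₀ := by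
        have e : ((1:ℝ) / 10) ^ (j + 1) * l₀ * 10 = (1 / 10) ^ j * l₀ := by
          rw [pow_succ]; ring
        linarith
      have hle : l ≤ l₀ := by
        have h1 : ((1:ℝ) / 10) ^ (j + 1) ≤ 1 := pow_le_one₀ (by norm_num) (by norm_num)
        nlinarith
      have h1 := h l hl hle
      have h2 := ih (10 * l) (by positivity) h10
      calc diam (f '' cube x₀ l) ≤ diam (f '' cube x₀ (10 * l)) / 20 := h1
        _ ≤ ((1 / 20) ^ j * M) / 20 := by linarith
        _ = (1 / 20) ^ (j + 1) * M := by rw [pow_succ]; ring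
  rw [hasFDerivAt_iff_isLittleO_nhds_zero, Asymptotics.isLittleO_iff]
  intro ε hε
  -- choose J
  obtain ⟨J, hJ⟩ := exists_pow_lt_of_lt_one (show 0 < ε * l₀ / (10 * (M + 1)) by positivity)
    (show (1:ℝ) / 2 < 1 by norm_num)
  have hnhds : ∀ᶠ v : E3 in 𝓝 0, ‖v‖ < (1 / 10) ^ (J + 1) * l₀ := by
    have : Tendsto (fun v : E3 => ‖v‖) (𝓝 0) (𝓝 0) := by
      simpa using (continuous_norm.tendsto (0 : E3))
    exact this.eventually_lt_const (by positivity)
  filter_upwards [hnhds] with v hv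
  simp only [zero_apply, sub_zero]
  rcases eq_or_ne v 0 with rfl | hv0
  · simp
  have hvpos : 0 < ‖v‖ := norm_pos_iff.mpr hv0
  have hx : 0 < ‖v‖ / l₀ := by positivity
  have hx1 : ‖v‖ / l₀ ≤ 1 := by
    rw [div_le_one hl₀]
    have h1 : ((1:ℝ) / 10) ^ (J + 1) ≤ 1 := pow_le_one₀ (by norm_num) (by norm_num)
    nlinarith
  obtain ⟨n, hn1, hn2⟩ := exists_nat_pow_near_of_lt_one hx hx1 (show (0:ℝ) < 1 / 10 by norm_num)
    (show (1:ℝ) / 10 < 1 by norm_num)
  have hn1' : (1 / 10) ^ (n + 1) * l₀ < ‖v‖ := by rwa [lt_div_iff₀ hl₀] at hn1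
  have hn2' : ‖v‖ ≤ (1 / 10) ^ n * l₀ := by rwa [div_le_iff₀ hl₀] at hn2
  have hJn : J ≤ n := by
    by_contra hcon
    push Not at hcon
    have : ((1:ℝ) / 10) ^ (J + 1) ≤ (1 / 10) ^ (n + 1) :=
      pow_le_pow_of_le_one (by norm_num) (by norm_num) (by omega)
    nlinarith
  have hd : ‖f (x₀ + v) - f x₀‖ ≤ (1 / 20) ^ n * M := by
    rw [← dist_eq_norm]
    refine le_trans ?_ (hP n ‖v‖ hvpos hn2')
    refine dist_le_diam_of_mem (image_cube_bounded _ _ _) ?_ ?_
    · refine mem_image_of_mem _ (closedBall_sub_cube _ _ ?_)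
      simp [dist_eq_norm]
    · refine mem_image_of_mem _ (closedBall_sub_cube _ _ ?_)
      simp
  have hpow : ((1:ℝ) / 20) ^ n = (1 / 2) ^ n * (1 / 10) ^ n := by
    rw [← mul_pow]; norm_num
  have hpow2 : ((1:ℝ) / 2) ^ n ≤ (1 / 2) ^ J := pow_le_pow_of_le_one (by norm_num) (by norm_num) hJn
  have h10 : ((1:ℝ) / 10) ^ n * l₀ ≤ 10 * ‖v‖ := by
    rw [pow_succ] at hn1'
    nlinarith
  have hJ' : (1 / 2) ^ J * (10 * (M + 1)) < ε * l₀ := by rwa [lt_div_iff₀ (by positivity)] at hJ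
  have hfin : (1 / 20) ^ n * M * l₀ ≤ ε * ‖v‖ * l₀ := by
    calc (1 / 20) ^ n * M * l₀ = (1 / 2) ^ n * M * ((1 / 10) ^ n * l₀) := by rw [hpow]; ring
      _ ≤ (1 / 2) ^ n * M * (10 * ‖v‖) := by gcongr
      _ ≤ (1 / 2) ^ J * M * (10 * ‖v‖) := by gcongr
      _ ≤ (1 / 2) ^ J * (M + 1) * (10 * ‖v‖) := by gcongr; linarith
      _ = ((1 / 2) ^ J * (10 * (M + 1))) * ‖v‖ := by ring
      _ ≤ (ε * l₀) * ‖v‖ := by gcongr
      _ = ε * ‖v‖ * l₀ := by ring
  exact hd.trans (le_of_mul_le_mul_right hfin hl₀)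

/-- If the image of each small cube has diameter controlled by the volume of the image of the part of
a larger cube outside of `E`, then the image of `E` is null. -/
theorem null_image (f : E3 ≃ₜ E3) {E : Set E3} (hE : IsClosed E) {C : ℝ} (hC : 0 < C)
    (h : ∀ (x₀ : E3) (l : ℝ), 0 < l → l ≤ 1 →
      diam (f '' cube x₀ l) ^ 3 ≤ C * (volume (f '' (cube x₀ (10 * l) \ E))).toReal) :
    volume (f '' E) = 0 := by
  have hX : IsClosed (f '' E) := f.isClosedMap E hE
  have hae := Besicovitch.ae_tendsto_measure_inter_div_of_measurableSet (volume : Measure E3)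
    hX.measurableSet.compl
  set P : E3 → Prop := fun y => Tendsto
    (fun r => volume ((f '' E)ᶜ ∩ closedBall y r) / volume (closedBall y r)) (𝓝[>] 0)
      (𝓝 ((f '' E)ᶜ.indicator 1 y)) with hPdef
  set S : Set E3 := {x | x ∈ E ∧ P (f x)} with hS
  have hsub : f '' E ⊆ f '' S ∪ {y | ¬ P y} := by
    rintro _ ⟨x, hx, rfl⟩
    by_cases hp : P (f x)
    · exact Or.inl ⟨x, ⟨hx, hp⟩, rfl⟩
    · exact Or.inr hp
  have hnull : volume {y | ¬ P y} = 0 := hae
  suffices hfS : volume (f '' S) = 0 by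
    refine measure_mono_null hsub ?_
    rw [measure_union_null_iff]
    exact ⟨hfS, hnull⟩
  refine addHaar_image_eq_zero_of_det_fderivWithin_eq_zero (μ := (volume : Measure E3))
    (f' := fun _ => (0 : E3 →L[ℝ] E3)) ?_ ?_
  swap
  · intro x _
    simp [ContinuousLinearMap.det]
  intro x₀ hx₀
  obtain ⟨hxE, hP⟩ := hx₀
  have hind : (f '' E)ᶜ.indicator (1 : E3 → ℝ≥0∞) (f x₀) = 0 := by
    rw [indicator_of_notMem]
    simp [hxE]
  simp only [hPdef, hind] at hP
  -- volume of balls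
  set κ : ℝ := (volume (ball (0 : E3) 1)).toReal with hκ
  have hκpos : 0 < κ := by
    rw [hκ]
    exact ENNReal.toReal_pos (measure_ball_pos _ _ one_pos).ne' measure_ball_lt_top.ne
  have hball : ∀ r : ℝ, 0 ≤ r → (volume (closedBall (f x₀) r)).toReal = r ^ 3 * κ := by
    intro r hr
    rw [Measure.addHaar_closedBall _ _ hr, ENNReal.toReal_mul, ENNReal.toReal_ofReal (by positivity)]
    simp [hκ]
  have hη : (0 : ℝ) < 1 / (8000 * C * κ) := by positivity
  have hev : ∀ᶠ r in 𝓝[>] (0:ℝ), volume ((f '' E)ᶜ ∩ closedBall (f x₀) r) /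
      volume (closedBall (f x₀) r) < ENNReal.ofReal (1 / (8000 * C * κ)) :=
    hP.eventually_lt_const (by simpa using hη)
  obtain ⟨ρ, hρ, hρ'⟩ := mem_nhdsGT_iff_exists_Ioo_subset.mp hev
  -- choose l₀
  have hcont : ContinuousAt f x₀ := f.continuous.continuousAt
  obtain ⟨δ, hδ, hδ'⟩ := Metric.continuousAt_iff.mp hcont (ρ / 3) (by have h0 : (0:ℝ) < ρ := hρ; positivity)
  have hρ0 : (0:ℝ) < ρ := hρ
  set l₀ : ℝ := min 1 (δ / 40) with hl₀
  have hl₀pos : 0 < l₀ := by rw [hl₀]; positivity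
  refine (fderiv_zero f x₀ hl₀pos ?_).hasFDerivWithinAt
  intro l hl hll
  have hl1 : l ≤ 1 := hll.trans (min_le_left _ _)
  have hlδ : l ≤ δ / 40 := hll.trans (min_le_right _ _)
  set φ := diam (f '' cube x₀ (10 * l)) with hφ
  have hbd : f '' cube x₀ (10 * l) ⊆ closedBall (f x₀) (ρ / 3) := by
    rintro _ ⟨x, hx, rfl⟩
    have h1 := cube_sub_closedBall x₀ (by positivity : (0:ℝ) ≤ 10 * l) hx
    rw [mem_closedBall] at h1 ⊢
    exact (hδ' (lt_of_le_of_lt h1 (by linarith))).le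
  have hφρ : φ < ρ := by
    have : φ ≤ 2 * (ρ / 3) := by
      rw [hφ]
      exact (diam_mono hbd isBounded_closedBall).trans (diam_closedBall (by positivity))
    linarith
  have hx₀mem : x₀ ∈ cube x₀ (10 * l) := by
    intro m; simp; positivity
  have hφpos : 0 < φ := by
    have hne : x₀ + (EuclideanSpace.single 0 l : E3) ≠ x₀ := by
      intro hcon
      have : (EuclideanSpace.single 0 l : E3) = 0 := by simpa using hcon
      have h2 := congrArg (fun v : E3 => v 0) this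
      simp at h2
      exact hl.ne' h2
    have hmem : x₀ + (EuclideanSpace.single 0 l : E3) ∈ cube x₀ (10 * l) := by
      refine closedBall_sub_cube _ _ ?_
      rw [mem_closedBall, dist_eq_norm]
      simp [abs_of_pos hl]
      linarith
    have hd := dist_le_diam_of_mem (image_cube_bounded f x₀ (10 * l)) (mem_image_of_mem f hmem)
      (mem_image_of_mem f hx₀mem)
    exact lt_of_lt_of_le (dist_pos.mpr fun hh => hne (f.injective hh)) hd
  have hm : φ ∈ Ioo (0:ℝ) ρ := ⟨hφpos, hφρ⟩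
  have h1 := hρ' hm
  simp only [mem_ofPred_eq] at h1
  have h2 : (volume ((f '' E)ᶜ ∩ closedBall (f x₀) φ)).toReal ≤ 1 / (8000 * C * κ) * (φ ^ 3 * κ) := by
    rw [← hball φ hφpos.le]
    have hb0 : volume (closedBall (f x₀) φ) ≠ 0 := (measure_closedBall_pos _ _ hφpos).ne'
    have hbt : volume (closedBall (f x₀) φ) ≠ ⊤ := measure_closedBall_lt_top.ne
    rw [ENNReal.div_lt_iff (Or.inl hb0) (Or.inl hbt)] at h1
    have h3 := ENNReal.toReal_mono (ENNReal.mul_ne_top ENNReal.ofReal_ne_top hbt) h1.le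
    rwa [ENNReal.toReal_mul, ENNReal.toReal_ofReal hη.le] at h3
  have h3 : f '' (cube x₀ (10 * l) \ E) ⊆ (f '' E)ᶜ ∩ closedBall (f x₀) φ := by
    rintro _ ⟨x, ⟨hx, hxE'⟩, rfl⟩
    refine ⟨?_, ?_⟩
    · rintro ⟨z, hz, hzx⟩
      exact hxE' (f.injective hzx ▸ hz)
    · rw [mem_closedBall]
      exact dist_le_diam_of_mem (image_cube_bounded f x₀ (10 * l)) (mem_image_of_mem f hx)
        (mem_image_of_mem f hx₀mem)
  have h4 : (volume (f '' (cube x₀ (10 * l) \ E))).toReal ≤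
      (volume ((f '' E)ᶜ ∩ closedBall (f x₀) φ)).toReal := by
    refine ENNReal.toReal_mono ?_ (measure_mono h3)
    exact ne_top_of_le_ne_top measure_closedBall_lt_top.ne (measure_mono inter_subset_right)
  have h5 := h x₀ l hl hl1
  have h6 : diam (f '' cube x₀ l) ^ 3 ≤ (φ / 20) ^ 3 := by
    calc diam (f '' cube x₀ l) ^ 3 ≤ C * (volume (f '' (cube x₀ (10 * l) \ E))).toReal := h5
      _ ≤ C * (1 / (8000 * C * κ) * (φ ^ 3 * κ)) := by
          gcongr
          exact h4.trans h2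
      _ = (φ / 20) ^ 3 := by
          field_simp
          ring
  exact le_of_pow_le_pow_left₀ (by norm_num) (by positivity) h6

end Pool.Agent.Lib.MP_8effdd_an.CM
end

section

set_option autoImplicit false

open MeasureTheory Filter Topology Metric Set
open scoped ENNReal

namespace Pool.Agent.Lib.MP_8effdd_an.CM

private theorem int_close {s : ℝ} (hs : 0 < s) {a b : ℤ} {u : ℝ} (h1 : |u - s * a| < s)
    (h2 : |u - s * b| < s) : a < b + 2 ∧ b < a + 2 := by
  rw [abs_lt] at h1 h2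
  constructor
  · have h : s * (a : ℝ) < s * ((b : ℝ) + 2) := by nlinarith [h1.1, h1.2, h2.1, h2.2]
    have h' := lt_of_mul_lt_mul_left h hs.le
    exact_mod_cast h'
  · have h : s * (b : ℝ) < s * ((a : ℝ) + 2) := by nlinarith [h1.1, h1.2, h2.1, h2.2]
    have h' := lt_of_mul_lt_mul_left h hs.le
    exact_mod_cast h'

private theorem ctr_d (ι : Idx) (s : ℝ) : ι.ctr s ι.d = s * ι.n := by
  simp [Idx.ctr]

private theorem ctr_1 (ι : Idx) (s : ℝ) : ι.ctr s (ι.d + 1) = s * ((4 * ι.p : ℤ) : ℝ) := by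
  have h : ι.d + 1 ≠ ι.d := by generalize ι.d = d; fin_cases d <;> decide
  simp [Idx.ctr, h]

private theorem ctr_2 (ι : Idx) (s : ℝ) : ι.ctr s (ι.d + 2) = s * ((4 * ι.q + 2 : ℤ) : ℝ) := by
  have h : ι.d + 2 ≠ ι.d := by generalize ι.d = d; fin_cases d <;> decide
  have h' : ι.d + 2 ≠ ι.d + 1 := by generalize ι.d = d; fin_cases d <;> decide
  simp [Idx.ctr, h, h']

/-- coordinates in an even frame -/
private theorem mem_even {ι : Idx} {s : ℝ} {x : E3} (hx : x ∈ ι.fr s (1 / 4))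
    (hn : Even ι.n) : |x (ι.d + 2) - ι.ctr s (ι.d + 2)| < 1 / 4 * s ∧
      1 / 2 * s < max |x ι.d - ι.ctr s ι.d| |x (ι.d + 1) - ι.ctr s (ι.d + 1)| := by
  have h : max |rad ι.d ι.j (ι.ctr s) x - 3 / 4 * s| |x ι.k - ι.ctr s ι.k| < 1 / 4 * s := hx
  have hj : ι.j = ι.d + 1 := by simp [Idx.j, hn]
  have hk : ι.k = ι.d + 2 := by simp [Idx.k, hn]
  rw [hj, hk] at h
  obtain ⟨h1, h2⟩ := max_lt_iff.1 h
  refine ⟨h2, ?_⟩
  have h3 := (abs_lt.1 h1).1
  simp only [rad] at h3
  linarith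

/-- coordinates in an odd frame -/
private theorem mem_odd {ι : Idx} {s : ℝ} {x : E3} (hx : x ∈ ι.fr s (1 / 4))
    (hn : ¬ Even ι.n) : |x (ι.d + 1) - ι.ctr s (ι.d + 1)| < 1 / 4 * s ∧
      1 / 2 * s < max |x ι.d - ι.ctr s ι.d| |x (ι.d + 2) - ι.ctr s (ι.d + 2)| := by
  have h : max |rad ι.d ι.j (ι.ctr s) x - 3 / 4 * s| |x ι.k - ι.ctr s ι.k| < 1 / 4 * s := hx
  have hj : ι.j = ι.d + 2 := by simp [Idx.j, hn]
  have hk : ι.k = ι.d + 1 := by simp [Idx.k, hn]
  rw [hj, hk] at h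
  obtain ⟨h1, h2⟩ := max_lt_iff.1 h
  refine ⟨h2, ?_⟩
  have h3 := (abs_lt.1 h1).1
  simp only [rad] at h3
  linarith

/-- an even and an odd frame of the same row are disjoint -/
private theorem even_odd {ι ι' : Idx} {s : ℝ} (hs : 0 < s) (hd : ι.d = ι'.d) (hp : ι.p = ι'.p)
    (hq : ι.q = ι'.q) (hn : Even ι.n) (hn' : ¬ Even ι'.n) {x : E3} (hx : x ∈ ι.fr s (1 / 4))
    (hx' : x ∈ ι'.fr s (1 / 4)) : False := by
  have A := fr_sub ι hs hx ι.d
  have A' := fr_sub ι' hs hx' ι'.d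
  obtain ⟨h1, h2⟩ := mem_even hx hn
  obtain ⟨h1', h2'⟩ := mem_odd hx' hn'
  rw [ctr_d] at A A'
  rw [ctr_d] at h2 h2'
  rw [ctr_2] at h1 h2'
  rw [ctr_1] at h2 h1'
  rw [← hd] at A' h1' h2'
  rw [← hp] at h1'
  rw [← hq] at h2'
  have h3 : 1 / 2 * s < |x ι.d - s * ι.n| := by
    rcases lt_max_iff.1 h2 with h | h
    · exact h
    · exfalso; linarith
  have h3' : 1 / 2 * s < |x ι.d - s * ι'.n| := by
    rcases lt_max_iff.1 h2' with h | h
    · exact h
    · exfalso; linarith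
  obtain ⟨c1, c2⟩ := int_close hs A A'
  have hne : ι.n ≠ ι'.n := fun e => hn' (e ▸ hn)
  have hc : ι'.n = ι.n + 1 ∨ ι'.n = ι.n - 1 := by omega
  rw [abs_lt] at A A'
  rw [lt_abs] at h3 h3'
  rcases hc with hc | hc
  · have e : (ι'.n : ℝ) = ι.n + 1 := by rw [hc]; push_cast; ring
    rw [e] at A' h3'
    rcases h3 with h3 | h3 <;> rcases h3' with h3' | h3' <;> nlinarith [A.1, A.2, A'.1, A'.2]
  · have e : (ι'.n : ℝ) = ι.n - 1 := by rw [hc]; push_cast; ring
    rw [e] at A' h3'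
    rcases h3 with h3 | h3 <;> rcases h3' with h3' | h3' <;> nlinarith [A.1, A.2, A'.1, A'.2]

/-- distinct thick frames are disjoint -/
theorem fr_disjoint {s : ℝ} (hs : 0 < s) {ι ι' : Idx} (h : ι ≠ ι') :
    Disjoint (ι.fr s (1 / 4)) (ι'.fr s (1 / 4)) := by
  rw [Set.disjoint_left]
  intro x hx hx'
  have A := fun m => fr_sub ι hs hx m
  have A' := fun m => fr_sub ι' hs hx' m
  have a0 := A ι.d
  have a1 := A (ι.d + 1)
  have a2 := A (ι.d + 2)
  have b0 := A' ι'.d
  have b1 := A' (ι'.d + 1)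
  have b2 := A' (ι'.d + 2)
  rw [ctr_d] at a0 b0
  rw [ctr_1] at a1 b1
  rw [ctr_2] at a2 b2
  have hcase : ι'.d = ι.d ∨ ι'.d = ι.d + 1 ∨ ι'.d = ι.d + 2 := by
    generalize ι.d = d
    generalize ι'.d = d'
    fin_cases d <;> fin_cases d' <;> decide
  rcases hcase with hd | hd | hd
  · rw [hd] at b0 b1 b2
    have e0 := int_close hs a0 b0
    have e1 := int_close hs a1 b1
    have e2 := int_close hs a2 b2
    have hp : ι.p = ι'.p := by omega
    have hq : ι.q = ι'.q := by omega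
    have hn : ι.n ≠ ι'.n := by
      intro hn
      apply h
      cases ι
      cases ι'
      simp only at hd hp hq hn
      subst hd hp hq hn
      rfl
    by_cases he : Even ι.n
    · by_cases he' : Even ι'.n
      · obtain ⟨u, hu⟩ := he
        obtain ⟨v, hv⟩ := he'
        omega
      · exact even_odd hs hd.symm hp hq he he' hx hx'
    · by_cases he' : Even ι'.n
      · exact even_odd hs hd hp.symm hq.symm he' he hx' hx
      · rw [Int.not_even_iff_odd] at he he'
        obtain ⟨u, hu⟩ := he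
        obtain ⟨v, hv⟩ := he'
        omega
  · have e : ι'.d + 1 = ι.d + 2 := by rw [hd, add_assoc]; rfl
    rw [e] at b1
    have e2 := int_close hs a2 b1
    omega
  · have e : ι'.d + 2 = ι.d + 1 := by
      rw [hd]
      generalize ι.d = d
      fin_cases d <;> decide
    rw [e] at b2
    have e2 := int_close hs a1 b2
    omega

end Pool.Agent.Lib.MP_8effdd_an.CM
end

section

set_option autoImplicit false

open MeasureTheory Filter Topology Metric Set
open scoped ENNReal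

namespace Pool.Agent.Lib.MP_8effdd_an.CM

/-- A continuous real function which goes up from a value `≤ α` to a value `≥ β` has a subinterval
on which it goes exactly from `α` to `β` and stays in between. -/
theorem path_ivt_up {u : ℝ → ℝ} {p q α β : ℝ} (hpq : p ≤ q) (hu : ContinuousOn u (Icc p q))
    (hp : u p ≤ α) (hq : β ≤ u q) (hαβ : α < β) :
    ∃ a₁ b₁ : ℝ, p ≤ a₁ ∧ a₁ ≤ b₁ ∧ b₁ ≤ q ∧ u a₁ = α ∧ u b₁ = β ∧
      ∀ t ∈ Icc a₁ b₁, α ≤ u t ∧ u t ≤ β := by
  -- first time the value β is reached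
  let S : Set ℝ := Icc p q ∩ u ⁻¹' (Ici β)
  have hScl : IsClosed S := hu.preimage_isClosed_of_isClosed isClosed_Icc isClosed_Ici
  have hScomp : IsCompact S := isCompact_Icc.of_isClosed_subset hScl inter_subset_left
  have hSne : S.Nonempty := ⟨q, ⟨⟨hpq, le_refl q⟩, hq⟩⟩
  obtain ⟨b₁, hb₁S, hb₁⟩ := hScomp.exists_isLeast hSne
  have hb₁I : b₁ ∈ Icc p q := hb₁S.1
  have hb₁v : β ≤ u b₁ := hb₁S.2
  have hlt : ∀ t ∈ Icc p q, t < b₁ → u t < β := by
    intro t ht htb
    by_contra hcon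
    exact absurd (hb₁ ⟨ht, not_lt.mp hcon⟩) (not_le.mpr htb)
  have hu1 : ContinuousOn u (Icc p b₁) := hu.mono (Icc_subset_Icc le_rfl hb₁I.2)
  have hb₁e : u b₁ = β := by
    -- β is attained somewhere in [p, b₁]
    have hmem : β ∈ u '' Icc p b₁ :=
      intermediate_value_Icc hb₁I.1 hu1 ⟨by linarith, hb₁v⟩
    obtain ⟨t, ht, hte⟩ := hmem
    rcases lt_or_eq_of_le ht.2 with h | h
    · exact absurd (hlt t ⟨ht.1, ht.2.trans hb₁I.2⟩ h) (by rw [hte]; exact lt_irrefl _)
    · rw [← h]; exact hte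
  -- last time before b₁ the value α is attained
  let S' : Set ℝ := Icc p b₁ ∩ u ⁻¹' (Iic α)
  have hS'cl : IsClosed S' := hu1.preimage_isClosed_of_isClosed isClosed_Icc isClosed_Iic
  have hS'comp : IsCompact S' := isCompact_Icc.of_isClosed_subset hS'cl inter_subset_left
  have hS'ne : S'.Nonempty := ⟨p, ⟨⟨le_rfl, hb₁I.1⟩, hp⟩⟩
  obtain ⟨a₁, ha₁S, ha₁⟩ := hS'comp.exists_isGreatest hS'ne
  have ha₁I : a₁ ∈ Icc p b₁ := ha₁S.1
  have ha₁v : u a₁ ≤ α := ha₁S.2
  have hgt : ∀ t ∈ Icc p b₁, a₁ < t → α < u t := by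
    intro t ht hta
    by_contra hcon
    exact absurd (ha₁ ⟨ht, not_lt.mp hcon⟩) (not_le.mpr hta)
  have ha₁e : u a₁ = α := by
    have hu2 : ContinuousOn u (Icc a₁ b₁) := hu1.mono (Icc_subset_Icc ha₁I.1 le_rfl)
    have hmem : α ∈ u '' Icc a₁ b₁ :=
      intermediate_value_Icc ha₁I.2 hu2 ⟨ha₁v, by rw [hb₁e]; exact hαβ.le⟩
    obtain ⟨t, ht, hte⟩ := hmem
    rcases lt_or_eq_of_le ht.1 with h | h
    · exact absurd (hgt t ⟨ha₁I.1.trans ht.1, ht.2⟩ h) (by rw [hte]; exact lt_irrefl _)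
    · rw [h]; exact hte
  refine ⟨a₁, b₁, ha₁I.1, ha₁I.2, hb₁I.2, ha₁e, hb₁e, ?_⟩
  intro t ht
  constructor
  · rcases lt_or_eq_of_le ht.1 with h | h
    · exact (hgt t ⟨ha₁I.1.trans ht.1, ht.2⟩ h).le
    · rw [← h, ha₁e]
  · rcases lt_or_eq_of_le ht.2 with h | h
    · exact (hlt t ⟨ha₁I.1.trans ht.1, ht.2.trans hb₁I.2⟩ h).le
    · rw [h, hb₁e]

/-- Two sided form, the points `p`, `q` in any order. -/
theorem path_ivt {u : ℝ → ℝ} {a b p q α β : ℝ} (hu : ContinuousOn u (Icc a b))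
    (hp : p ∈ Icc a b) (hq : q ∈ Icc a b)
    (hpα : u p ≤ α) (hqβ : β ≤ u q) (hαβ : α < β) :
    ∃ a₁ b₁ : ℝ, (a ≤ a₁ ∧ a₁ ≤ b₁ ∧ b₁ ≤ b) ∧ β - α ≤ |u a₁ - u b₁| ∧
      ∀ t ∈ Icc a₁ b₁, α ≤ u t ∧ u t ≤ β := by
  rcases le_total p q with hpq | hqp
  · obtain ⟨a₁, b₁, h1, h2, h3, h4, h5, h6⟩ :=
      path_ivt_up hpq (hu.mono (Icc_subset_Icc hp.1 hq.2)) hpα hqβ hαβ
    refine ⟨a₁, b₁, ⟨hp.1.trans h1, h2, h3.trans hq.2⟩, ?_, h6⟩
    rw [h4, h5, abs_sub_comm]
    exact le_abs_self _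
  · obtain ⟨a₁, b₁, h1, h2, h3, h4, h5, h6⟩ :=
      path_ivt_up (u := fun t => - u t) (α := -β) (β := -α) hqp
        ((hu.mono (Icc_subset_Icc hq.1 hp.2)).neg) (by simpa using hqβ) (by simpa using hpα)
        (by linarith)
    refine ⟨a₁, b₁, ⟨hq.1.trans h1, h2, h3.trans hp.2⟩, ?_, ?_⟩
    · have h4' : u a₁ = β := by linarith
      have h5' : u b₁ = α := by linarith
      rw [h4', h5']
      exact le_abs_self _
    · intro t ht
      obtain ⟨h7, h8⟩ := h6 t ht
      constructor <;> linarith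

/-- Crossing step: a path of displacement at least `10 s` has two subpaths with disjoint images that
avoid the chain mail of scale `s` and have displacement at least `s / 32`. -/
theorem path_step {γ : ℝ → E3} {a b s : ℝ} (hab : a ≤ b) (hs : 0 < s)
    (hγ : ContinuousOn γ (Icc a b)) (hd : 10 * s ≤ dist (γ a) (γ b)) :
    ∃ a₁ b₁ a₂ b₂ : ℝ, (a ≤ a₁ ∧ a₁ ≤ b₁ ∧ b₁ ≤ b) ∧ (a ≤ a₂ ∧ a₂ ≤ b₂ ∧ b₂ ≤ b) ∧
      (∀ t ∈ Icc a₁ b₁, γ t ∉ mail s) ∧ (∀ t ∈ Icc a₂ b₂, γ t ∉ mail s) ∧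
      s / 32 ≤ dist (γ a₁) (γ b₁) ∧ s / 32 ≤ dist (γ a₂) (γ b₂) ∧
      Disjoint (γ '' Icc a₁ b₁) (γ '' Icc a₂ b₂) := by
  by_cases hcase : ∃ ι : Idx, ∃ t₀ ∈ Icc a b, ι.g s (γ t₀) ≤ 5 / 32 * s
  · obtain ⟨ι, t₀, ht₀, hg₀⟩ := hcase
    -- an endpoint outside the thick frame
    have hend : ∃ e ∈ Icc a b, 1 / 4 * s ≤ ι.g s (γ e) := by
      by_contra hcon
      push Not at hcon
      have h0 : γ t₀ ∈ ι.fr s (1 / 4) := by
        change ι.g s (γ t₀) < 1 / 4 * s
        linarith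
      have ha : γ a ∈ ι.fr s (1 / 4) := hcon a ⟨le_rfl, hab⟩
      have hb : γ b ∈ ι.fr s (1 / 4) := hcon b ⟨hab, le_rfl⟩
      have := fr_diam ι hs ha hb
      linarith
    obtain ⟨e, he, hge⟩ := hend
    have hu : ContinuousOn (fun t => ι.g s (γ t)) (Icc a b) :=
      (g_cont ι s).comp_continuousOn hγ
    have hlip : ∀ t t', |ι.g s (γ t) - ι.g s (γ t')| ≤ dist (γ t) (γ t') := by
      intro t t'
      exact gau_lip _ _ _ _ _ _ _
    obtain ⟨a₁, b₁, h1, h2, h3⟩ := path_ivt (α := 5 / 32 * s) (β := 6 / 32 * s) hu ht₀ he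
      hg₀ (by linarith) (by linarith)
    obtain ⟨a₂, b₂, h4, h5, h6⟩ := path_ivt (α := 13 / 64 * s) (β := 15 / 64 * s) hu ht₀ he
      (by linarith) (by linarith) (by linarith)
    have hav : ∀ x : E3, 1 / 8 * s ≤ ι.g s x → ι.g s x < 1 / 4 * s → x ∉ mail s := by
      intro x hx1 hx2 hx
      obtain ⟨κ, hκ⟩ := mem_iUnion.mp hx
      by_cases hικ : ι = κ
      · subst hικ
        have : ι.g s x < 1 / 8 * s := hκ
        linarith
      · have h7 : x ∈ ι.fr s (1 / 4) := hx2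
        have h8 : x ∈ κ.fr s (1 / 4) := fr_mono κ hs (by norm_num) hκ
        exact (Set.disjoint_left.mp (fr_disjoint hs hικ)) h7 h8
    refine ⟨a₁, b₁, a₂, b₂, h1, h4, ?_, ?_, ?_, ?_, ?_⟩
    · intro t ht
      obtain ⟨h7, h8⟩ := h3 t ht
      exact hav _ (by linarith) (by linarith)
    · intro t ht
      obtain ⟨h7, h8⟩ := h6 t ht
      exact hav _ (by linarith) (by linarith)
    · have := hlip a₁ b₁
      linarith
    · have := hlip a₂ b₂
      linarith
    · rw [Set.disjoint_left]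
      rintro x ⟨t, ht, rfl⟩ ⟨t', ht', hx⟩
      obtain ⟨h7, h8⟩ := h3 t ht
      obtain ⟨h9, h10⟩ := h6 t' ht'
      rw [hx] at h9 h10
      linarith
  · push Not at hcase
    have hu : ContinuousOn (fun t => dist (γ t) (γ a)) (Icc a b) :=
      continuous_dist.comp_continuousOn (hγ.prodMk continuousOn_const)
    have hav : ∀ t ∈ Icc a b, γ t ∉ mail s := by
      intro t ht hx
      obtain ⟨κ, hκ⟩ := mem_iUnion.mp hx
      have h1 : κ.g s (γ t) < 1 / 8 * s := hκ
      have h2 := hcase κ t ht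
      linarith
    have hdb : 10 * s ≤ dist (γ b) (γ a) := by rw [dist_comm]; exact hd
    obtain ⟨a₁, b₁, h1, h2, h3⟩ := path_ivt (α := 0) (β := s) hu ⟨le_rfl, hab⟩ ⟨hab, le_rfl⟩
      (by simp) (by linarith) hs
    obtain ⟨a₂, b₂, h4, h5, h6⟩ := path_ivt (α := 2 * s) (β := 3 * s) hu ⟨le_rfl, hab⟩
      ⟨hab, le_rfl⟩ (by simp only [dist_self]; linarith) (by linarith) (by linarith)
    have htri : ∀ t t', |dist (γ t) (γ a) - dist (γ t') (γ a)| ≤ dist (γ t) (γ t') := by
      intro t t'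
      exact abs_dist_sub_le _ _ _
    refine ⟨a₁, b₁, a₂, b₂, h1, h4, ?_, ?_, ?_, ?_, ?_⟩
    · intro t ht
      exact hav t ⟨h1.1.trans ht.1, ht.2.trans h1.2.2⟩
    · intro t ht
      exact hav t ⟨h4.1.trans ht.1, ht.2.trans h4.2.2⟩
    · have := htri a₁ b₁
      linarith
    · have := htri a₂ b₂
      linarith
    · rw [Set.disjoint_left]
      rintro x ⟨t, ht, rfl⟩ ⟨t', ht', hx⟩
      obtain ⟨h7, h8⟩ := h3 t ht
      obtain ⟨h9, h10⟩ := h6 t' ht'
      rw [hx] at h9 h10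
      linarith

end Pool.Agent.Lib.MP_8effdd_an.CM
end

section

set_option autoImplicit false

open MeasureTheory Filter Topology Metric Set
open scoped ENNReal

namespace Pool.Agent.Lib.MP_8effdd_an.CM

theorem lp2_sc_pos (k : ℕ) : 0 < sc k := by
  unfold sc; positivity

theorem lp2_sc_succ (k : ℕ) : sc (k + 1) = sc k / 1000 := by
  unfold sc; rw [pow_succ]; ring

/-- one step of the nested intervals -/
theorem long_path_step {γ : ℝ → E3} {a b : ℝ} (k : ℕ) (e : E3) (hab : a ≤ b)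
    (hγ : ContinuousOn γ (Icc a b)) (hd : 10 * sc k ≤ dist (γ a) (γ b)) :
    ∃ a' b' : ℝ, (a ≤ a' ∧ a' ≤ b' ∧ b' ≤ b) ∧ 10 * sc (k + 1) ≤ dist (γ a') (γ b') ∧
      ∀ t ∈ Icc a' b', γ t ∉ mail (sc k) ∧ γ t ≠ e := by
  obtain ⟨a₁, b₁, a₂, b₂, h1, h2, h3, h4, h5, h6, h7⟩ := path_step hab (lp2_sc_pos k) hγ hd
  have hs := lp2_sc_pos k
  have hs1 := lp2_sc_succ k
  by_cases he : e ∈ γ '' Icc a₁ b₁
  · refine ⟨a₂, b₂, h2, by rw [hs1]; linarith, fun t ht => ⟨h4 t ht, ?_⟩⟩
    rintro rfl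
    exact Set.disjoint_left.mp h7 he ⟨t, ht, rfl⟩
  · refine ⟨a₁, b₁, h1, by rw [hs1]; linarith, fun t ht => ⟨h3 t ht, ?_⟩⟩
    rintro rfl
    exact he ⟨t, ht, rfl⟩

/-- A long path meets the set `EE` in uncountably many points. -/
theorem long_path {γ : ℝ → E3} (hγ : ContinuousOn γ (Icc 0 1)) (hd : 10 ≤ dist (γ 0) (γ 1)) :
    ¬ (γ '' Icc 0 1 ∩ EE).Countable := by
  intro hcount
  obtain ⟨e, he⟩ : ∃ e : ℕ → E3, γ '' Icc 0 1 ∩ EE ⊆ range e := by
    rcases (γ '' Icc 0 1 ∩ EE).eq_empty_or_nonempty with h | h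
    · exact ⟨fun _ => 0, by rw [h]; exact empty_subset _⟩
    · obtain ⟨e, he⟩ := hcount.exists_eq_range h
      exact ⟨e, he.subset⟩
  -- admissible intervals of step k
  let P : ℕ → ℝ × ℝ → Prop := fun k I =>
    0 ≤ I.1 ∧ I.1 ≤ I.2 ∧ I.2 ≤ 1 ∧ 10 * sc k ≤ dist (γ I.1) (γ I.2)
  have hstep : ∀ k : ℕ, ∀ I : {I : ℝ × ℝ // P k I}, ∃ J : {J : ℝ × ℝ // P (k + 1) J},
      I.1.1 ≤ J.1.1 ∧ J.1.2 ≤ I.1.2 ∧
        ∀ t ∈ Icc J.1.1 J.1.2, γ t ∉ mail (sc k) ∧ γ t ≠ e k := by
    rintro k ⟨⟨a, b⟩, h0, hab, h1, hd'⟩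
    simp only at h0 hab h1 hd'
    obtain ⟨a', b', h2, h3, h4⟩ := long_path_step k (e k) hab
      (hγ.mono (Icc_subset_Icc h0 h1)) hd'
    exact ⟨⟨⟨a', b'⟩, h0.trans h2.1, h2.2.1, h2.2.2.trans h1, h3⟩, h2.1, h2.2.2, h4⟩
  choose F hF1 hF2 hF3 using hstep
  have h00 : P 0 (0, 1) := ⟨le_rfl, zero_le_one, le_rfl, by simpa [sc] using hd⟩
  let J : (k : ℕ) → {I : ℝ × ℝ // P k I} := fun k =>
    Nat.rec (motive := fun k => {I : ℝ × ℝ // P k I}) ⟨(0, 1), h00⟩ (fun k I => F k I) k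
  have hJs : ∀ k, J (k + 1) = F k (J k) := fun k => rfl
  let I : ℕ → Set ℝ := fun k => Icc (J k).1.1 (J k).1.2
  have hmono : ∀ k, I (k + 1) ⊆ I k := by
    intro k
    apply Icc_subset_Icc
    · rw [hJs]; exact hF1 k (J k)
    · rw [hJs]; exact hF2 k (J k)
  have hne : ∀ k, (I k).Nonempty := fun k => nonempty_Icc.mpr (J k).2.2.1
  obtain ⟨t, ht⟩ : (⋂ k, I k).Nonempty :=
    IsCompact.nonempty_iInter_of_sequence_nonempty_isCompact_isClosed I hmono hne
      isCompact_Icc (fun k => isClosed_Icc)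
  have htk : ∀ k, t ∈ I k := fun k => mem_iInter.mp ht k
  have hprop : ∀ k, γ t ∉ mail (sc k) ∧ γ t ≠ e k := by
    intro k
    have h := htk (k + 1)
    change t ∈ Icc (J (k + 1)).1.1 (J (k + 1)).1.2 at h
    rw [hJs] at h
    exact hF3 k (J k) t h
  have ht01 : t ∈ Icc (0 : ℝ) 1 := htk 0
  have hEE : γ t ∈ EE := by
    intro hcon
    obtain ⟨k, hk⟩ := mem_iUnion.mp hcon
    exact (hprop k).1 hk
  obtain ⟨k, hk⟩ := he ⟨⟨t, ht01, rfl⟩, hEE⟩
  exact (hprop k).2 hk.symm

end Pool.Agent.Lib.MP_8effdd_an.CM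
end

section

set_option autoImplicit false

open MeasureTheory Filter Topology Metric Set
open scoped ENNReal

namespace Pool.Agent.Lib.MP_8effdd_an.CM

/-- parametrisation of the square loop -/
noncomputable def loopMap (i j : Fin 3) (c : Fin 3 → ℝ) (s t₁ t₂ : ℝ) (z : Circle) : E3 :=
  pt fun m => if m = i then c i + (3 / 4 * s + t₁) * ((z : ℂ).re / max |(z : ℂ).re| |(z : ℂ).im|)
    else if m = j then c j + (3 / 4 * s + t₁) * ((z : ℂ).im / max |(z : ℂ).re| |(z : ℂ).im|)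
    else c m + t₂

theorem loop_max_pos (z : Circle) : 0 < max |(z : ℂ).re| |(z : ℂ).im| := by
  by_contra h
  push Not at h
  have h1 : (z : ℂ).re = 0 := abs_nonpos_iff.mp ((le_max_left _ _).trans h)
  have h2 : (z : ℂ).im = 0 := abs_nonpos_iff.mp ((le_max_right _ _).trans h)
  exact z.coe_ne_zero (Complex.ext h1 h2)

theorem loopMap_cont (i j : Fin 3) (c : Fin 3 → ℝ) (s t₁ t₂ : ℝ) :
    Continuous (loopMap i j c s t₁ t₂) := by
  have hz : Continuous fun z : Circle => (z : ℂ) := continuous_subtype_val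
  have hre : Continuous fun z : Circle => (z : ℂ).re := Complex.continuous_re.comp hz
  have him : Continuous fun z : Circle => (z : ℂ).im := Complex.continuous_im.comp hz
  have hm : Continuous fun z : Circle => max |(z : ℂ).re| |(z : ℂ).im| := hre.abs.max him.abs
  have hne : ∀ z : Circle, max |(z : ℂ).re| |(z : ℂ).im| ≠ 0 := fun z => (loop_max_pos z).ne'
  unfold loopMap
  refine (PiLp.continuous_toLp 2 _).comp (continuous_pi fun m => ?_)
  split_ifs
  · exact continuous_const.add (continuous_const.mul (hre.div hm hne))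
  · exact continuous_const.add (continuous_const.mul (him.div hm hne))
  · exact continuous_const

theorem loopMap_range {i j k : Fin 3} (hij : i ≠ j) (hik : i ≠ k) (hjk : j ≠ k)
    (c : Fin 3 → ℝ) {s t₁ : ℝ} (t₂ : ℝ) (h : 0 < 3 / 4 * s + t₁) :
    range (loopMap i j c s t₁ t₂) = lp i j k c s t₁ t₂ := by
  set R := 3 / 4 * s + t₁ with hR
  ext x
  constructor
  · rintro ⟨z, rfl⟩
    have hm := loop_max_pos z
    set m := max |(z : ℂ).re| |(z : ℂ).im| with hmdef
    have e1 : (loopMap i j c s t₁ t₂ z) i = c i + R * ((z : ℂ).re / m) := by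
      simp [loopMap, ← hR, ← hmdef]
    have e2 : (loopMap i j c s t₁ t₂ z) j = c j + R * ((z : ℂ).im / m) := by
      simp [loopMap, ← hR, ← hmdef, hij.symm]
    have e3 : (loopMap i j c s t₁ t₂ z) k = c k + t₂ := by
      simp [loopMap, hik.symm, hjk.symm]
    refine ⟨?_, e3⟩
    show rad i j c _ = R
    unfold rad
    rw [e1, e2, add_sub_cancel_left, add_sub_cancel_left, abs_mul, abs_mul, abs_div, abs_div,
      abs_of_pos h, abs_of_pos hm, ← mul_max_of_nonneg _ _ h.le,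
      max_div_div_right hm.le, ← hmdef, div_self hm.ne', mul_one]
  · rintro ⟨hx1, hx2⟩
    replace hx1 : max |x i - c i| |x j - c j| = R := hx1
    set w : ℂ := ⟨x i - c i, x j - c j⟩ with hw
    have hw0 : w ≠ 0 := by
      intro h0
      have a1 : x i - c i = 0 := congrArg Complex.re h0
      have a2 : x j - c j = 0 := congrArg Complex.im h0
      rw [a1, a2] at hx1
      simp only [abs_zero, max_self] at hx1
      exact h.ne hx1
    have hn : 0 < ‖w‖ := norm_pos_iff.mpr hw0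
    have hmem : w / ‖w‖ ∈ Submonoid.unitSphere ℂ := by
      refine mem_sphere_zero_iff_norm.mpr ?_
      rw [norm_div, Complex.norm_real, norm_norm, div_self hn.ne']
    set z : Circle := ⟨w / ‖w‖, hmem⟩ with hz
    have hre : (z : ℂ).re = (x i - c i) / ‖w‖ := by
      show (w / (‖w‖ : ℂ)).re = _
      rw [Complex.div_ofReal_re]
    have him : (z : ℂ).im = (x j - c j) / ‖w‖ := by
      show (w / (‖w‖ : ℂ)).im = _
      rw [Complex.div_ofReal_im]
    have hmax : max |(z : ℂ).re| |(z : ℂ).im| = R / ‖w‖ := by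
      rw [hre, him, abs_div, abs_div, abs_of_pos hn, max_div_div_right hn.le, hx1]
    refine ⟨z, ?_⟩
    have key : ∀ u : ℝ, R * (u / ‖w‖ / (R / ‖w‖)) = u := by
      intro u
      field_simp
    have hval : ∀ m : Fin 3, (loopMap i j c s t₁ t₂ z) m =
        if m = i then c i + R * ((z : ℂ).re / max |(z : ℂ).re| |(z : ℂ).im|)
        else if m = j then c j + R * ((z : ℂ).im / max |(z : ℂ).re| |(z : ℂ).im|)
        else c m + t₂ := fun _ => rfl
    refine PiLp.ext fun m => ?_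
    rw [hval m]
    rcases eq_or_ne m i with rfl | hmi
    · rw [if_pos rfl, hmax, hre, key]
      ring
    · rcases eq_or_ne m j with rfl | hmj
      · rw [if_neg hmi, if_pos rfl, hmax, him, key]
        ring
      · have hmk : m = k := by
          apply Fin.ext
          have a1 := i.isLt
          have a2 := j.isLt
          have a3 := k.isLt
          have a4 := m.isLt
          have b1 : (i : ℕ) ≠ j := fun e => hij (Fin.ext e)
          have b2 : (i : ℕ) ≠ k := fun e => hik (Fin.ext e)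
          have b3 : (j : ℕ) ≠ k := fun e => hjk (Fin.ext e)
          have b4 : (m : ℕ) ≠ i := fun e => hmi (Fin.ext e)
          have b5 : (m : ℕ) ≠ j := fun e => hmj (Fin.ext e)
          omega
        subst hmk
        rw [if_neg hmi, if_neg hmj]
        exact hx2.symm

theorem lp_connected {i j k : Fin 3} (hij : i ≠ j) (hik : i ≠ k) (hjk : j ≠ k)
    (c : Fin 3 → ℝ) {s t₁ : ℝ} (t₂ : ℝ) (h : 0 < 3 / 4 * s + t₁) :
    IsConnected (lp i j k c s t₁ t₂) := by
  rw [← loopMap_range hij hik hjk c t₂ h]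
  exact isConnected_range (loopMap_cont i j c s t₁ t₂)

end Pool.Agent.Lib.MP_8effdd_an.CM
end
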