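import Mathlib
import Pool.Agent.Lib.MP_8effdd_an.CM.Defs
import Pool.Agent.Lib.MP_8effdd_an.Mg.G002
import Pool.Agent.Lib.MP_8effdd_an.Mg.G001

section

set_option autoImplicit false

open MeasureTheory Filter Topology Metric Set
open scoped ENNReal

namespace Pool.Agent.Lib.MP_8effdd_an.CM

theorem circle_sq (z : Circle) : (z : ℂ).re * (z : ℂ).re + (z : ℂ).im * (z : ℂ).im = 1 := by
  have h := Circle.normSq_coe z
  rwa [Complex.normSq_apply] at h

/-- Consecutive square loops are linked. `σ` is the sign of the displacement. -/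
theorem link_pair (f : E3 ≃ₜ E3) {i j k : Fin 3} (hij : i ≠ j) (hik : i ≠ k) (hjk : j ≠ k)
    (c c' : Fin 3 → ℝ) {s : ℝ} (hs : 0 < s) (hi : c' i = c i + s ∨ c' i = c i - s)
    (hj : c' j = c j) (hk : c' k = c k) {t₁ t₂ u₁ u₂ : ℝ} (ht₁ : |t₁| ≤ s / 16)
    (ht₂ : |t₂| ≤ s / 16) (hu₁ : |u₁| ≤ s / 16) (hu₂ : |u₂| ≤ s / 16) (p : E3) (L : ℝ)
    (hb : ∀ x ∈ lp i j k c s t₁ t₂, f x ∈ closedBall p L) :
    ∃ x ∈ lp i k j c' s u₁ u₂, f x ∈ closedBall p L := by
  have ht₁' := abs_le.1 ht₁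
  have ht₂' := abs_le.1 ht₂
  have hu₁' := abs_le.1 hu₁
  have hu₂' := abs_le.1 hu₂
  have hR0 : 0 < 3 / 4 * s + t₁ := by linarith [ht₁'.1]
  -- it is enough to find a sign
  suffices hσ : ∃ σ : ℝ, σ ≠ 0 ∧ ∀ z : Circle,
      0 < (((σ * (rad i k c' (loopMap i j c s t₁ t₂ z) - (3 / 4 * s + u₁)) : ℝ) +
        (((loopMap i j c s t₁ t₂ z) j - (c' j + u₂) : ℝ) : ℂ) * Complex.I) *
        (starRingEnd ℂ) (z : ℂ)).re by
    obtain ⟨σ, hσ0, hσ⟩ := hσ
    obtain ⟨x, hx, hxb⟩ := link f (loopMap i j c s t₁ t₂) (loopMap_cont i j c s t₁ t₂)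
      (fun x => ((σ * (rad i k c' x - (3 / 4 * s + u₁)) : ℝ) : ℂ) +
        ((x j - (c' j + u₂) : ℝ) : ℂ) * Complex.I)
      (by
        have h1 := rad_cont i k c'
        have h2 : Continuous fun x : E3 => x j := by fun_prop
        exact (Complex.continuous_ofReal.comp (continuous_const.mul (h1.sub continuous_const))).add
          ((Complex.continuous_ofReal.comp (h2.sub continuous_const)).mul continuous_const))
      hσ p L (by
        intro z
        refine hb _ ?_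
        rw [← loopMap_range hij hik hjk c t₂ hR0]
        exact mem_range_self z)
    refine ⟨x, ?_, hxb⟩
    have hre := congrArg Complex.re hx
    have him := congrArg Complex.im hx
    simp only [Complex.add_re, Complex.mul_re, Complex.ofReal_re, Complex.ofReal_im, Complex.I_re,
      Complex.I_im, Complex.zero_re, Complex.add_im, Complex.mul_im, Complex.zero_im, mul_zero,
      mul_one, sub_zero, add_zero, zero_add] at hre him
    refine ⟨?_, by linarith⟩
    rcases mul_eq_zero.1 hre with h | h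
    · exact absurd h hσ0
    · linarith
  -- coordinates of the points of the loop
  have hcoord : ∀ z : Circle, (loopMap i j c s t₁ t₂ z) i = c i + (3 / 4 * s + t₁) *
        ((z : ℂ).re / max |(z : ℂ).re| |(z : ℂ).im|) ∧
      (loopMap i j c s t₁ t₂ z) j = c j + (3 / 4 * s + t₁) *
        ((z : ℂ).im / max |(z : ℂ).re| |(z : ℂ).im|) ∧
      (loopMap i j c s t₁ t₂ z) k = c k + t₂ := by
    intro z
    refine ⟨?_, ?_, ?_⟩
    · simp [loopMap]
    · simp [loopMap, hij.symm]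
    · simp [loopMap, hik.symm, hjk.symm]
  have hm : ∀ z : Circle, 0 < max |(z : ℂ).re| |(z : ℂ).im| ∧ max |(z : ℂ).re| |(z : ℂ).im| ≤ 1 := by
    intro z
    have h := circle_sq z
    constructor
    · by_contra h1
      have h2 : |(z : ℂ).re| ≤ 0 := (le_max_left _ _).trans (not_lt.1 h1)
      have h3 : |(z : ℂ).im| ≤ 0 := (le_max_right _ _).trans (not_lt.1 h1)
      have h4 : (z : ℂ).re = 0 := abs_eq_zero.1 (le_antisymm h2 (abs_nonneg _))
      have h5 : (z : ℂ).im = 0 := abs_eq_zero.1 (le_antisymm h3 (abs_nonneg _))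
      rw [h4, h5] at h
      norm_num at h
    · refine max_le ?_ ?_
      · rw [abs_le]; constructor <;> nlinarith [sq_nonneg ((z : ℂ).im)]
      · rw [abs_le]; constructor <;> nlinarith [sq_nonneg ((z : ℂ).re)]
  have hratio : ∀ z : Circle, abs ((z : ℂ).re / max |(z : ℂ).re| |(z : ℂ).im|) ≤ 1 := by
    intro z
    rw [abs_div, abs_of_pos (hm z).1, div_le_one (hm z).1]
    exact le_max_left _ _
  have hmain : ∀ (z : Circle) (A : ℝ), |A| ≤ 5 * s / 16 →
      0 < ((3 / 4 * s + t₁) * ((z : ℂ).re / max |(z : ℂ).re| |(z : ℂ).im|) - A) * (z : ℂ).re +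
        ((3 / 4 * s + t₁) * ((z : ℂ).im / max |(z : ℂ).re| |(z : ℂ).im|) - u₂) * (z : ℂ).im := by
    intro z A hA
    have h := circle_sq z
    have hm1 := (hm z).1
    have hm2 := (hm z).2
    have h1 : ((3 / 4 * s + t₁) * ((z : ℂ).re / max |(z : ℂ).re| |(z : ℂ).im|) - A) * (z : ℂ).re +
        ((3 / 4 * s + t₁) * ((z : ℂ).im / max |(z : ℂ).re| |(z : ℂ).im|) - u₂) * (z : ℂ).im =
        (3 / 4 * s + t₁) / max |(z : ℂ).re| |(z : ℂ).im| *
          ((z : ℂ).re * (z : ℂ).re + (z : ℂ).im * (z : ℂ).im) - A * (z : ℂ).re - u₂ * (z : ℂ).im := by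
      field_simp
      ring
    rw [h1, h, mul_one]
    have h2 : 3 / 4 * s + t₁ ≤ (3 / 4 * s + t₁) / max |(z : ℂ).re| |(z : ℂ).im| := by
      rw [le_div_iff₀ hm1]
      nlinarith
    have h3 : |(z : ℂ).re| ≤ 1 := (le_max_left _ _).trans hm2
    have h4 : |(z : ℂ).im| ≤ 1 := (le_max_right _ _).trans hm2
    have h5 : |A * (z : ℂ).re| ≤ 5 * s / 16 := by
      rw [abs_mul]
      calc |A| * |(z : ℂ).re| ≤ (5 * s / 16) * 1 := by gcongr
        _ = 5 * s / 16 := by ring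
    have h6 : |u₂ * (z : ℂ).im| ≤ s / 16 := by
      rw [abs_mul]
      calc |u₂| * |(z : ℂ).im| ≤ (s / 16) * 1 := by gcongr
        _ = s / 16 := by ring
    have h7 := (abs_le.1 h5).2
    have h8 := (abs_le.1 h6).2
    linarith [ht₁'.1]
  have hre : ∀ (a b : ℝ) (z : Circle), ((((a : ℝ) : ℂ) + ((b : ℝ) : ℂ) * Complex.I) *
      (starRingEnd ℂ) (z : ℂ)).re = a * (z : ℂ).re + b * (z : ℂ).im := by
    intro a b z
    simp [Complex.mul_re, Complex.add_re, Complex.add_im, Complex.mul_im]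
  have hRx : ∀ z : Circle, abs ((3 / 4 * s + t₁) * ((z : ℂ).re / max |(z : ℂ).re| |(z : ℂ).im|)) ≤
      13 / 16 * s := by
    intro z
    rw [abs_mul, abs_of_pos hR0]
    calc (3 / 4 * s + t₁) * abs ((z : ℂ).re / max |(z : ℂ).re| |(z : ℂ).im|)
        ≤ (3 / 4 * s + t₁) * 1 := by
          gcongr
          exact hratio z
      _ ≤ 13 / 16 * s := by linarith [ht₁'.2]
  rcases hi with hi | hi
  · refine ⟨-1, by norm_num, fun z => ?_⟩
    rw [hre]
    obtain ⟨e1, e2, e3⟩ := hcoord z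
    have hx := abs_le.1 (hRx z)
    have hrad : rad i k c' (loopMap i j c s t₁ t₂ z) = s - (3 / 4 * s + t₁) *
        ((z : ℂ).re / max |(z : ℂ).re| |(z : ℂ).im|) := by
      unfold rad
      rw [e1, e3, hi, hk]
      have h1 : c i + (3 / 4 * s + t₁) * ((z : ℂ).re / max |(z : ℂ).re| |(z : ℂ).im|) - (c i + s) =
          -(s - (3 / 4 * s + t₁) * ((z : ℂ).re / max |(z : ℂ).re| |(z : ℂ).im|)) := by ring
      have h2 : c k + t₂ - c k = t₂ := by ring
      rw [h1, h2, abs_neg, abs_of_nonneg (by linarith [hx.2])]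
      exact max_eq_left (by linarith [hx.2])
    rw [hrad, e2, hj]
    have := hmain z (s / 4 - u₁) (by rw [abs_le]; constructor <;> linarith [hu₁'.1, hu₁'.2])
    nlinarith [this]
  · refine ⟨1, by norm_num, fun z => ?_⟩
    rw [hre]
    obtain ⟨e1, e2, e3⟩ := hcoord z
    have hx := abs_le.1 (hRx z)
    have hrad : rad i k c' (loopMap i j c s t₁ t₂ z) = s + (3 / 4 * s + t₁) *
        ((z : ℂ).re / max |(z : ℂ).re| |(z : ℂ).im|) := by
      unfold rad
      rw [e1, e3, hi, hk]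
      have h1 : c i + (3 / 4 * s + t₁) * ((z : ℂ).re / max |(z : ℂ).re| |(z : ℂ).im|) - (c i - s) =
          s + (3 / 4 * s + t₁) * ((z : ℂ).re / max |(z : ℂ).re| |(z : ℂ).im|) := by ring
      have h2 : c k + t₂ - c k = t₂ := by ring
      rw [h1, h2, abs_of_nonneg (by linarith [hx.1])]
      exact max_eq_left (by linarith [hx.1])
    rw [hrad, e2, hj]
    have := hmain z (-(s / 4 - u₁)) (by rw [abs_neg, abs_le]; constructor <;>
      linarith [hu₁'.1, hu₁'.2])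
    nlinarith [this]

end Pool.Agent.Lib.MP_8effdd_an.CM
end

section

set_option autoImplicit false

open MeasureTheory Filter Topology Metric Set
open scoped ENNReal

namespace Pool.Agent.Lib.MP_8effdd_an.CM

/-- Besicovitch covering of a compact set by finitely many balls in `N` disjoint families. -/
theorem exists_cover : ∃ N : ℕ, ∀ (K : Set E3) (r : E3 → ℝ) (δ : ℝ), IsCompact K →
    (∀ x ∈ K, 0 < r x ∧ r x ≤ δ) →
    ∃ J : Fin N → Finset E3, (∀ i, ∀ x ∈ J i, x ∈ K) ∧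
      (∀ i, (J i : Set E3).PairwiseDisjoint fun x => closedBall x (r x)) ∧
      K ⊆ ⋃ i, ⋃ x ∈ J i, ball x (r x) := by
  classical
  obtain ⟨N, τ, hτ, hN⟩ := HasBesicovitchCovering.no_satelliteConfig (α := E3)
  refine ⟨N, fun K r δ hK hr => ?_⟩
  let q : Besicovitch.BallPackage K E3 :=
    { c := fun x => x.1
      r := fun x => r x.1
      rpos := fun x => (hr x.1 x.2).1
      r_bound := δ
      r_le := fun x => (hr x.1 x.2).2 }
  obtain ⟨s, hs, hcov⟩ := Besicovitch.exist_disjoint_covering_families hτ hN q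
  let ι := {p : Fin N × K // p.2 ∈ s p.1}
  have hKc : K ⊆ ⋃ p : ι, ball (p.1.2 : E3) (r p.1.2) := by
    intro x hx
    have h1 : x ∈ range q.c := ⟨⟨x, hx⟩, rfl⟩
    obtain ⟨i, hi⟩ := mem_iUnion.mp (hcov h1)
    obtain ⟨j, hj, hxj⟩ := mem_iUnion₂.mp hi
    exact mem_iUnion.mpr ⟨⟨(i, j), hj⟩, hxj⟩
  obtain ⟨t, ht⟩ := hK.elim_finite_subcover (fun p : ι => ball (p.1.2 : E3) (r p.1.2))
    (fun p => isOpen_ball) hKc
  refine ⟨fun i => (t.filter fun p => p.1.1 = i).image fun p => (p.1.2 : E3), ?_, ?_, ?_⟩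
  · intro i x hx
    obtain ⟨p, _, rfl⟩ := Finset.mem_image.mp hx
    exact p.1.2.2
  · intro i x hx y hy hxy
    obtain ⟨p, hp, rfl⟩ := Finset.mem_image.mp (Finset.mem_coe.mp hx)
    obtain ⟨p', hp', rfl⟩ := Finset.mem_image.mp (Finset.mem_coe.mp hy)
    have e1 : p.1.1 = i := (Finset.mem_filter.mp hp).2
    have e2 : p'.1.1 = i := (Finset.mem_filter.mp hp').2
    have m1 : p.1.2 ∈ s i := e1 ▸ p.2
    have m2 : p'.1.2 ∈ s i := e2 ▸ p'.2
    exact hs i m1 m2 fun h => hxy (congrArg Subtype.val h)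
  · intro x hx
    obtain ⟨p, hp, hxp⟩ := mem_iUnion₂.mp (ht hx)
    refine mem_iUnion.mpr ⟨p.1.1, mem_iUnion₂.mpr ⟨p.1.2, ?_, hxp⟩⟩
    exact Finset.mem_image.mpr ⟨p, Finset.mem_filter.mpr ⟨hp, rfl⟩, rfl⟩

end Pool.Agent.Lib.MP_8effdd_an.CM
end

section

set_option autoImplicit false

open MeasureTheory Filter Topology Metric Set
open scoped ENNReal

namespace Pool.Agent.Lib.MP_8effdd_an.CM

/-- volume of the unit ball -/
private theorem vol_ball_unit_pos : 0 < (volume (ball (0 : E3) 1)).toReal := by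
  apply ENNReal.toReal_pos
  · exact (measure_ball_pos volume (0 : E3) one_pos).ne'
  · exact measure_ball_lt_top.ne

private theorem vol_closedBall_eq (x : E3) {r : ℝ} (hr : 0 ≤ r) :
    volume (closedBall x r) = ENNReal.ofReal (r ^ 3 * (volume (ball (0 : E3) 1)).toReal) := by
  rw [Measure.addHaar_closedBall volume x hr, ENNReal.ofReal_mul (by positivity),
    ENNReal.ofReal_toReal measure_ball_lt_top.ne]
  simp

private theorem vol_ball_eq (x : E3) {r : ℝ} (hr : 0 ≤ r) :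
    volume (ball x r) = ENNReal.ofReal (r ^ 3 * (volume (ball (0 : E3) 1)).toReal) := by
  rw [Measure.addHaar_ball volume x hr, ENNReal.ofReal_mul (by positivity),
    ENNReal.ofReal_toReal measure_ball_lt_top.ne]
  simp

private theorem sum_vol_le (s : Finset E3) (B : E3 → Set E3) (ρ : E3 → ℝ) (T : Set E3) (V : ℝ)
    (hV : volume T ≤ ENNReal.ofReal V) (hV0 : 0 ≤ V)
    (hm : ∀ x ∈ s, MeasurableSet (B x)) (hd : (s : Set E3).PairwiseDisjoint B)
    (hB : ∀ x ∈ s, B x ⊆ T) (hρ : ∀ x ∈ s, 0 ≤ ρ x)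
    (he : ∀ x ∈ s, volume (B x) = ENNReal.ofReal (ρ x)) : ∑ x ∈ s, ρ x ≤ V := by
  have h1 : volume (⋃ x ∈ s, B x) = ∑ x ∈ s, volume (B x) := measure_biUnion_finset hd hm
  have h2 : volume (⋃ x ∈ s, B x) ≤ volume T := measure_mono (iUnion₂_subset hB)
  rw [h1, Finset.sum_congr rfl he, ← ENNReal.ofReal_sum_of_nonneg hρ] at h2
  exact (ENNReal.ofReal_le_ofReal_iff hV0).1 (h2.trans hV)

private theorem amgm {a b : ℝ} (ha : 0 ≤ a) (hb : 0 ≤ b) : a * b ^ 2 ≤ a ^ 3 + b ^ 3 := by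
  nlinarith [mul_nonneg (sq_nonneg (a - b)) ha, mul_nonneg (sq_nonneg (a - b)) hb,
    pow_nonneg ha 3, pow_nonneg hb 3]

/-- Volume bound: a metrically quasiconformal homeomorphism maps one loop of a two parameter family of
loops onto a set of diameter controlled by the volume of the image. -/
theorem vol_lemma (H A : ℝ) : ∃ C : ℝ, 0 < C ∧ ∀ (f : E3 ≃ₜ E3) (T K : Set E3) (τ₁ τ₂ : E3 → ℝ)
    (θ : ℝ) (γ : ℝ → ℝ → Set E3), IsOpen T → IsCompact K → K ⊆ T → QCon f H T →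
    volume (f '' T) ≠ ⊤ →
    (∀ x y, |τ₁ x - τ₁ y| ≤ dist x y) → (∀ x y, |τ₂ x - τ₂ y| ≤ dist x y) → 0 < θ →
    volume T ≤ ENNReal.ofReal (A * θ ^ 3) →
    (∀ t₁ ∈ Icc (-θ) θ, ∀ t₂ ∈ Icc (-θ) θ, γ t₁ t₂ ⊆ K ∧ (γ t₁ t₂).Nonempty ∧
      IsPreconnected (γ t₁ t₂) ∧ ∀ x ∈ γ t₁ t₂, τ₁ x = t₁ ∧ τ₂ x = t₂) →
    ∃ t₁ ∈ Icc (-θ) θ, ∃ t₂ ∈ Icc (-θ) θ,
      (diam (f '' γ t₁ t₂)) ^ 3 ≤ C * (volume (f '' T)).toReal := by
  obtain ⟨N, hN⟩ := exists_cover
  set c3 : ℝ := (volume (ball (0 : E3) 1)).toReal with hc3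
  have hc3pos : 0 < c3 := vol_ball_unit_pos
  set M : ℝ := 2 * |H| * N * (1 + |A|) / c3 + 1 with hM
  have hMpos : 0 < M := by positivity
  refine ⟨M ^ 3, by positivity, ?_⟩
  intro f T K τ₁ τ₂ θ γ hT hK hKT hQ hfT hτ₁ hτ₂ hθ hvT hγ
  by_contra hcon
  push Not at hcon
  -- K nonempty
  have h0 : (0 : ℝ) ∈ Icc (-θ) θ := ⟨by linarith, hθ.le⟩
  obtain ⟨x₀, hx₀⟩ := (hγ 0 h0 0 h0).2.1
  have hx₀K : x₀ ∈ K := (hγ 0 h0 0 h0).1 hx₀
  have hx₀T : x₀ ∈ T := hKT hx₀K
  -- V and v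
  set V : ℝ := (volume (f '' T)).toReal with hV
  have hfTo : IsOpen (f '' T) := f.isOpenMap T hT
  have hVpos : 0 < V :=
    ENNReal.toReal_pos (hfTo.measure_pos volume ⟨f x₀, x₀, hx₀T, rfl⟩).ne' hfT
  obtain ⟨v, hvpos, hv3⟩ : ∃ v : ℝ, 0 < v ∧ v ^ 3 = V :=
    ⟨V ^ (1 / 3 : ℝ), Real.rpow_pos_of_pos hVpos _, by
      rw [← Real.rpow_natCast, ← Real.rpow_mul hVpos.le]; norm_num⟩
  have hAθ : 0 < A * θ ^ 3 := by
    have h1 : 0 < volume T := hT.measure_pos volume ⟨x₀, hx₀T⟩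
    exact ENNReal.ofReal_pos.1 (h1.trans_le hvT)
  have hApos : 0 < A := by
    by_contra hA
    push Not at hA
    have : A * θ ^ 3 ≤ 0 := mul_nonpos_of_nonpos_of_nonneg hA (by positivity)
    linarith
  -- the radii
  have hrad : ∀ x ∈ K, ∃ r : ℝ, 0 < r ∧ r ≤ 1 ∧ closedBall x r ⊆ T ∧
      ∀ y z : E3, dist y x = r → dist z x = r → dist (f y) (f x) ≤ H * dist (f z) (f x) := by
    intro x hx
    have hxT := hKT hx
    obtain ⟨e, he, heT⟩ := Metric.isOpen_iff.1 hT x hxT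
    have h1 := hQ x hxT
    have h2 : ∀ᶠ r in 𝓝[>] (0 : ℝ), r ∈ Ioo 0 (min 1 e) :=
      Ioo_mem_nhdsGT (lt_min one_pos he)
    obtain ⟨r, hr1, hr2⟩ := (h1.and h2).exists
    refine ⟨r, hr2.1, (hr2.2.trans_le (min_le_left _ _)).le, ?_, hr1⟩
    exact (closedBall_subset_ball (hr2.2.trans_le (min_le_right _ _))).trans heT
  choose! r hr0 hr1 hrT hrQ using hrad
  have himg : ∀ x ∈ K, ∃ l : ℝ, 0 < l ∧ ball (f x) l ⊆ f '' ball x (r x) ∧
      f '' closedBall x (r x) ⊆ closedBall (f x) (H * l) := fun x hx =>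
    ball_image f (hr0 x hx) (hrQ x hx)
  choose! l hl0 hl1 hl2 using himg
  have hH : 0 ≤ H := by
    have h1 : f x₀ ∈ closedBall (f x₀) (H * l x₀) :=
      hl2 x₀ hx₀K ⟨x₀, mem_closedBall_self (hr0 x₀ hx₀K).le, rfl⟩
    have h2 : 0 ≤ H * l x₀ := by
      have := mem_closedBall.1 h1
      rwa [dist_self] at this
    exact nonneg_of_mul_nonneg_left h2 (hl0 x₀ hx₀K)
  obtain ⟨J, hJK, hJd, hJc⟩ := hN K r 1 hK (fun x hx => ⟨hr0 x hx, hr1 x hx⟩)
  -- sums of volumes
  have hsumr : ∀ i, ∑ x ∈ J i, (r x) ^ 3 ≤ A * θ ^ 3 / c3 := by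
    intro i
    have h := sum_vol_le (J i) (fun x => closedBall x (r x)) (fun x => (r x) ^ 3 * c3) T (A * θ ^ 3)
      hvT hAθ.le (fun x _ => isClosed_closedBall.measurableSet) (hJd i)
      (fun x hx => hrT x (hJK i x hx))
      (fun x hx => by have := hr0 x (hJK i x hx); positivity)
      (fun x hx => vol_closedBall_eq x (hr0 x (hJK i x hx)).le)
    rw [← Finset.sum_mul] at h
    rwa [le_div_iff₀ hc3pos]
  have hsuml : ∀ i, ∑ x ∈ J i, (l x) ^ 3 ≤ v ^ 3 / c3 := by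
    intro i
    have hd : (J i : Set E3).PairwiseDisjoint fun x => ball (f x) (l x) := by
      intro x hx y hy hxy
      have h1 := hJd i hx hy hxy
      simp only [Function.onFun] at h1 ⊢
      have h2 : Disjoint (f '' closedBall x (r x)) (f '' closedBall y (r y)) :=
        (disjoint_image_iff f.injective).2 h1
      exact h2.mono ((hl1 x (hJK i x hx)).trans (image_mono ball_subset_closedBall))
        ((hl1 y (hJK i y hy)).trans (image_mono ball_subset_closedBall))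
    have h := sum_vol_le (J i) (fun x => ball (f x) (l x)) (fun x => (l x) ^ 3 * c3) (f '' T) (v ^ 3)
      (by rw [hv3, hV, ENNReal.ofReal_toReal hfT]) (by positivity)
      (fun x _ => isOpen_ball.measurableSet) hd
      (fun x hx => (hl1 x (hJK i x hx)).trans
        (image_mono (ball_subset_closedBall.trans (hrT x (hJK i x hx)))))
      (fun x hx => by have := hl0 x (hJK i x hx); positivity)
      (fun x hx => vol_ball_eq (f x) (hl0 x (hJK i x hx)).le)
    rw [← Finset.sum_mul] at h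
    rwa [le_div_iff₀ hc3pos]
  -- mixed sums
  have hmix : ∀ i, ∑ x ∈ J i, l x * (r x) ^ 2 ≤ v * θ ^ 2 * (1 + A) / c3 := by
    intro i
    have h1 : ∀ x ∈ J i, l x * (r x) ^ 2 ≤ v * θ ^ 2 * ((l x) ^ 3 / v ^ 3 + (r x) ^ 3 / θ ^ 3) := by
      intro x hx
      have hl := hl0 x (hJK i x hx)
      have hr := hr0 x (hJK i x hx)
      have h2 := amgm (a := l x / v) (b := r x / θ) (by positivity) (by positivity)
      calc l x * (r x) ^ 2 = v * θ ^ 2 * (l x / v * (r x / θ) ^ 2) := by field_simp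
        _ ≤ v * θ ^ 2 * ((l x / v) ^ 3 + (r x / θ) ^ 3) := by gcongr
        _ = _ := by rw [div_pow, div_pow]
    calc ∑ x ∈ J i, l x * (r x) ^ 2
        ≤ ∑ x ∈ J i, v * θ ^ 2 * ((l x) ^ 3 / v ^ 3 + (r x) ^ 3 / θ ^ 3) := Finset.sum_le_sum h1
      _ = v * θ ^ 2 * ((∑ x ∈ J i, (l x) ^ 3) / v ^ 3 + (∑ x ∈ J i, (r x) ^ 3) / θ ^ 3) := by
          rw [← Finset.mul_sum, Finset.sum_add_distrib, Finset.sum_div, Finset.sum_div]
      _ ≤ v * θ ^ 2 * ((v ^ 3 / c3) / v ^ 3 + (A * θ ^ 3 / c3) / θ ^ 3) := by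
          have := hsumr i
          have := hsuml i
          gcongr
      _ = v * θ ^ 2 * (1 + A) / c3 := by field_simp
  -- pointwise bound
  classical
  set JJ : Finset (Σ _ : Fin N, E3) := Finset.univ.sigma J with hJJ
  have hmem : ∀ j ∈ JJ, j.2 ∈ K := by
    intro j hj
    rw [hJJ, Finset.mem_sigma] at hj
    exact hJK j.1 j.2 hj.2
  set box : (Σ _ : Fin N, E3) → Set (ℝ × ℝ) := fun j =>
    Icc (τ₁ j.2 - r j.2) (τ₁ j.2 + r j.2) ×ˢ Icc (τ₂ j.2 - r j.2) (τ₂ j.2 + r j.2) with hbox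
  have hpt : ∀ t ∈ Icc (-θ) θ ×ˢ Icc (-θ) θ,
      ENNReal.ofReal (M * v) ≤
        ∑ j ∈ JJ, (box j).indicator (fun _ => ENNReal.ofReal (2 * (H * l j.2))) t := by
    rintro ⟨t₁, t₂⟩ ⟨ht₁, ht₂⟩
    obtain ⟨hK1, hne, hconn, hτ⟩ := hγ t₁ ht₁ t₂ ht₂
    have hlt := hcon t₁ ht₁ t₂ ht₂
    rw [← hv3, ← mul_pow] at hlt
    have hMv : M * v < diam (f '' γ t₁ t₂) := lt_of_pow_lt_pow_left₀ 3 diam_nonneg hlt
    have hds := diam_le_sum (f '' γ t₁ t₂) (hconn.image f f.continuous.continuousOn) JJ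
      (fun j => f '' ball j.2 (r j.2)) (fun j => f j.2) (fun j => H * l j.2)
      (fun j hj => (image_mono ball_subset_closedBall).trans (hl2 j.2 (hmem j hj)))
      (fun j hj => mul_nonneg hH (hl0 j.2 (hmem j hj)).le)
      (fun j => (t₁, t₂) ∈ box j)
      (by
        rintro j hj ⟨z, ⟨a, ha, rfl⟩, ⟨b, hb, hab⟩⟩
        have hab' : b = a := f.injective hab
        subst hab'
        obtain ⟨h1, h2⟩ := hτ b hb
        have hd : dist b j.2 < r j.2 := mem_ball.1 ha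
        have h3 := abs_le.1 (hτ₁ b j.2)
        have h4 := abs_le.1 (hτ₂ b j.2)
        rw [h1] at h3
        rw [h2] at h4
        refine ⟨⟨?_, ?_⟩, ⟨?_, ?_⟩⟩ <;> simp only <;> linarith [h3.1, h3.2, h4.1, h4.2])
      (by
        rintro z ⟨a, ha, rfl⟩
        have := hJc (hK1 ha)
        simp only [mem_iUnion] at this ⊢
        obtain ⟨i, x, hx, hax⟩ := this
        exact ⟨⟨i, x⟩, by rw [hJJ, Finset.mem_sigma]; exact ⟨Finset.mem_univ _, hx⟩, a, hax, rfl⟩)
    have h5 : M * v ≤ ∑ j ∈ JJ with (t₁, t₂) ∈ box j, 2 * (H * l j.2) := hMv.le.trans hds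
    refine (ENNReal.ofReal_le_ofReal h5).trans ?_
    rw [ENNReal.ofReal_sum_of_nonneg, Finset.sum_filter]
    · apply Finset.sum_le_sum
      intro j _
      rw [indicator_apply]
    · intro j hj
      have := hl0 j.2 (hmem j (Finset.mem_filter.1 hj).1)
      positivity
  -- integrate
  have hint : ENNReal.ofReal (M * v) * ENNReal.ofReal (4 * θ ^ 2) ≤
      ∑ j ∈ JJ, ENNReal.ofReal (2 * (H * l j.2)) * ENNReal.ofReal (4 * (r j.2) ^ 2) := by
    have hvolbox : volume (Icc (-θ) θ ×ˢ Icc (-θ) θ) = ENNReal.ofReal (4 * θ ^ 2) := by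
      rw [Measure.volume_eq_prod, Measure.prod_prod, Real.volume_Icc, ← ENNReal.ofReal_mul (by linarith)]
      congr 1; ring
    have hbm : ∀ j, MeasurableSet (box j) := fun j => measurableSet_Icc.prod measurableSet_Icc
    calc ENNReal.ofReal (M * v) * ENNReal.ofReal (4 * θ ^ 2)
        = ∫⁻ _ in Icc (-θ) θ ×ˢ Icc (-θ) θ, ENNReal.ofReal (M * v) ∂(volume : Measure (ℝ × ℝ)) := by
          rw [setLIntegral_const, hvolbox]
      _ ≤ ∫⁻ t in Icc (-θ) θ ×ˢ Icc (-θ) θ,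
            ∑ j ∈ JJ, (box j).indicator (fun _ => ENNReal.ofReal (2 * (H * l j.2))) t := by
          apply setLIntegral_mono' (measurableSet_Icc.prod measurableSet_Icc)
          exact hpt
      _ ≤ ∫⁻ t, ∑ j ∈ JJ, (box j).indicator (fun _ => ENNReal.ofReal (2 * (H * l j.2))) t :=
          setLIntegral_le_lintegral _ _
      _ = ∑ j ∈ JJ, ∫⁻ t, (box j).indicator (fun _ => ENNReal.ofReal (2 * (H * l j.2))) t := by
          rw [lintegral_finsetSum]
          intro j _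
          exact measurable_const.indicator (hbm j)
      _ = ∑ j ∈ JJ, ENNReal.ofReal (2 * (H * l j.2)) * ENNReal.ofReal (4 * (r j.2) ^ 2) := by
          apply Finset.sum_congr rfl
          intro j hj
          have hr := hr0 j.2 (hmem j hj)
          rw [lintegral_indicator_const (hbm j)]
          congr 1
          rw [hbox, Measure.volume_eq_prod, Measure.prod_prod, Real.volume_Icc, Real.volume_Icc,
            ← ENNReal.ofReal_mul (by linarith)]
          congr 1; ring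
  have hreal : M * v * (4 * θ ^ 2) ≤ ∑ j ∈ JJ, 2 * (H * l j.2) * (4 * (r j.2) ^ 2) := by
    have hnn : ∀ j ∈ JJ, 0 ≤ 2 * (H * l j.2) * (4 * (r j.2) ^ 2) := fun j hj => by
      have := hl0 j.2 (hmem j hj)
      positivity
    rw [← ENNReal.ofReal_le_ofReal_iff (Finset.sum_nonneg hnn), ENNReal.ofReal_sum_of_nonneg hnn,
      ENNReal.ofReal_mul (by positivity)]
    refine hint.trans (le_of_eq (Finset.sum_congr rfl fun j hj => ?_))
    have := hl0 j.2 (hmem j hj)
    rw [← ENNReal.ofReal_mul (by positivity)]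
  have hfin : M * v * (4 * θ ^ 2) ≤ N * (8 * H * (v * θ ^ 2 * (1 + A) / c3)) := by
    refine hreal.trans ?_
    rw [hJJ, Finset.sum_sigma]
    calc ∑ i : Fin N, ∑ x ∈ J i, 2 * (H * l x) * (4 * (r x) ^ 2)
        = ∑ i : Fin N, 8 * H * ∑ x ∈ J i, l x * (r x) ^ 2 := by
          apply Finset.sum_congr rfl
          intro i _
          rw [Finset.mul_sum]
          apply Finset.sum_congr rfl
          intro x _
          ring
      _ ≤ ∑ i : Fin N, 8 * H * (v * θ ^ 2 * (1 + A) / c3) := by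
          apply Finset.sum_le_sum
          intro i _
          have := hmix i
          gcongr
      _ = _ := by simp
  have hMlt : M ≤ 2 * H * N * (1 + A) / c3 := by
    have h1 : M * (4 * v * θ ^ 2) ≤ (2 * H * N * (1 + A) / c3) * (4 * v * θ ^ 2) := by
      calc M * (4 * v * θ ^ 2) = M * v * (4 * θ ^ 2) := by ring
        _ ≤ N * (8 * H * (v * θ ^ 2 * (1 + A) / c3)) := hfin
        _ = _ := by ring
    exact le_of_mul_le_mul_right h1 (by positivity)
  rw [hM, abs_of_nonneg hH, abs_of_pos hApos] at hMlt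
  linarith

end Pool.Agent.Lib.MP_8effdd_an.CM
end
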