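import Mathlib
import Pool.Agent.Lib.MP_8effdd_an.CM.Defs
import Pool.Agent.Lib.MP_8effdd_an.Mg.G002
import Pool.Agent.Lib.MP_8effdd_an.Mg.G003
import Pool.Agent.Lib.MP_8effdd_an.CM.Cube

section

set_option autoImplicit false

open MeasureTheory Filter Topology Metric Set
open scoped ENNReal

namespace Pool.Agent.Lib.MP_8effdd_an.CM

theorem idx_distinct (ι : Idx) : ι.d ≠ ι.j ∧ ι.d ≠ ι.k ∧ ι.j ≠ ι.k := by
  have h : ∀ d : Fin 3, d ≠ d + 1 ∧ d ≠ d + 2 ∧ d + 1 ≠ d + 2 := by decide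
  obtain ⟨h1, h2, h3⟩ := h ι.d
  unfold Idx.j Idx.k
  split_ifs
  · exact ⟨h1, h2, h3⟩
  · exact ⟨h2, h1, h3.symm⟩

theorem coord_lip (m : Fin 3) (x y : E3) : |x m - y m| ≤ dist x y := by
  have h := PiLp.norm_apply_le (x - y) m
  rw [dist_eq_norm]
  simpa using h

theorem gauge_compact (ι : Idx) {s η : ℝ} (hs : 0 < s) (hη : η < 1 / 4) :
    IsCompact {x : E3 | ι.g s x ≤ η * s} := by
  refine isCompact_of_isClosed_isBounded (isClosed_le (g_cont ι s) continuous_const) ?_
  rw [Metric.isBounded_iff]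
  have hsub : ∀ x : E3, ι.g s x ≤ η * s → x ∈ ι.fr s (1 / 4) := by
    intro x hx
    show ι.g s x < 1 / 4 * s
    nlinarith
  exact ⟨4 * s, fun x hx y hy => fr_diam ι hs (hsub x hx) (hsub y hy)⟩

theorem lp_gauge (ι : Idx) {s t₁ t₂ : ℝ} (ht₁ : |t₁| ≤ s / 16) (ht₂ : |t₂| ≤ s / 16) :
    lp ι.d ι.j ι.k (ι.ctr s) s t₁ t₂ ⊆ {x : E3 | ι.g s x ≤ 1 / 16 * s} := by
  intro x hx
  obtain ⟨h1, h2⟩ := hx
  show gau ι.d ι.j ι.k (ι.ctr s) s x ≤ 1 / 16 * s
  unfold gau
  rw [h1, h2]
  refine max_le ?_ ?_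
  · have : 3 / 4 * s + t₁ - 3 / 4 * s = t₁ := by ring
    rw [this]; linarith
  · have : (ι.ctr s) ι.k + t₂ - (ι.ctr s) ι.k = t₂ := by ring
    rw [this]; linarith

/-- the centers of consecutive frames -/
theorem ctr_succ (d : Fin 3) (n p q : ℤ) (s : ℝ) (m : Fin 3) :
    (Idx.mk d (n + 1) p q).ctr s m = (Idx.mk d n p q).ctr s m + (if m = d then s else 0) := by
  unfold Idx.ctr
  by_cases h : m = d
  · simp only [h, if_true]; push_cast; ring
  · simp only [h, if_false]
    split_ifs <;> ring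

/-- Points and lengths along a row of frames. -/
theorem row_points (H : ℝ) : ∃ C : ℝ, 0 < C ∧ ∀ (f : E3 ≃ₜ E3) (s : ℝ), 0 < s → QCon f H (mail s) →
    ∀ (d : Fin 3) (p q : ℤ), ∃ (x : ℤ → E3) (L : ℤ → ℝ),
      (∀ n, x n ∈ (Idx.mk d n p q).fr s (1 / 8)) ∧ (∀ n, 0 ≤ L n) ∧
      (∀ n, L n ^ 3 ≤ C * (volume (f '' (Idx.mk d n p q).fr s (1 / 8))).toReal) ∧
      ∀ n, dist (f (x n)) (f (x (n + 1))) ≤ L n + L (n + 1) := by
  obtain ⟨C, hC, hvol⟩ := vol_lemma H (8 * 16 ^ 3)
  refine ⟨C, hC, fun f s hs hQ d p q => ?_⟩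
  -- good loops
  have hgood : ∀ n : ℤ, ∃ t : ℝ × ℝ, |t.1| ≤ s / 16 ∧ |t.2| ≤ s / 16 ∧
      (diam (f '' lp (Idx.mk d n p q).d (Idx.mk d n p q).j (Idx.mk d n p q).k
        ((Idx.mk d n p q).ctr s) s t.1 t.2)) ^ 3 ≤
        C * (volume (f '' (Idx.mk d n p q).fr s (1 / 8))).toReal := by
    intro n
    generalize hι : Idx.mk d n p q = ι
    obtain ⟨hdj, hdk, hjk⟩ := idx_distinct ι
    have hK := gauge_compact ι hs (η := 1 / 16) (by norm_num)
    have hK8 := gauge_compact ι hs (η := 1 / 8) (by norm_num)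
    have hKT : {x : E3 | ι.g s x ≤ 1 / 16 * s} ⊆ ι.fr s (1 / 8) := by
      intro x hx
      show ι.g s x < 1 / 8 * s
      have : ι.g s x ≤ 1 / 16 * s := hx
      linarith
    have hTK : ι.fr s (1 / 8) ⊆ {x : E3 | ι.g s x ≤ 1 / 8 * s} := by
      intro x hx
      have hx' : ι.g s x < 1 / 8 * s := hx
      exact hx'.le
    have hfin : volume (f '' ι.fr s (1 / 8)) ≠ ⊤ :=
      ne_top_of_le_ne_top (hK8.image f.continuous).measure_lt_top.ne
        (measure_mono (image_mono hTK))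
    have hA : volume (ι.fr s (1 / 8)) ≤ ENNReal.ofReal (8 * 16 ^ 3 * (s / 16) ^ 3) := by
      have := fr_volume ι hs
      have h1 : (8 * 16 ^ 3 * (s / 16) ^ 3 : ℝ) = 8 * s ^ 3 := by ring
      rwa [h1]
    obtain ⟨t₁, ht₁, t₂, ht₂, h⟩ := hvol f (ι.fr s (1 / 8)) {x : E3 | ι.g s x ≤ 1 / 16 * s}
      (fun x => rad ι.d ι.j (ι.ctr s) x - 3 / 4 * s) (fun x => x ι.k - ι.ctr s ι.k) (s / 16)
      (fun t₁ t₂ => lp ι.d ι.j ι.k (ι.ctr s) s t₁ t₂) (fr_open ι s _) hK hKT
      (fun x hx => hQ x (mem_iUnion.2 ⟨ι, hx⟩)) hfin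
      (by
        intro x y
        have := rad_lip ι.d ι.j (ι.ctr s) x y
        have h1 : rad ι.d ι.j (ι.ctr s) x - 3 / 4 * s - (rad ι.d ι.j (ι.ctr s) y - 3 / 4 * s) =
          rad ι.d ι.j (ι.ctr s) x - rad ι.d ι.j (ι.ctr s) y := by ring
        rwa [h1])
      (by
        intro x y
        have := coord_lip ι.k x y
        have h1 : x ι.k - ι.ctr s ι.k - (y ι.k - ι.ctr s ι.k) = x ι.k - y ι.k := by ring
        rwa [h1])
      (by positivity) hA
      (by
        intro t₁ ht₁ t₂ ht₂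
        have h1 : |t₁| ≤ s / 16 := abs_le.2 ht₁
        have h2 : |t₂| ≤ s / 16 := abs_le.2 ht₂
        have h3 := lp_connected hdj hdk hjk (ι.ctr s) (s := s) (t₁ := t₁) t₂
          (by linarith [ht₁.1])
        refine ⟨lp_gauge ι h1 h2, h3.nonempty, h3.isPreconnected, fun x hx => ⟨?_, ?_⟩⟩
        · have := hx.1
          simp only [this]; ring
        · have := hx.2
          simp only [this]; ring)
    exact ⟨(t₁, t₂), abs_le.2 ht₁, abs_le.2 ht₂, h⟩
  choose t ht₁ ht₂ hdiam using hgood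
  have hne : ∀ n : ℤ, (lp (Idx.mk d n p q).d (Idx.mk d n p q).j (Idx.mk d n p q).k
      ((Idx.mk d n p q).ctr s) s (t n).1 (t n).2).Nonempty := by
    intro n
    obtain ⟨hdj, hdk, hjk⟩ := idx_distinct (Idx.mk d n p q)
    exact (lp_connected hdj hdk hjk _ (s := s) (t₁ := (t n).1) (t n).2
      (by linarith [(abs_le.1 (ht₁ n)).1])).nonempty
  choose x hx using hne
  have hbd : ∀ n : ℤ, Bornology.IsBounded (f '' lp (Idx.mk d n p q).d (Idx.mk d n p q).j
      (Idx.mk d n p q).k ((Idx.mk d n p q).ctr s) s (t n).1 (t n).2) := by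
    intro n
    refine ((gauge_compact (Idx.mk d n p q) hs (η := 1 / 16) (by norm_num)).image
      f.continuous).isBounded.subset (image_mono ?_)
    exact lp_gauge _ (ht₁ n) (ht₂ n)
  refine ⟨x, fun n => diam (f '' lp (Idx.mk d n p q).d (Idx.mk d n p q).j (Idx.mk d n p q).k
      ((Idx.mk d n p q).ctr s) s (t n).1 (t n).2), ?_, fun n => diam_nonneg, hdiam, ?_⟩
  · intro n
    have h1 : (Idx.mk d n p q).g s (x n) ≤ 1 / 16 * s := lp_gauge _ (ht₁ n) (ht₂ n) (hx n)
    show (Idx.mk d n p q).g s (x n) < 1 / 8 * s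
    linarith
  · intro n
    -- the two loops
    obtain ⟨hdj, hdk, hjk⟩ := idx_distinct (Idx.mk d n p q)
    have hj' : (Idx.mk d (n + 1) p q).j = (Idx.mk d n p q).k := by
      unfold Idx.j Idx.k
      simp only [Int.even_add_one]
      split_ifs <;> rfl
    have hk' : (Idx.mk d (n + 1) p q).k = (Idx.mk d n p q).j := by
      unfold Idx.j Idx.k
      simp only [Int.even_add_one]
      split_ifs <;> rfl
    have hc1 : (Idx.mk d (n + 1) p q).ctr s (Idx.mk d n p q).d =
        (Idx.mk d n p q).ctr s (Idx.mk d n p q).d + s := by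
      rw [ctr_succ]; simp
    have hc2 : (Idx.mk d (n + 1) p q).ctr s (Idx.mk d n p q).j =
        (Idx.mk d n p q).ctr s (Idx.mk d n p q).j := by
      rw [ctr_succ, if_neg hdj.symm, add_zero]
    have hc3 : (Idx.mk d (n + 1) p q).ctr s (Idx.mk d n p q).k =
        (Idx.mk d n p q).ctr s (Idx.mk d n p q).k := by
      rw [ctr_succ, if_neg hdk.symm, add_zero]
    obtain ⟨y, hy, hyb⟩ := link_pair f hdj hdk hjk ((Idx.mk d n p q).ctr s)
      ((Idx.mk d (n + 1) p q).ctr s) hs (Or.inl hc1) hc2 hc3 (ht₁ n) (ht₂ n) (ht₁ (n + 1))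
      (ht₂ (n + 1)) (f (x n)) (diam (f '' lp (Idx.mk d n p q).d (Idx.mk d n p q).j
        (Idx.mk d n p q).k ((Idx.mk d n p q).ctr s) s (t n).1 (t n).2))
      (fun z hz => by
        rw [mem_closedBall]
        exact dist_le_diam_of_mem (hbd n) (mem_image_of_mem f hz) (mem_image_of_mem f (hx n)))
    rw [mem_closedBall] at hyb
    have hy' : y ∈ lp (Idx.mk d (n + 1) p q).d (Idx.mk d (n + 1) p q).j (Idx.mk d (n + 1) p q).k
        ((Idx.mk d (n + 1) p q).ctr s) s (t (n + 1)).1 (t (n + 1)).2 := by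
      rw [hj', hk']
      exact hy
    have h2 := dist_le_diam_of_mem (hbd (n + 1)) (mem_image_of_mem f hy')
      (mem_image_of_mem f (hx (n + 1)))
    calc dist (f (x n)) (f (x (n + 1))) ≤ dist (f (x n)) (f y) + dist (f y) (f (x (n + 1))) :=
          dist_triangle _ _ _
      _ ≤ _ := by
        rw [dist_comm (f (x n))]
        exact add_le_add hyb h2

end Pool.Agent.Lib.MP_8effdd_an.CM
end

section

set_option autoImplicit false

open MeasureTheory Filter Topology Metric Set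
open scoped ENNReal

namespace Pool.Agent.Lib.MP_8effdd_an.CM

/-- closeness in coordinates gives closeness in distance -/
theorem ri_dist {s : ℝ} (hs : 0 < s) {x y : E3} (h : ∀ m, |x m - y m| ≤ 3 * s) :
    dist x y ≤ 6 * s := by
  rw [EuclideanSpace.dist_eq]
  apply Real.sqrt_le_iff.mpr
  refine ⟨by positivity, ?_⟩
  have h1 : ∀ m, dist (x m) (y m) ^ 2 ≤ 9 * s ^ 2 := by
    intro m
    rw [Real.dist_eq]
    have := h m
    have h0 := abs_nonneg (x m - y m)
    nlinarith
  rw [Fin.sum_univ_three]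
  have a0 := h1 0
  have a1 := h1 1
  have a2 := h1 2
  nlinarith [sq_nonneg s]

/-- nearest integer -/
theorem ri_round {s : ℝ} (hs : 0 < s) (t : ℝ) : ∃ p : ℤ, |t - s * (4 * p)| ≤ 2 * s := by
  refine ⟨round (t / (4 * s)), ?_⟩
  have h := abs_sub_round (t / (4 * s))
  have h2 : t - s * (4 * (round (t / (4 * s)) : ℤ)) = (4 * s) * (t / (4 * s) - round (t / (4 * s))) := by
    field_simp
  rw [h2, abs_mul, abs_of_pos (by positivity : (0:ℝ) < 4 * s)]
  nlinarith

/-- telescoping along a row -/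
theorem ri_tele {F : ℤ → E3} {L : ℤ → ℝ} (hL : ∀ n, 0 ≤ L n)
    (h : ∀ n, dist (F n) (F (n + 1)) ≤ L n + L (n + 1)) (n m : ℤ) (hnm : n ≤ m) :
    dist (F n) (F m) + L m ≤ 2 * ∑ k ∈ Finset.Icc n m, L k := by
  induction m, hnm using Int.leInduction with
  | base =>
    rw [dist_self, Finset.Icc_self, Finset.sum_singleton]
    have := hL n
    linarith
  | succ m hm ih =>
    have e : Finset.Icc n (m + 1) = insert (m + 1) (Finset.Icc n m) := by
      ext k
      simp only [Finset.mem_Icc, Finset.mem_insert]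
      omega
    have hni : (m + 1) ∉ Finset.Icc n m := by
      simp only [Finset.mem_Icc]
      omega
    rw [e, Finset.sum_insert hni]
    have h1 := dist_triangle (F n) (F m) (F (m + 1))
    have h2 := h m
    linarith

/-- Hoelder for the sum of the lengths -/
theorem ri_holder {ι : Type*} (S : Finset ι) (L : ι → ℝ) (hL : ∀ n, 0 ≤ L n) {V M : ℝ}
    (hM : (S.card : ℝ) ≤ M) (hV : ∑ k ∈ S, L k ^ 3 ≤ V) :
    ∑ k ∈ S, L k ≤ (M ^ 2 * V) ^ (1 / 3 : ℝ) := by
  have hM0 : 0 ≤ M := le_trans (Nat.cast_nonneg _) hM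
  have h0 : 0 ≤ ∑ k ∈ S, L k := Finset.sum_nonneg fun k _ => hL k
  have h3 : 0 ≤ ∑ k ∈ S, L k ^ 3 := Finset.sum_nonneg fun k _ => pow_nonneg (hL k) 3
  have h1 : (∑ k ∈ S, L k) ^ 3 ≤ M ^ 2 * V := by
    have h2 := pow_sum_le_card_mul_sum_pow (s := S) (f := L) (fun i _ => hL i) 2
    calc (∑ k ∈ S, L k) ^ 3 ≤ (S.card : ℝ) ^ 2 * ∑ k ∈ S, L k ^ 3 := h2
      _ ≤ M ^ 2 * V := by gcongr
  calc ∑ k ∈ S, L k = ((∑ k ∈ S, L k) ^ 3) ^ (1 / 3 : ℝ) := by
        rw [← Real.rpow_natCast, ← Real.rpow_mul h0]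
        norm_num
    _ ≤ (M ^ 2 * V) ^ (1 / 3 : ℝ) := Real.rpow_le_rpow (by positivity) h1 (by norm_num)

theorem ri_coord_cont (m : Fin 3) : Continuous (fun z : E3 => z m) := by fun_prop

theorem tube_closed (d : Fin 3) (a : E3) (r s : ℝ) : IsClosed (tube d a r s) := by
  have e : tube d a r s = (⋂ m : Fin 3, ⋂ _ : m ≠ d, {z : E3 | |z m - a m| ≤ 8 * s}) ∩
      ({z : E3 | a d - 8 * s ≤ z d} ∩ {z : E3 | z d ≤ a d + r + 8 * s}) := by
    ext z
    simp only [tube, mem_ofPred_eq, mem_inter_iff, mem_iInter]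
  rw [e]
  refine IsClosed.inter (isClosed_iInter fun m => isClosed_iInter fun _ => ?_)
    (IsClosed.inter ?_ ?_)
  · exact isClosed_le ((ri_coord_cont m).sub continuous_const).abs continuous_const
  · exact isClosed_le continuous_const (ri_coord_cont d)
  · exact isClosed_le (ri_coord_cont d) continuous_const

theorem tube_bdd (d : Fin 3) (a : E3) {r s : ℝ} (hr : 0 < r) (hs : 0 < s) :
    tube d a r s ⊆ closedBall a (2 * (r + 8 * s)) := by
  intro z hz
  rw [mem_closedBall]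
  have h3 : (0:ℝ) < (r + 8 * s) / 3 := by positivity
  have := ri_dist h3 (x := z) (y := a) ?_
  · linarith
  · intro m
    by_cases hm : m = d
    · subst hm
      rw [abs_le]
      obtain ⟨_, h1, h2⟩ := hz
      constructor <;> linarith
    · have := hz.1 m hm
      linarith

/-- the energy measure of a measurable set -/
theorem ri_nu (f : E3 ≃ₜ E3) {A : Set E3} (hA : MeasurableSet A) :
    (((volume : Measure E3).map f.symm).restrict EEᶜ) A = volume (f '' (A ∩ EEᶜ)) := by
  rw [Measure.restrict_apply hA,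
    Measure.map_apply f.symm.continuous.measurable (hA.inter EE_closed.measurableSet.compl)]
  congr 1
  ext y
  simp only [mem_preimage, mem_image]
  constructor
  · intro h
    exact ⟨_, h, f.apply_symm_apply y⟩
  · rintro ⟨x, hx, rfl⟩
    rwa [f.symm_apply_apply]

theorem ri_fin3 (d m : Fin 3) (h1 : m ≠ d) (h2 : m ≠ d + 1) : m = d + 2 := by
  revert d m
  decide

/-- sum of the cubes of the lengths of the frames of a row inside a tube -/
theorem ri_sum (f : E3 ≃ₜ E3) {s r C₀ : ℝ} (hs : 0 < s) (hr : 0 < r) (hC : 0 < C₀) (k : ℕ)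
    (hk : s = sc k) (d : Fin 3) (a : E3) (p q : ℤ) (L : ℤ → ℝ)
    (hL : ∀ n, L n ^ 3 ≤ C₀ * (volume (f '' (Idx.mk d n p q).fr s (1 / 8))).toReal)
    (S : Finset ℤ) (hS : ∀ n ∈ S, (Idx.mk d n p q).fr s (1 / 8) ⊆ tube d a r s) :
    ∑ n ∈ S, L n ^ 3 ≤ C₀ *
      ((((volume : Measure E3).map f.symm).restrict EEᶜ) (tube d a r s)).toReal := by
  set ν := ((volume : Measure E3).map f.symm).restrict EEᶜ with hν
  have hfin : ν (tube d a r s) ≠ ⊤ := by
    rw [hν, ri_nu f (tube_closed d a r s).measurableSet]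
    have hc : IsCompact (f '' closedBall a (2 * (r + 8 * s))) :=
      (isCompact_closedBall _ _).image f.continuous
    have hsub : f '' (tube d a r s ∩ EEᶜ) ⊆ f '' closedBall a (2 * (r + 8 * s)) :=
      image_mono (inter_subset_left.trans (tube_bdd d a hr hs))
    exact ((measure_mono hsub).trans_lt hc.measure_lt_top).ne
  have hdis : (S : Set ℤ).PairwiseDisjoint fun n => f '' (Idx.mk d n p q).fr s (1 / 8) := by
    intro n _ n' _ hne
    have hne' : Idx.mk d n p q ≠ Idx.mk d n' p q := by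
      intro h
      apply hne
      simpa using congrArg Idx.n h
    have h1 := fr_disjoint hs hne'
    have h2 : Disjoint ((Idx.mk d n p q).fr s (1 / 8)) ((Idx.mk d n' p q).fr s (1 / 8)) :=
      h1.mono (fr_mono _ hs (by norm_num)) (fr_mono _ hs (by norm_num))
    exact (disjoint_image_iff f.injective).mpr h2
  have hmeas : ∀ n ∈ S, MeasurableSet (f '' (Idx.mk d n p q).fr s (1 / 8)) := by
    intro n _
    exact (f.isOpenMap _ (fr_open _ _ _)).measurableSet
  have hsum : ∑ n ∈ S, volume (f '' (Idx.mk d n p q).fr s (1 / 8)) ≤ ν (tube d a r s) := by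
    rw [← measure_biUnion_finset hdis hmeas, hν, ri_nu f (tube_closed d a r s).measurableSet]
    apply measure_mono
    intro y hy
    simp only [mem_iUnion] at hy
    obtain ⟨n, hn, x, hx, rfl⟩ := hy
    refine ⟨x, ⟨hS n hn hx, ?_⟩, rfl⟩
    apply mail_sub k
    rw [← hk]
    exact mem_iUnion.mpr ⟨_, hx⟩
  have hfin' : ∀ n ∈ S, volume (f '' (Idx.mk d n p q).fr s (1 / 8)) ≠ ⊤ := by
    intro n hn
    have := (Finset.single_le_sum (f := fun n => volume (f '' (Idx.mk d n p q).fr s (1 / 8)))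
      (fun _ _ => bot_le) hn).trans hsum
    exact ne_top_of_le_ne_top hfin this
  calc ∑ n ∈ S, L n ^ 3
      ≤ ∑ n ∈ S, C₀ * (volume (f '' (Idx.mk d n p q).fr s (1 / 8))).toReal :=
        Finset.sum_le_sum fun n _ => hL n
    _ = C₀ * (∑ n ∈ S, volume (f '' (Idx.mk d n p q).fr s (1 / 8))).toReal := by
        rw [← Finset.mul_sum, ENNReal.toReal_sum hfin']
    _ ≤ C₀ * (ν (tube d a r s)).toReal := by
        gcongr

/-- The row inequality for homeomorphisms which are metrically quasiconformal off `EE`. -/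
theorem row_ineq (H : ℝ) : ∃ C : ℝ, 0 < C ∧ ∀ f : E3 ≃ₜ E3, QCon f H EEᶜ →
    RowIneq f (((volume : Measure E3).map f.symm).restrict EEᶜ) C := by
  obtain ⟨C₀, hC₀, hrow⟩ := row_points H
  refine ⟨2 * (9 * C₀) ^ (1 / 3 : ℝ), by positivity, ?_⟩
  intro f hf R ε hε δ hδ
  have huc : UniformContinuousOn f (closedBall (0 : E3) (R + 10)) :=
    (isCompact_closedBall _ _).uniformContinuousOn_of_continuous f.continuous.continuousOn
  obtain ⟨η, hη, hu⟩ := Metric.uniformContinuousOn_iff.mp huc (ε / 2) (by positivity)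
  obtain ⟨k, hk⟩ : ∃ k : ℕ, (1 / 1000 : ℝ) ^ k < min δ (min (η / 6) 1) :=
    exists_pow_lt_of_lt_one (by positivity) (by norm_num)
  obtain ⟨s, hsk⟩ : ∃ s, s = sc k := ⟨_, rfl⟩
  have hs0 : 0 < s := by rw [hsk]; unfold sc; positivity
  have hs1 : s < min δ (min (η / 6) 1) := by rw [hsk]; exact hk
  have hsδ : s < δ := lt_of_lt_of_le hs1 (min_le_left _ _)
  have hsη : s < η / 6 := lt_of_lt_of_le hs1 ((min_le_right _ _).trans (min_le_left _ _))
  have hs1' : s < 1 := lt_of_lt_of_le hs1 ((min_le_right _ _).trans (min_le_right _ _))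
  refine ⟨s, hs0, hsδ, ?_⟩
  intro d a r hsr hseg
  have hr : 0 < r := lt_of_lt_of_le hs0 hsr
  obtain ⟨p, hp⟩ := ri_round hs0 (a (d + 1))
  obtain ⟨q, hq⟩ := ri_round hs0 (a (d + 2) - 2 * s)
  have hqc : QCon f H (mail s) := by
    intro x hx
    apply hf
    rw [hsk] at hx
    exact mail_sub k hx
  obtain ⟨X, L, hX, hL0, hL3, hstep⟩ := hrow f s hs0 hqc d p q
  -- distance of the axis of the row
  have hctr : ∀ (n : ℤ) (m : Fin 3), m ≠ d → |a m - (Idx.mk d n p q).ctr s m| ≤ 2 * s := by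
    intro n m hm
    unfold Idx.ctr
    simp only [hm, if_false]
    by_cases hm1 : m = d + 1
    · rw [if_pos hm1, hm1]
      exact hp
    · rw [if_neg hm1, ri_fin3 d m hm hm1]
      have : a (d + 2) - s * (4 * (q : ℝ) + 2) = a (d + 2) - 2 * s - s * (4 * (q : ℝ)) := by ring
      rw [this]
      exact hq
  have hctrd : ∀ n : ℤ, (Idx.mk d n p q).ctr s d = s * n := by
    intro n
    unfold Idx.ctr
    simp
  have hXc : ∀ (n : ℤ) (m : Fin 3), |X n m - (Idx.mk d n p q).ctr s m| < s := by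
    intro n m
    exact fr_sub _ hs0 (fr_mono _ hs0 (by norm_num) (hX n)) m
  -- closeness
  have hclose : ∀ x ∈ seg d a r, dist (f x) (f (X ⌊x d / s⌋)) < ε / 2 := by
    intro x hx
    have hfl1 : s * (⌊x d / s⌋ : ℝ) ≤ x d := by
      have := Int.floor_le (x d / s)
      rwa [le_div_iff₀ hs0, mul_comm] at this
    have hfl2 : x d < s * (⌊x d / s⌋ + 1 : ℝ) := by
      have := Int.lt_floor_add_one (x d / s)
      rwa [div_lt_iff₀ hs0, mul_comm] at this
    have hd : dist x (X ⌊x d / s⌋) ≤ 6 * s := by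
      apply ri_dist hs0
      intro m
      by_cases hm : m = d
      · have h1 := hXc ⌊x d / s⌋ d
        rw [hctrd, abs_lt] at h1
        rw [hm, abs_le]
        constructor <;> linarith [h1.1, h1.2]
      · have h1 := hXc ⌊x d / s⌋ m
        have h2 := hctr ⌊x d / s⌋ m hm
        rw [hx.1 m hm]
        rw [abs_lt] at h1
        rw [abs_le] at h2 ⊢
        constructor <;> linarith [h1.1, h1.2, h2.1, h2.2]
    have hx0 : x ∈ closedBall (0 : E3) R := hseg hx
    rw [mem_closedBall] at hx0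
    have hx1 : x ∈ closedBall (0 : E3) (R + 10) := by
      rw [mem_closedBall]; linarith
    have hx2 : X ⌊x d / s⌋ ∈ closedBall (0 : E3) (R + 10) := by
      rw [mem_closedBall]
      have := dist_triangle (X ⌊x d / s⌋) x 0
      rw [dist_comm (X ⌊x d / s⌋) x] at this
      linarith
    exact hu x hx1 _ hx2 (by linarith)
  -- the main estimate
  set V := ((((volume : Measure E3).map f.symm).restrict EEᶜ) (tube d a r s)).toReal with hV
  have hV0 : 0 ≤ V := ENNReal.toReal_nonneg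
  have key : ∀ x ∈ seg d a r, ∀ y ∈ seg d a r, x d ≤ y d →
      dist (f x) (f y) ≤ 2 * (9 * C₀) ^ (1 / 3 : ℝ) * ((r / s) ^ 2 * V) ^ (1 / 3 : ℝ) + ε := by
    intro x hx y hy hxy
    set n := ⌊x d / s⌋ with hn
    set m := ⌊y d / s⌋ with hm
    have hnm : n ≤ m := Int.floor_le_floor (by gcongr)
    have hn1 : s * (n : ℝ) ≤ x d := by
      have := Int.floor_le (x d / s)
      rwa [le_div_iff₀ hs0, mul_comm] at this
    have hn2 : x d < s * (n + 1 : ℝ) := by
      have := Int.lt_floor_add_one (x d / s)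
      rwa [div_lt_iff₀ hs0, mul_comm] at this
    have hm1 : s * (m : ℝ) ≤ y d := by
      have := Int.floor_le (y d / s)
      rwa [le_div_iff₀ hs0, mul_comm] at this
    have htele := ri_tele (F := fun n => f (X n)) hL0 hstep n m hnm
    have hcard : ((Finset.Icc n m).card : ℝ) ≤ 3 * (r / s) := by
      rw [Int.card_Icc]
      have h1 : (((m + 1 - n).toNat : ℕ) : ℝ) = (m : ℝ) + 1 - n := by
        have h2 : (((m + 1 - n).toNat : ℤ)) = m + 1 - n := Int.toNat_of_nonneg (by omega)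
        have h3 : (((m + 1 - n).toNat : ℤ) : ℝ) = ((m + 1 - n : ℤ) : ℝ) := by rw [h2]
        push_cast at h3
        exact h3
      rw [h1]
      have h4 : (1 : ℝ) ≤ r / s := by rwa [one_le_div hs0]
      have h5 : s * ((m : ℝ) - n - 1) < r := by
        have := hy.2.2
        have := hx.2.1
        nlinarith
      have h6 : (m : ℝ) - n - 1 < r / s := by
        rw [lt_div_iff₀ hs0, mul_comm]; exact h5
      linarith
    have htube : ∀ j ∈ Finset.Icc n m, (Idx.mk d j p q).fr s (1 / 8) ⊆ tube d a r s := by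
      intro j hj z hz
      rw [Finset.mem_Icc] at hj
      have hzc : ∀ i, |z i - (Idx.mk d j p q).ctr s i| < s := fun i =>
        fr_sub _ hs0 (fr_mono _ hs0 (by norm_num) hz) i
      have hj1 : s * (n : ℝ) ≤ s * (j : ℝ) := by
        have : (n : ℝ) ≤ (j : ℝ) := by exact_mod_cast hj.1
        gcongr
      have hj2 : s * (j : ℝ) ≤ s * (m : ℝ) := by
        have : (j : ℝ) ≤ (m : ℝ) := by exact_mod_cast hj.2
        gcongr
      have hzd := hzc d
      rw [hctrd, abs_lt] at hzd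
      have hy2 := hy.2.2
      have hx1 := hx.2.1
      refine ⟨?_, ?_, ?_⟩
      · intro i hi
        have h1 := hzc i
        have h2 := hctr j i hi
        rw [abs_lt] at h1
        rw [abs_le] at h2 ⊢
        constructor <;> linarith [h1.1, h1.2, h2.1, h2.2]
      · linarith [hzd.1]
      · linarith [hzd.2]
    have hcube := ri_sum f hs0 hr hC₀ k hsk d a p q L hL3 (Finset.Icc n m) htube
    have hhol := ri_holder (Finset.Icc n m) L hL0 hcard hcube
    have hrw : ((3 * (r / s)) ^ 2 * (C₀ * V)) ^ (1 / 3 : ℝ) =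
        (9 * C₀) ^ (1 / 3 : ℝ) * ((r / s) ^ 2 * V) ^ (1 / 3 : ℝ) := by
      rw [← Real.mul_rpow (by positivity) (by positivity)]
      congr 1
      ring
    rw [← hV, hrw] at hhol
    have hLm := hL0 m
    have h1 := hclose x hx
    have h2 := hclose y hy
    rw [dist_comm] at h2
    have h3 := dist_triangle4 (f x) (f (X n)) (f (X m)) (f y)
    have htele' : dist (f (X n)) (f (X m)) + L m ≤ 2 * ∑ k ∈ Finset.Icc n m, L k := htele
    linarith
  intro x hx y hy
  rcases le_total (x d) (y d) with h | h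
  · exact key x hx y hy h
  · rw [dist_comm]
    exact key y hy x hx h

end Pool.Agent.Lib.MP_8effdd_an.CM
end

section

set_option autoImplicit false

open MeasureTheory Filter Topology Metric Set
open scoped ENNReal

namespace Pool.Agent.Lib.MP_8effdd_an.CM

/-- Every homeomorphism that is metrically quasiconformal off `EE` maps it onto a null set. -/
theorem image_null (f : E3 ≃ₜ E3) {H : ℝ} (hf : QCon f H EEᶜ) : volume (f '' EE) = 0 := by
  obtain ⟨C, hC, h1⟩ := row_ineq H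
  obtain ⟨C', hC', h2⟩ := box_bound hC
  have hsym : Measurable (f.symm : E3 → E3) := f.symm.continuous.measurable
  have key : ∀ A : Set E3, MeasurableSet A →
      (((volume : Measure E3).map f.symm).restrict EEᶜ) A = volume (f '' (A \ EE)) := by
    intro A hA
    rw [Measure.restrict_apply hA, Measure.map_apply hsym (hA.inter EE_closed.measurableSet.compl)]
    congr 1
    ext y
    constructor
    · intro hy
      exact ⟨f.symm y, hy, by simp⟩
    · rintro ⟨x, hx, rfl⟩
      simpa using hx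
  have hcc : ∀ x l, IsCompact (cube x l) := cube_compact
  have hfin : ∀ x l, (((volume : Measure E3).map f.symm).restrict EEᶜ) (cube x l) ≠ ⊤ := by
    intro x l
    rw [key _ (hcc x l).isClosed.measurableSet]
    refine ne_top_of_le_ne_top ?_ (measure_mono (image_mono sdiff_subset))
    exact ((hcc x l).image f.continuous).measure_lt_top.ne
  refine null_image f EE_closed hC' ?_
  intro x₀ l hl _
  have := h2 f _ hfin (h1 f hf) x₀ l hl
  rwa [key _ (hcc _ _).isClosed.measurableSet] at this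

/-- The set `EE` is not CNED (with the moduli of the frozen statement). -/
theorem not_cned :
    (⨅ (ρ : EuclideanSpace ℝ (Fin 3) → ℝ≥0∞) (_ : Measurable ρ)
            (_ : ∀ γ : ℝ → EuclideanSpace ℝ (Fin 3), ContinuousOn γ (Set.Icc 0 1) →
              γ 0 ∈ cube 0 1 → γ 1 ∈ cube far 1 → (γ '' Set.Icc 0 1 ∩ EE).Countable →
              eVariationOn γ (Set.Icc 0 1) ≠ ⊤ →
              ∀ h : Monotone (fun t : ℝ => (eVariationOn γ (Set.Icc 0 (max 0 (min t 1)))).toReal),
                1 ≤ ∫⁻ t in Set.Icc (0:ℝ) 1, ρ (γ t) ∂h.stieltjesFunction.measure),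
            ∫⁻ x, ρ x ^ 3) = 0 := by
  refine le_antisymm ?_ bot_le
  refine iInf_le_of_le 0 (iInf_le_of_le measurable_zero (iInf_le_of_le ?_ ?_))
  · intro γ hγ h0 h1 hc
    exact absurd hc (long_path hγ (cubes_far h0 h1))
  · simp

end Pool.Agent.Lib.MP_8effdd_an.CM
end
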